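import Pool.Agent.P994e17.Persp

set_option autoImplicit false

/-! The sign cross ratio of four points of a line and its invariance. -/

namespace P994e17

open Configuration Configuration.ProjectivePlane

section exist

variable {P L : Type*} [Membership P L] [ProjectivePlane P L] [Fintype P] [Fintype L]

theorem exists_pt_avoid (l : L) (S : Finset P) (hS : S.card ≤ order P L) :
    ∃ x : P, x ∈ l ∧ x ∉ S := by
  classical
  by_contra hcon
  push Not at hcon
  have h1 : Nat.card {x : P // x ∈ l} = order P L + 1 := card_pts l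
  have h2 : Nat.card {x : P // x ∈ l} ≤ S.card := by
    rw [Nat.card_eq_fintype_card, Fintype.card_subtype]
    apply Finset.card_le_card
    intro x hx
    exact hcon x (Finset.mem_filter.1 hx).2
  omega

theorem exists_line_avoid (X : P) (S : Finset L) (hS : S.card ≤ order P L) :
    ∃ m : L, X ∈ m ∧ m ∉ S := by
  classical
  by_contra hcon
  push Not at hcon
  have h1 : Nat.card {l : L // X ∈ l} = order P L + 1 := by
    rw [← lineCount_eq (L := L) X, lineCount]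
  have h2 : Nat.card {l : L // X ∈ l} ≤ S.card := by
    rw [Nat.card_eq_fintype_card, Fintype.card_subtype]
    apply Finset.card_le_card
    intro x hx
    exact hcon x (Finset.mem_filter.1 hx).2
  omega

theorem exists_other_line (l : L) (X : P) : ∃ m : L, X ∈ m ∧ m ≠ l := by
  classical
  obtain ⟨m, h1, h2⟩ := exists_line_avoid (P := P) X ({l} : Finset L)
    (by rw [Finset.card_singleton]; exact (one_lt_order P L).le)
  exact ⟨m, h1, fun h => h2 (by simp [h])⟩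

theorem exists_third (l : L) (a b : P) : ∃ c : P, c ∈ l ∧ c ≠ a ∧ c ≠ b := by
  classical
  obtain ⟨c, h1, h2⟩ := exists_pt_avoid (P := P) l ({a, b} : Finset P)
    (by
      have := one_lt_order P L
      have := Finset.card_le_two (a := a) (b := b)
      omega)
  simp only [Finset.mem_insert, Finset.mem_singleton, not_or] at h2
  exact ⟨c, h1, h2.1, h2.2⟩

omit [Fintype P] [Fintype L] in
theorem not_mem_of_ne {l m : L} {X A : P} (hX : X ∈ l) (hA : A ∈ l) (hXm : X ∈ m) (hne : m ≠ l)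
    (hAX : A ≠ X) : A ∉ m :=
  fun h => hAX (point_unique hne h hXm hA hX)

theorem exists_off_two (l k : L) : ∃ V : P, V ∉ l ∧ V ∉ k := by
  by_cases hlk : l = k
  · subst hlk
    obtain ⟨p, hp⟩ := Nondegenerate.exists_point (P := P) l
    exact ⟨p, hp, hp⟩
  · obtain ⟨V, hVl, hVk⟩ := exists_meet (P := P) l k hlk
    obtain ⟨A, hA, hAV, -⟩ := exists_third l V V
    obtain ⟨B, hB, hBV, -⟩ := exists_third k V V
    have hAk : A ∉ k := not_mem_of_ne hVl hA hVk (Ne.symm hlk) hAV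
    have hBl : B ∉ l := not_mem_of_ne hVk hB hVl hlk hBV
    have hAB : A ≠ B := fun h => hAk (h ▸ hB)
    obtain ⟨m, hmA, hmB⟩ := exists_line_two (L := L) A B hAB
    obtain ⟨c, hc, hcA, hcB⟩ := exists_third m A B
    refine ⟨c, ?_, ?_⟩
    · exact not_mem_of_ne hmA hc hA (fun h => hBl (h ▸ hmB)) hcA
    · exact not_mem_of_ne hmB hc hB (fun h => hAk (h ▸ hmA)) hcB

end exist

section cr

variable {P L : Type*} [Membership P L] [ProjectivePlane P L] [Fintype P] [Fintype L]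

/-- Property (E) on the level of signs. -/
def PropE (P L : Type*) [Membership P L] [ProjectivePlane P L] [Fintype P] [Fintype L] : Prop :=
  ∀ (B C V : P) (l k j : L), B ≠ C → l ≠ k → V ∈ l → V ∈ k → V ∈ j → B ∈ j → C ∈ j →
    B ∉ l → B ∉ k → C ∉ l → C ∉ k → s B l k = s C l k

theorem s_change (hE : PropE P L) {B C V : P} {l k j : L} (hVl : V ∈ l) (hVk : V ∈ k)
    (hVj : V ∈ j) (hBj : B ∈ j) (hCj : C ∈ j) (hBl : B ∉ l) (hBk : B ∉ k) (hCl : C ∉ l)
    (hCk : C ∉ k) : s B l k = s C l k := by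
  by_cases h : B = C
  · rw [h]
  by_cases h' : l = k
  · rw [h', s_self, s_self]
  exact hE B C V l k j h h' hVl hVk hVj hBj hCj hBl hBk hCl hCk

/-- a line through `X` different from `l` -/
noncomputable def oth (l : L) (X : P) : L := (exists_other_line l X).choose

theorem mem_oth (l : L) (X : P) : X ∈ oth l X := (exists_other_line l X).choose_spec.1

theorem oth_ne (l : L) (X : P) : oth l X ≠ l := (exists_other_line l X).choose_spec.2

/-- the sign cross ratio -/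
noncomputable def cr (l : L) (A B X Y : {x : P // x ∈ l}) : ℤˣ :=
  s A.1 (oth l X.1) (oth l Y.1) * s B.1 (oth l X.1) (oth l Y.1)

omit [ProjectivePlane P L] [Fintype P] [Fintype L] in
theorem ne_val {l : L} {A B : {x : P // x ∈ l}} (h : A ≠ B) : A.1 ≠ B.1 :=
  fun h' => h (Subtype.ext h')

theorem cr_eq (hE : PropE P L) {l : L} {A B X Y : {x : P // x ∈ l}}
    (hXA : X ≠ A) (hXB : X ≠ B) (hYA : Y ≠ A) (hYB : Y ≠ B) {m k : L} (hXm : X.1 ∈ m)
    (hm : m ≠ l) (hYk : Y.1 ∈ k) (hk : k ≠ l) :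
    cr l A B X Y = s A.1 m k * s B.1 m k := by
  have a1 : A.1 ∉ oth l X.1 := not_mem_of_ne X.2 A.2 (mem_oth _ _) (oth_ne _ _) (ne_val hXA).symm
  have a2 : A.1 ∉ oth l Y.1 := not_mem_of_ne Y.2 A.2 (mem_oth _ _) (oth_ne _ _) (ne_val hYA).symm
  have b1 : B.1 ∉ oth l X.1 := not_mem_of_ne X.2 B.2 (mem_oth _ _) (oth_ne _ _) (ne_val hXB).symm
  have b2 : B.1 ∉ oth l Y.1 := not_mem_of_ne Y.2 B.2 (mem_oth _ _) (oth_ne _ _) (ne_val hYB).symm
  have a3 : A.1 ∉ m := not_mem_of_ne X.2 A.2 hXm hm (ne_val hXA).symm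
  have a4 : A.1 ∉ k := not_mem_of_ne Y.2 A.2 hYk hk (ne_val hYA).symm
  have b3 : B.1 ∉ m := not_mem_of_ne X.2 B.2 hXm hm (ne_val hXB).symm
  have b4 : B.1 ∉ k := not_mem_of_ne Y.2 B.2 hYk hk (ne_val hYB).symm
  have e1 : s A.1 (oth l X.1) m = s B.1 (oth l X.1) m :=
    s_change hE (mem_oth _ _) hXm X.2 A.2 B.2 a1 a3 b1 b3
  have e2 : s A.1 k (oth l Y.1) = s B.1 k (oth l Y.1) :=
    s_change hE hYk (mem_oth _ _) Y.2 A.2 B.2 a4 a2 b4 b2
  have f1 := s_trans A.1 (oth l X.1) m (oth l Y.1) a1 a3 a2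
  have f2 := s_trans A.1 m k (oth l Y.1) a3 a4 a2
  have g1 := s_trans B.1 (oth l X.1) m (oth l Y.1) b1 b3 b2
  have g2 := s_trans B.1 m k (oth l Y.1) b3 b4 b2
  unfold cr
  rw [← f1, ← f2, ← g1, ← g2, e1, e2]
  have h1 := Int.units_mul_self (s B.1 (oth l X.1) m)
  have h2 := Int.units_mul_self (s B.1 k (oth l Y.1))
  calc s B.1 (oth l X.1) m * (s A.1 m k * s B.1 k (oth l Y.1)) *
        (s B.1 (oth l X.1) m * (s B.1 m k * s B.1 k (oth l Y.1)))
      = (s B.1 (oth l X.1) m * s B.1 (oth l X.1) m) *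
        (s B.1 k (oth l Y.1) * s B.1 k (oth l Y.1)) * (s A.1 m k * s B.1 m k) := by
        ac_rfl
    _ = s A.1 m k * s B.1 m k := by rw [h1, h2, one_mul, one_mul]

theorem cr_self (l : L) (A B X : {x : P // x ∈ l}) : cr l A B X X = 1 := by
  unfold cr
  rw [s_self, s_self, one_mul]

theorem cr_swap (l : L) (A B X Y : {x : P // x ∈ l}) : cr l A B X Y = cr l B A X Y := by
  unfold cr
  rw [mul_comm]

theorem cr_swap' (l : L) (A B X Y : {x : P // x ∈ l}) : cr l A B X Y = cr l A B Y X := by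
  unfold cr
  rw [s_symm, s_symm B.1]

theorem cr_mul {l : L} {A B X Y W : {x : P // x ∈ l}}
    (hXA : X ≠ A) (hXB : X ≠ B) (hYA : Y ≠ A) (hYB : Y ≠ B) (hWA : W ≠ A) (hWB : W ≠ B) :
    cr l A B X Y * cr l A B Y W = cr l A B X W := by
  have a1 : A.1 ∉ oth l X.1 := not_mem_of_ne X.2 A.2 (mem_oth _ _) (oth_ne _ _) (ne_val hXA).symm
  have a2 : A.1 ∉ oth l Y.1 := not_mem_of_ne Y.2 A.2 (mem_oth _ _) (oth_ne _ _) (ne_val hYA).symm
  have b1 : B.1 ∉ oth l X.1 := not_mem_of_ne X.2 B.2 (mem_oth _ _) (oth_ne _ _) (ne_val hXB).symm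
  have b2 : B.1 ∉ oth l Y.1 := not_mem_of_ne Y.2 B.2 (mem_oth _ _) (oth_ne _ _) (ne_val hYB).symm
  have a3 : A.1 ∉ oth l W.1 := not_mem_of_ne W.2 A.2 (mem_oth _ _) (oth_ne _ _) (ne_val hWA).symm
  have b3 : B.1 ∉ oth l W.1 := not_mem_of_ne W.2 B.2 (mem_oth _ _) (oth_ne _ _) (ne_val hWB).symm
  have f := s_trans A.1 _ _ _ a1 a2 a3
  have g := s_trans B.1 _ _ _ b1 b2 b3
  unfold cr
  rw [← f, ← g]
  ac_rfl

/-- a bijection between two lines preserves the sign cross ratio -/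
def CRE (l k : L) (e : {x : P // x ∈ l} ≃ {x : P // x ∈ k}) : Prop :=
  ∀ A B X Y : {x : P // x ∈ l}, X ≠ A → X ≠ B → Y ≠ A → Y ≠ B →
    cr k (e A) (e B) (e X) (e Y) = cr l A B X Y

theorem CRE.trans' {l k j : L} {e : {x : P // x ∈ l} ≃ {x : P // x ∈ k}}
    {f : {x : P // x ∈ k} ≃ {x : P // x ∈ j}} (he : CRE l k e) (hf : CRE k j f) :
    CRE l j (e.trans f) := by
  intro A B X Y h1 h2 h3 h4
  rw [Equiv.trans_apply, Equiv.trans_apply, Equiv.trans_apply, Equiv.trans_apply,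
    hf _ _ _ _ (fun h => h1 (e.injective h)) (fun h => h2 (e.injective h))
      (fun h => h3 (e.injective h)) (fun h => h4 (e.injective h)), he A B X Y h1 h2 h3 h4]

theorem cre_persp (hE : PropE P L) (V : P) (l k : L) (hl : V ∉ l) (hk : V ∉ k) :
    CRE l k (persp V l k hl hk) := by
  intro A B X Y hXA hXB hYA hYB
  by_cases hXY : X = Y
  · subst hXY
    rw [cr_self, cr_self]
  obtain ⟨m, m1, m2, m3⟩ := persp_spec V l k hl hk X
  obtain ⟨r, r1, r2, r3⟩ := persp_spec V l k hl hk Y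
  have hml : m ≠ l := fun h => hl (h ▸ m1)
  have hmk : m ≠ k := fun h => hk (h ▸ m1)
  have hrl : r ≠ l := fun h => hl (h ▸ r1)
  have hrk : r ≠ k := fun h => hk (h ▸ r1)
  have inj : ∀ {S T : {x : P // x ∈ l}}, S ≠ T → persp V l k hl hk S ≠ persp V l k hl hk T :=
    fun h h' => h ((persp V l k hl hk).injective h')
  rw [cr_eq hE (inj hXA) (inj hXB) (inj hYA) (inj hYB) m3 hmk r3 hrk,
    cr_eq hE hXA hXB hYA hYB m2 hml r2 hrl]
  have key : ∀ S : {x : P // x ∈ l}, X ≠ S → Y ≠ S →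
      s (persp V l k hl hk S).1 m r = s S.1 m r := by
    intro S hXS hYS
    obtain ⟨j, j1, j2, j3⟩ := persp_spec V l k hl hk S
    refine s_change hE m1 r1 j1 j3 j2 ?_ ?_ ?_ ?_
    · exact not_mem_of_ne (persp V l k hl hk X).2 (persp V l k hl hk S).2 m3 hmk
        (ne_val (inj hXS)).symm
    · exact not_mem_of_ne (persp V l k hl hk Y).2 (persp V l k hl hk S).2 r3 hrk
        (ne_val (inj hYS)).symm
    · exact not_mem_of_ne X.2 S.2 m2 hml (ne_val hXS).symm
    · exact not_mem_of_ne Y.2 S.2 r2 hrl (ne_val hYS).symm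
  rw [key A hXA hYA, key B hXB hYB]

/-- projectivities fixing two points are transitive on the others -/
theorem exists_proj (hE : PropE P L) (l : L) (A B X Y : {x : P // x ∈ l})
    (hXA : X ≠ A) (hXB : X ≠ B) (hYA : Y ≠ A) (hYB : Y ≠ B) :
    ∃ g : Equiv.Perm {x : P // x ∈ l}, CRE l l g ∧ g A = A ∧ g B = B ∧ g X = Y := by
  obtain ⟨k, hBk, hkl⟩ := exists_other_line l B.1
  obtain ⟨V, hVl, hVk⟩ := exists_off_two (P := P) l k
  obtain ⟨b, b1, b2, b3⟩ := persp_spec V l k hVl hVk X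
  obtain ⟨a, a1, a2, a3⟩ := persp_spec V l k hVl hVk A
  set X' := persp V l k hVl hVk X with hX'
  have hal : a ≠ l := fun h => hVl (h ▸ a1)
  have hbl : b ≠ l := fun h => hVl (h ▸ b1)
  have hfB : persp V l k hVl hVk B = ⟨B.1, hBk⟩ := persp_fix V l k hVl hVk B hBk
  have hX'B : X'.1 ≠ B.1 := by
    intro h
    apply hXB
    apply (persp V l k hVl hVk).injective
    rw [hfB]
    exact Subtype.ext h
  have hX'l : X'.1 ∉ l := not_mem_of_ne hBk X'.2 B.2 hkl.symm hX'B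
  have hX'Y : X'.1 ≠ Y.1 := fun h => hX'l (h ▸ Y.2)
  obtain ⟨c, c1, c2⟩ := exists_line_two (L := L) X'.1 Y.1 hX'Y
  have hX'a : X'.1 ∉ a := by
    intro h
    have hab : a = b := line_unique (ne_of_mem_not X'.2 hVk) a1 h b1 b3
    exact (ne_val hXA) (point_unique hal (hab ▸ b2) a2 X.2 A.2)
  have hca : c ≠ a := fun h => hX'a (h ▸ c1)
  obtain ⟨Q, Q1, Q2⟩ := exists_meet (P := P) c a hca
  have hYk : Y.1 ∉ k := not_mem_of_ne B.2 Y.2 hBk hkl (ne_val hYB)
  have hck : c ≠ k := fun h => hYk (h ▸ c2)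
  have hcl : c ≠ l := fun h => hX'l (h ▸ c1)
  have hQk : Q ∉ k := by
    intro h
    have : Q = X'.1 := point_unique hck Q1 c1 h X'.2
    exact hX'a (this ▸ Q2)
  have hQl : Q ∉ l := by
    intro h
    have h1 : Q = Y.1 := point_unique hcl Q1 c2 h Y.2
    have h2 : Q = A.1 := point_unique hal Q2 a2 h A.2
    exact (ne_val hYA) (h1.symm.trans h2)
  refine ⟨(persp V l k hVl hVk).trans (persp Q k l hQk hQl),
    (cre_persp hE _ _ _ _ _).trans' (cre_persp hE _ _ _ _ _), ?_, ?_, ?_⟩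
  · rw [Equiv.trans_apply]
    exact persp_eq Q k l hQk hQl _ _ a Q2 a3 a2
  · rw [Equiv.trans_apply, hfB]
    exact persp_fix Q k l hQk hQl _ B.2
  · rw [Equiv.trans_apply]
    exact persp_eq Q k l hQk hQl _ _ c Q1 c1 c2

end cr

end P994e17
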