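import Pool.Agent.P994e17.Matrix

set_option autoImplicit false

/-! The skew matrix satisfies the hypotheses of the group theorem. -/

namespace P994e17

open Configuration Configuration.ProjectivePlane

section data

variable {P L : Type*} [Membership P L] [ProjectivePlane P L] [Fintype P] [Fintype L]

/-- the points of the line `l` other than `Z` -/
abbrev Aff (l : L) (Z : {x : P // x ∈ l}) : Type _ := {x : {x : P // x ∈ l} // x ≠ Z}

open Classical in
/-- the matrix -/
noncomputable def Mat (l b0 m0 : L) (Z : {x : P // x ∈ l}) (A B : Aff l Z) : ℤ :=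
  if A = B then 0 else (mu l b0 m0 Z A.1 B.1 : ℤ)

variable {l b0 m0 : L} {Z : {x : P // x ∈ l}}

theorem Mat_ne {A B : Aff l Z} (h : A ≠ B) :
    Mat l b0 m0 Z A B = (mu l b0 m0 Z A.1 B.1 : ℤ) := by
  unfold Mat
  rw [if_neg h]

theorem Mat_self (A : Aff l Z) : Mat l b0 m0 Z A A = 0 := by
  unfold Mat
  rw [if_pos rfl]

omit [ProjectivePlane P L] [Fintype P] [Fintype L] in
theorem aff_ne {A B : Aff l Z} (h : A ≠ B) : A.1 ≠ B.1 := fun h' => h (Subtype.ext h')

theorem sum_cr [Fintype {x : P // x ∈ l}] (hE : PropE P L) (hI : PropI P L)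
    (hn : 3 ≤ order P L) (hb : Z.1 ∉ b0) (hm0 : Z.1 ∈ m0) (hm0l : m0 ≠ l)
    {A B : {x : P // x ∈ l}} (hAB : A ≠ B) (hAZ : A ≠ Z) (hBZ : B ≠ Z)
    [DecidableEq {x : P // x ∈ l}] :
    ∑ X : {x : P // x ∈ l}, (if X = A ∨ X = B then (0 : ℤ) else (cr l A B X Z : ℤ)) = 0 := by
  obtain ⟨X, Y, hXA, hXB, hYA, hYB, hXY⟩ := cr_nontriv hE hI hn hb hm0 hm0l hAB
  -- one of the two has `cr = -1` with respect to `Z`
  obtain ⟨X1, h1A, h1B, h1⟩ : ∃ X1 : {x : P // x ∈ l}, X1 ≠ A ∧ X1 ≠ B ∧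
      cr l A B X1 Z = -1 := by
    by_cases hX : cr l A B X Z = 1
    · refine ⟨Y, hYA, hYB, ?_⟩
      have h2 := cr_mul (l := l) hYA hYB hXA hXB hAZ.symm hBZ.symm
      rw [hX, mul_one, cr_swap'] at h2
      rcases Int.units_eq_one_or (cr l A B Y Z) with h3 | h3
      · exact absurd (h2.trans h3) hXY
      · exact h3
    · exact ⟨X, hXA, hXB, (Int.units_eq_one_or _).resolve_left hX⟩
  obtain ⟨g, hg, gA, gB, gZ⟩ := exists_proj hE l A B Z X1 hAZ.symm hBZ.symm h1A h1B
  set F : {x : P // x ∈ l} → ℤ := fun X => if X = A ∨ X = B then (0 : ℤ) else (cr l A B X Z : ℤ)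
    with hF
  have hFg : ∀ X, F (g X) = - F X := by
    intro X
    by_cases hX : X = A ∨ X = B
    · have hX' : g X = A ∨ g X = B := by
        rcases hX with rfl | rfl
        · exact Or.inl gA
        · exact Or.inr gB
      simp only [hF, if_pos hX, if_pos hX', neg_zero]
    · have hX' : ¬ (g X = A ∨ g X = B) := by
        rintro (h | h)
        · exact hX (Or.inl (g.injective (h.trans gA.symm)))
        · exact hX (Or.inr (g.injective (h.trans gB.symm)))
      simp only [hF, if_neg hX, if_neg hX']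
      push Not at hX hX'
      have e1 := hg A B X Z hX.1 hX.2 hAZ.symm hBZ.symm
      rw [gA, gB, gZ] at e1
      have e2 := cr_mul (l := l) hX'.1 hX'.2 h1A h1B hAZ.symm hBZ.symm
      rw [e1, h1] at e2
      rw [← e2]
      simp
  have h3 : ∑ X, F (g X) = ∑ X, F X := Equiv.sum_comp g F
  have h4 : ∑ X, F (g X) = - ∑ X, F X := by
    rw [← Finset.sum_neg_distrib]
    exact Finset.sum_congr rfl (fun X _ => hFg X)
  change ∑ X, F X = 0
  omega

theorem exists_data (hE : PropE P L) (hI : PropI P L) (hEta : PropEta P L)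
    (hn : 3 ≤ order P L) (l : L) (Z : {x : P // x ∈ l}) :
    ∃ M : Aff l Z → Aff l Z → ℤ,
      (∀ a, M a a = 0) ∧ (∀ a b, a ≠ b → M a b = 1 ∨ M a b = -1) ∧ (∀ a b, M b a = - M a b) ∧
      (∀ [Fintype (Aff l Z)], ∀ a b, a ≠ b → ∑ x, M a x * M b x = -1) ∧
      (∀ a b, ∃ g : Equiv.Perm (Aff l Z), (∀ x y, M (g x) (g y) = M x y) ∧ g a = b) ∧
      (∃ t : Equiv.Perm (Aff l Z), ∀ x y, M (t x) (t y) = - M x y) := by
  classical
  obtain ⟨b0, hb⟩ := Nondegenerate.exists_line (L := L) Z.1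
  obtain ⟨m0, hm0, hm0l⟩ := exists_other_line l Z.1
  have mval : ∀ a b : Aff l Z, a ≠ b → Mat l b0 m0 Z a b = 1 ∨ Mat l b0 m0 Z a b = -1 := by
    intro a b h
    rw [Mat_ne h]
    rcases Int.units_eq_one_or (mu l b0 m0 Z a.1 b.1) with h | h
    · left; rw [h]; rfl
    · right; rw [h]; rfl
  -- permutations fixing `Z` act
  have act : ∀ g : Equiv.Perm {x : P // x ∈ l}, CRE l l g → g Z = Z →
      ∃ (e : ℤˣ) (g' : Equiv.Perm (Aff l Z)), (∀ x : Aff l Z, (g' x).1 = g x.1) ∧
        (∀ x y : Aff l Z, Mat l b0 m0 Z (g' x) (g' y) = (e : ℤ) * Mat l b0 m0 Z x y) := by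
    intro g hg gZ
    obtain ⟨e, he⟩ := mu_eps hE hI hb hm0 hm0l g hg gZ
    have hp : ∀ x, g x ≠ Z ↔ x ≠ Z := by
      intro x
      constructor
      · rintro h rfl
        exact h gZ
      · intro h h'
        exact h (g.injective (h'.trans gZ.symm))
    refine ⟨e, g.subtypePerm hp, fun x => rfl, ?_⟩
    intro x y
    by_cases hxy : x = y
    · subst hxy
      rw [Mat_self, Mat_self, mul_zero]
    · have hxy' : g.subtypePerm hp x ≠ g.subtypePerm hp y :=
        fun h => hxy ((g.subtypePerm hp).injective h)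
      rw [Mat_ne hxy, Mat_ne hxy']
      have := he x.1 y.1 (aff_ne hxy) x.2 y.2
      change ((mu l b0 m0 Z (g x.1) (g y.1) : ℤˣ) : ℤ) = _
      rw [this]
      simp
  -- for each point there is an antiautomorphism fixing it
  have anti : ∀ b : Aff l Z, ∃ t : Equiv.Perm (Aff l Z), t b = b ∧
      ∀ x y, Mat l b0 m0 Z (t x) (t y) = - Mat l b0 m0 Z x y := by
    intro b
    obtain ⟨g, hg, gZ, gb, g2, c, hc⟩ := hEta l Z b.1 b.2.symm
    obtain ⟨e, t, ht, hM⟩ := act g hg gZ
    have hcZ : c ≠ Z := by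
      rintro rfl
      exact hc gZ
    have htc : t ⟨c, hcZ⟩ ≠ ⟨c, hcZ⟩ := by
      intro h
      have := congrArg Subtype.val h
      rw [ht] at this
      exact hc this
    have htt : t (t ⟨c, hcZ⟩) = ⟨c, hcZ⟩ := by
      apply Subtype.ext
      rw [ht, ht]
      exact g2 c
    have he : e = -1 := by
      have h1 := hM ⟨c, hcZ⟩ (t ⟨c, hcZ⟩)
      rw [htt, Mat_ne htc, Mat_ne htc.symm] at h1
      have h2 := mu_skew hE hI hb hm0 hm0l (aff_ne htc.symm) hcZ (t ⟨c, hcZ⟩).2
      rcases Int.units_eq_one_or e with he | he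
      · exfalso
        rw [he] at h1
        have h3 : mu l b0 m0 Z (t ⟨c, hcZ⟩).1 c = mu l b0 m0 Z c (t ⟨c, hcZ⟩).1 := by
          apply Units.ext
          rw [h1]
          simp
        change mu l b0 m0 Z c (t ⟨c, hcZ⟩).1 * mu l b0 m0 Z (t ⟨c, hcZ⟩).1 c = -1 at h2
        rw [h3, Int.units_mul_self] at h2
        exact absurd h2 (by decide)
      · exact he
    refine ⟨t, ?_, ?_⟩
    · apply Subtype.ext
      rw [ht]
      exact gb
    · intro x y
      rw [hM, he]
      simp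
  refine ⟨Mat l b0 m0 Z, Mat_self, mval, ?_, ?_, ?_, ?_⟩
  · intro a b
    by_cases hab : a = b
    · subst hab
      rw [Mat_self, neg_zero]
    · rw [Mat_ne hab, Mat_ne (Ne.symm hab)]
      have h2 := mu_skew hE hI hb hm0 hm0l (aff_ne hab) a.2 b.2
      rw [unit_mul_eq_iff] at h2
      rw [h2]
      simp
  · intro _ a b hab
    have : Fintype {x : P // x ∈ l} := Fintype.ofFinite _
    have h1 := sum_cr hE hI hn hb hm0 hm0l (aff_ne hab) a.2 b.2
    have h2 : ∑ X : {x : P // x ∈ l},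
        (if X = a.1 ∨ X = b.1 then (0 : ℤ) else (cr l a.1 b.1 X Z : ℤ)) =
        (if Z = a.1 ∨ Z = b.1 then (0 : ℤ) else (cr l a.1 b.1 Z Z : ℤ)) +
        ∑ X : Aff l Z,
          (if X.1 = a.1 ∨ X.1 = b.1 then (0 : ℤ) else (cr l a.1 b.1 X.1 Z : ℤ)) := by
      rw [Fintype.sum_eq_add_sum_subtype_ne _ Z]
      congr 1
      exact Finset.sum_congr (Finset.ext fun x => by simp) (fun _ _ => rfl)
    rw [h1, if_neg (by
      rintro (h | h)
      · exact a.2 h.symm
      · exact b.2 h.symm), cr_self] at h2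
    have h3 : ∑ x : Aff l Z, Mat l b0 m0 Z a x * Mat l b0 m0 Z b x =
        ∑ X : Aff l Z,
          (if X.1 = a.1 ∨ X.1 = b.1 then (0 : ℤ) else (cr l a.1 b.1 X.1 Z : ℤ)) := by
      apply Finset.sum_congr rfl
      intro x _
      by_cases hxa : x = a
      · subst hxa
        rw [Mat_self, zero_mul, if_pos (Or.inl rfl)]
      by_cases hxb : x = b
      · subst hxb
        rw [Mat_self, mul_zero, if_pos (Or.inr rfl)]
      · rw [if_neg (by
          rintro (h | h)
          · exact aff_ne hxa h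
          · exact aff_ne hxb h), Mat_ne (Ne.symm hxa), Mat_ne (Ne.symm hxb),
          ← mu_row (b0 := b0) hE hm0 hm0l (aff_ne (Ne.symm hxa)) (aff_ne (Ne.symm hxb)) a.2 b.2]
        simp
    rw [h3]
    simp only [Units.val_one] at h2
    omega
  · intro a b
    -- a point different from Z, a, b
    obtain ⟨W, hW⟩ := exists_pts_avoid l ({Z, a.1, b.1} : Finset {x : P // x ∈ l})
      (Finset.card_le_three.trans hn)
    simp only [Finset.mem_insert, Finset.mem_singleton, not_or] at hW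
    obtain ⟨hWZ, hWa, hWb⟩ := hW
    obtain ⟨g, hg, gZ, gW, gA⟩ := exists_proj hE l Z W a.1 b.1 a.2 (Ne.symm hWa) b.2
      (Ne.symm hWb)
    obtain ⟨e, g', hg', hM⟩ := act g hg gZ
    have gab : g' a = b := by
      apply Subtype.ext
      rw [hg']
      exact gA
    rcases Int.units_eq_one_or e with he | he
    · refine ⟨g', ?_, gab⟩
      intro x y
      rw [hM, he]
      simp
    · obtain ⟨t, tb, ht⟩ := anti b
      refine ⟨g'.trans t, ?_, ?_⟩
      · intro x y
        rw [Equiv.trans_apply, Equiv.trans_apply, ht, hM, he]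
        simp
      · rw [Equiv.trans_apply, gab, tb]
  · obtain ⟨W, hW⟩ := exists_pts_avoid l ({Z} : Finset {x : P // x ∈ l}) (by simp; omega)
    simp only [Finset.mem_singleton] at hW
    obtain ⟨t, -, ht⟩ := anti ⟨W, hW⟩
    exact ⟨t, ht⟩

end data

end P994e17
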