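import Mathlib

/-!
Number theory part of module GT of P994e17.
-/

namespace P994e17

open NumberTheorySymbols

/-- `J(-n | 4n-1) = -1`. -/
theorem jacobi_neg_self {n : ℕ} (hn : 0 < n) : J(-(n : ℤ) | 4 * n - 1) = -1 := by
  have hodd : Odd (4 * n - 1) := by
    rw [Nat.odd_iff]; omega
  rw [jacobiSym.neg _ hodd]
  have h1 : ZMod.χ₄ ((4 * n - 1 : ℕ) : ZMod 4) = -1 := by
    apply ZMod.χ₄_nat_three_mod_four
    omega
  have h2 : J((4 : ℤ) * n | 4 * n - 1) = 1 := by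
    have : J((4 : ℤ) * n | 4 * n - 1) = J((1 : ℤ) | 4 * n - 1) := by
      apply jacobiSym.mod_left'
      have e : ((4 * n - 1 : ℕ) : ℤ) = 4 * (n : ℤ) - 1 := by
        push_cast [Nat.cast_sub (show 1 ≤ 4 * n by omega)]; ring
      rw [e]
      have e2 : (4 : ℤ) * n ≡ 1 [ZMOD (4 * (n : ℤ) - 1)] :=
        Int.modEq_iff_dvd.mpr ⟨-1, by ring⟩
      exact e2
    rw [this, jacobiSym.one_left]
  have h3 : J((4 : ℤ) | 4 * n - 1) = 1 := by
    have : (4 : ℤ) = 2 ^ 2 := by norm_num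
    rw [this]
    apply jacobiSym.sq_one'
    rw [Int.gcd_eq_natAbs]
    have h4 : Nat.Coprime 2 (4 * n - 1) := by
      rw [Nat.coprime_two_left]; exact hodd
    simpa using h4
  rw [jacobiSym.mul_left, h3, one_mul] at h2
  rw [h2, h1]; norm_num

/-- If `-n` is a square modulo all primes `l ≡ 1 mod r` for all primes `r ∣ n`, then `n` has at
most one prime divisor. -/
theorem unique_prime (n : ℕ) (hn : Odd n)
    (hsq : ∀ r : ℕ, r.Prime → r ∣ n → ∀ l : ℕ, l.Prime → r ∣ l - 1 → IsSquare (-(n : ZMod l)))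
    (p q : ℕ) (hp : p.Prime) (hq : q.Prime) (hpn : p ∣ n) (hqn : q ∣ n) : p = q := by
  by_contra hpq
  have hn0 : 0 < n := hn.pos
  have h4n : 4 * n ≠ 0 := by omega
  have : NeZero (4 * n) := ⟨h4n⟩
  -- factor
  obtain ⟨a, b, hb, hab⟩ : ∃ a b, ¬ p ∣ b ∧ 4 * n = p ^ a * b :=
    Nat.exists_eq_pow_mul_and_not_dvd h4n p hp.ne_one
  have ha0 : a ≠ 0 := by
    rintro rfl
    rw [pow_zero, one_mul] at hab
    exact hb (hab ▸ Dvd.dvd.mul_left hpn 4)
  have hpP : p ∣ p ^ a := dvd_pow_self p ha0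
  have hqb : q ∣ b := by
    have h1 : q ∣ p ^ a * b := hab ▸ Dvd.dvd.mul_left hqn 4
    rcases hq.dvd_mul.mp h1 with h | h
    · exfalso
      have := hq.dvd_of_dvd_pow h
      exact hpq ((Nat.prime_dvd_prime_iff_eq hq hp).mp this).symm
    · exact h
  have hb0 : 0 < b := by
    rcases Nat.eq_zero_or_pos b with h | h
    · exfalso; exact hb (h ▸ dvd_zero p)
    · exact h
  have hP0 : 0 < p ^ a := pow_pos hp.pos a
  have hcop : Nat.Coprime (p ^ a) b :=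
    Nat.Coprime.pow_left a ((Nat.Prime.coprime_iff_not_dvd hp).mpr hb)
  obtain ⟨u, hu1, hu2⟩ := Nat.chineseRemainder hcop 1 (b - 1)
  obtain ⟨v, hv1, hv2⟩ := Nat.chineseRemainder hcop (p ^ a - 1) 1
  -- u v + 1 ≡ 0 mod 4n
  have huv : 4 * n ∣ u * v + 1 := by
    rw [hab]
    apply Nat.Coprime.mul_dvd_of_dvd_of_dvd hcop
    · have h1 : u * v + 1 ≡ 1 * (p ^ a - 1) + 1 [MOD p ^ a] := (hu1.mul hv1).add_right 1
      rw [one_mul, Nat.sub_add_cancel hP0] at h1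
      exact (Nat.modEq_zero_iff_dvd).mp (h1.trans (by simp [Nat.ModEq]))
    · have h1 : u * v + 1 ≡ (b - 1) * 1 + 1 [MOD b] := (hu2.mul hv2).add_right 1
      rw [mul_one, Nat.sub_add_cancel hb0] at h1
      exact (Nat.modEq_zero_iff_dvd).mp (h1.trans (by simp [Nat.ModEq]))
  have huv' : (u : ZMod (4 * n)) * (v : ZMod (4 * n)) = -1 := by
    have h1 : ((u * v + 1 : ℕ) : ZMod (4 * n)) = 0 := (ZMod.natCast_eq_zero_iff _ _).mpr huv
    push_cast at h1
    exact eq_neg_of_add_eq_zero_left h1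
  have hU : IsUnit (u : ZMod (4 * n)) := by
    apply IsUnit.of_mul_eq_one (-(v : ZMod (4 * n)))
    linear_combination -huv'
  have hV : IsUnit (v : ZMod (4 * n)) := by
    apply IsUnit.of_mul_eq_one (-(u : ZMod (4 * n)))
    linear_combination -huv'
  obtain ⟨l1, hl1n, hl1, hl1u⟩ := Nat.forall_exists_prime_gt_and_eq_mod hU n
  obtain ⟨l2, hl2n, hl2, hl2v⟩ := Nat.forall_exists_prime_gt_and_eq_mod hV n
  have hl1' : l1 ≡ u [MOD 4 * n] := (ZMod.natCast_eq_natCast_iff _ _ _).mp hl1u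
  have hl2' : l2 ≡ v [MOD 4 * n] := (ZMod.natCast_eq_natCast_iff _ _ _).mp hl2v
  have hpl1 : p ∣ l1 - 1 := by
    have h1 : l1 ≡ 1 [MOD p] :=
      (hl1'.of_dvd (Dvd.dvd.mul_left hpn 4)).trans (hu1.of_dvd hpP)
    exact (Nat.modEq_iff_dvd' hl1.one_lt.le).mp h1.symm
  have hql2 : q ∣ l2 - 1 := by
    have h1 : l2 ≡ 1 [MOD q] :=
      (hl2'.of_dvd (Dvd.dvd.mul_left hqn 4)).trans (hv2.of_dvd hqb)
    exact (Nat.modEq_iff_dvd' hl2.one_lt.le).mp h1.symm
  have key : ∀ l : ℕ, l.Prime → n < l → IsSquare (-(n : ZMod l)) → J(-(n : ℤ) | l) = 1 := by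
    intro l hl hnl hs
    have : Fact l.Prime := ⟨hl⟩
    rw [← jacobiSym.legendreSym.to_jacobiSym]
    have hne : ((-(n : ℤ) : ℤ) : ZMod l) ≠ 0 := by
      push_cast
      rw [neg_ne_zero]
      intro h
      rw [ZMod.natCast_eq_zero_iff] at h
      exact absurd (Nat.le_of_dvd hn0 h) (by omega)
    rw [legendreSym.eq_one_iff l hne]
    push_cast
    exact hs
  have hJ1 := key l1 hl1 hl1n (hsq p hp hpn l1 hl1 hpl1)
  have hJ2 := key l2 hl2 hl2n (hsq q hq hqn l2 hl2 hql2)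
  have hJ : J(-(n : ℤ) | l1 * l2) = 1 := by
    rw [jacobiSym.mul_right' _ hl1.ne_zero hl2.ne_zero, hJ1, hJ2, one_mul]
  have hdvd : 4 * n ∣ l1 * l2 + 1 := by
    have h1 : l1 * l2 + 1 ≡ u * v + 1 [MOD 4 * n] := (hl1'.mul hl2').add_right 1
    exact (Nat.modEq_zero_iff_dvd).mp (h1.trans ((Nat.modEq_zero_iff_dvd).mpr huv))
  obtain ⟨k, hk⟩ := hdvd
  have hodd : Odd (l1 * l2) := by
    rw [Nat.odd_iff]
    have : 4 * n * k = 4 * (n * k) := by ring
    omega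
  rw [jacobiSym.mod_right _ hodd] at hJ
  have hmod : (l1 * l2) % (4 * (-(n : ℤ)).natAbs) = 4 * n - 1 := by
    rw [Int.natAbs_neg, Int.natAbs_natCast]
    have hk0 : k ≠ 0 := by
      rintro rfl
      rw [mul_zero] at hk
      omega
    obtain ⟨k', rfl⟩ := Nat.exists_eq_succ_of_ne_zero hk0
    have e : l1 * l2 = (4 * n - 1) + (4 * n) * k' := by
      have : 4 * n * (k' + 1) = 4 * n * k' + 4 * n := by ring
      rw [Nat.succ_eq_add_one, this] at hk
      omega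
    rw [e, Nat.add_mul_mod_self_left, Nat.mod_eq_of_lt (by omega)]
  rw [hmod, jacobi_neg_self hn0] at hJ
  norm_num at hJ

end P994e17
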