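import Pool.Agent.P994e17.GT2
import Pool.Agent.P994e17.GT3

/-!
Module GT of P994e17: a skew conference-type matrix with transitive automorphism group and an
anti-automorphism has prime power order.
-/

namespace P994e17

open Finset

section

variable {L : Type*} [Fintype L] [DecidableEq L] (M : L → L → ℤ)

/-- automorphisms and anti-automorphisms of `M` -/
def bigG : Subgroup (Equiv.Perm L) where
  carrier := {g | (∀ x y, M (g x) (g y) = M x y) ∨ (∀ x y, M (g x) (g y) = - M x y)}
  mul_mem' := by
    rintro g h (hg | hg) (hh | hh)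
    · left; intro x y; rw [Equiv.Perm.mul_apply, Equiv.Perm.mul_apply, hg, hh]
    · right; intro x y; rw [Equiv.Perm.mul_apply, Equiv.Perm.mul_apply, hg, hh]
    · right; intro x y; rw [Equiv.Perm.mul_apply, Equiv.Perm.mul_apply, hg, hh]
    · left; intro x y; rw [Equiv.Perm.mul_apply, Equiv.Perm.mul_apply, hg, hh, neg_neg]
  one_mem' := by left; intro x y; rfl
  inv_mem' := by
    rintro g (hg | hg)
    · left; intro x y
      have := hg (g⁻¹ x) (g⁻¹ y)
      have e1 : g (g⁻¹ x) = x := g.apply_symm_apply x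
      have e2 : g (g⁻¹ y) = y := g.apply_symm_apply y
      rw [e1, e2] at this
      exact this.symm
    · right; intro x y
      have := hg (g⁻¹ x) (g⁻¹ y)
      have e1 : g (g⁻¹ x) = x := g.apply_symm_apply x
      have e2 : g (g⁻¹ y) = y := g.apply_symm_apply y
      rw [e1, e2] at this
      rw [this, neg_neg]

/-- automorphisms of `M`, as a subgroup of `bigG M` -/
def autN : Subgroup (bigG M) where
  carrier := {g | ∀ x y, M (g.1 x) (g.1 y) = M x y}
  mul_mem' := by
    intro g h hg hh x y
    change M (g.1 (h.1 x)) (g.1 (h.1 y)) = M x y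
    rw [hg, hh]
  one_mem' := by intro x y; rfl
  inv_mem' := by
    intro g hg x y
    change M (g.1⁻¹ x) (g.1⁻¹ y) = M x y
    have := hg (g.1⁻¹ x) (g.1⁻¹ y)
    have e1 : g.1 (g.1⁻¹ x) = x := g.1.apply_symm_apply x
    have e2 : g.1 (g.1⁻¹ y) = y := g.1.apply_symm_apply y
    rw [e1, e2] at this
    exact this.symm

omit [Fintype L] [DecidableEq L] in
theorem mem_autN (g : bigG M) : g ∈ autN M ↔ ∀ x y, M (g.1 x) (g.1 y) = M x y := Iff.rfl

end

theorem group_theorem {L : Type*} [Fintype L] [DecidableEq L] [Nonempty L] (M : L → L → ℤ)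
    (hdiag : ∀ a, M a a = 0)
    (hpm : ∀ a b, a ≠ b → M a b = 1 ∨ M a b = -1)
    (hskew : ∀ a b, M b a = - M a b)
    (horth : ∀ a b, a ≠ b → ∑ x, M a x * M b x = -1)
    (htrans : ∀ a b, ∃ g : Equiv.Perm L, (∀ x y, M (g x) (g y) = M x y) ∧ g a = b)
    (t : Equiv.Perm L) (ht : ∀ x y, M (t x) (t y) = - M x y)
    (p q : ℕ) (hp : p.Prime) (hq : q.Prime) (hpn : p ∣ Fintype.card L)
    (hqn : q ∣ Fintype.card L) : p = q := by
  classical
  have hpos : 0 < Fintype.card L := Fintype.card_pos
  have hge : 2 ≤ Fintype.card L := hp.two_le.trans (Nat.le_of_dvd hpos hpn)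
  obtain ⟨a0, b0, hab0⟩ := Fintype.one_lt_card_iff.mp (by omega : 1 < Fintype.card L)
  have hM0 : ∀ a b, a ≠ b → M a b ≠ 0 := by
    intro a b hab h
    rcases hpm a b hab with h1 | h1 <;> omega
  have hsqone : ∀ a b, M a b * M a b = 1 - (if a = b then 1 else 0) := by
    intro a b
    by_cases h : a = b
    · subst h; rw [hdiag]; simp
    · rw [if_neg h]
      rcases hpm a b h with h1 | h1 <;> rw [h1] <;> norm_num
  -- parity of n
  have hodd : Odd (Fintype.card L) := by
    have h2 : ∀ x, (2 : ℤ) ∣ M a0 x * M b0 x - (1 - (if a0 = x then 1 else 0) -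
        (if b0 = x then 1 else 0)) := by
      intro x
      by_cases h : a0 = x
      · subst h
        rw [hdiag, if_pos rfl, if_neg (Ne.symm hab0)]; norm_num
      · by_cases h' : b0 = x
        · subst h'
          rw [hdiag, if_pos rfl, if_neg h]; norm_num
        · rw [if_neg h, if_neg h']
          rcases hpm a0 x h with h1 | h1 <;> rcases hpm b0 x h' with h3 | h3 <;>
            rw [h1, h3] <;> norm_num
    have h3 := Finset.dvd_sum (fun x (_ : x ∈ (Finset.univ : Finset L)) => h2 x)
    rw [Finset.sum_sub_distrib, horth a0 b0 hab0, Finset.sum_sub_distrib,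
      Finset.sum_sub_distrib, Finset.sum_ite_eq, Finset.sum_ite_eq, Finset.sum_const,
      Finset.card_univ, if_pos (Finset.mem_univ _), if_pos (Finset.mem_univ _)] at h3
    rw [Nat.odd_iff]
    rw [nsmul_eq_mul, mul_one] at h3
    omega
  have hsq : ∀ a c, ∑ b, M a b * M b c = 1 - (if a = c then (Fintype.card L : ℤ) else 0) := by
    intro a c
    have h1 : ∑ b, M a b * M b c = - ∑ b, M a b * M c b := by
      rw [← Finset.sum_neg_distrib]
      apply Finset.sum_congr rfl
      intro b _
      rw [hskew c b]; ring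
    rw [h1]
    by_cases h : a = c
    · subst h
      rw [if_pos rfl, Finset.sum_congr rfl (fun b _ => hsqone a b), Finset.sum_sub_distrib,
        Finset.sum_ite_eq, if_pos (Finset.mem_univ _), Finset.sum_const, Finset.card_univ,
        nsmul_eq_mul]
      ring
    · rw [if_neg h, horth a c h]; norm_num
  -- group facts
  let G := bigG M
  let N := autN M
  have htG : t ∈ bigG M := Or.inr ht
  have hanti : ∀ g : bigG M, g ∉ autN M → ∀ x y, M (g.1 x) (g.1 y) = - M x y := by
    intro g hg
    rcases g.2 with h | h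
    · exact absurd h hg
    · exact h
  have htN : (⟨t, htG⟩ : bigG M) ∉ autN M := by
    intro h
    have h1 := h a0 b0
    have h2 := ht a0 b0
    change M (t a0) (t b0) = M a0 b0 at h1
    rw [h2] at h1
    exact hM0 a0 b0 hab0 (by omega)
  have hidx : (autN M).index = 2 := by
    rw [Subgroup.index_eq_two_iff]
    refine ⟨⟨t, htG⟩, fun b => ?_⟩
    by_cases hb : b ∈ autN M
    · right
      refine ⟨hb, ?_⟩
      intro h
      exact htN ((Subgroup.mul_mem_cancel_left _ hb).mp h)
    · left
      refine ⟨?_, hb⟩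
      intro x y
      change M (b.1 (t x)) (b.1 (t y)) = M x y
      rw [hanti b hb, ht, neg_neg]
  have hNodd : Odd (Nat.card (autN M)) := by
    rw [← Nat.not_even_iff_odd]
    intro hev
    have h2 : 2 ∣ Nat.card (autN M) := hev.two_dvd
    have : Fact (Nat.Prime 2) := ⟨Nat.prime_two⟩
    obtain ⟨g, hg⟩ := exists_prime_orderOf_dvd_card' 2 h2
    have hg2 : g * g = 1 := by
      rw [← pow_two, ← hg]; exact pow_orderOf_eq_one g
    have hg1 : g ≠ 1 := by
      rintro rfl
      rw [orderOf_one] at hg
      omega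
    have hgg : ∀ x, g.1.1 (g.1.1 x) = x := by
      intro x
      have := congrArg (fun z : autN M => z.1.1 x) hg2
      exact this
    apply hg1
    apply Subtype.ext
    apply Subtype.ext
    apply Equiv.ext
    intro x
    change g.1.1 x = x
    by_contra hx
    have h1 := g.2 x (g.1.1 x)
    change M (g.1.1 x) (g.1.1 (g.1.1 x)) = M x (g.1.1 x) at h1
    rw [hgg x, hskew x (g.1.1 x)] at h1
    exact hM0 x (g.1.1 x) (Ne.symm hx) (by omega)
  have hLodd : Odd (Nat.card L) := by rw [Nat.card_eq_fintype_card]; exact hodd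
  have htr : ∀ a b : L, ∃ g : bigG M, g ∈ autN M ∧ g • a = b := by
    intro a b
    obtain ⟨g, hg, hgab⟩ := htrans a b
    exact ⟨⟨g, Or.inl hg⟩, hg, hgab⟩
  have hfix : ∀ g : bigG M, g ∉ autN M → ∀ a b : L, g • a = a → g • b = b → a = b := by
    intro g hg a b ha hb
    by_contra hab
    have h1 := hanti g hg a b
    have ha' : g.1 a = a := ha
    have hb' : g.1 b = b := hb
    rw [ha', hb'] at h1
    exact hM0 a b hab (by omega)
  -- squares
  have hmain : ∀ r : ℕ, r.Prime → r ∣ Fintype.card L → ∀ l : ℕ, l.Prime → r ∣ l - 1 →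
      IsSquare (-(Fintype.card L : ZMod l)) := by
    intro r hr hrn l hl hrl
    have : Fact r.Prime := ⟨hr⟩
    have : Fact l.Prime := ⟨hl⟩
    have hcu : r ∣ Nat.card (ZMod l)ˣ := by
      rw [Nat.card_eq_fintype_card, ZMod.card_units]; exact hrl
    obtain ⟨ζ, hζ⟩ := exists_prime_orderOf_dvd_card' r hcu
    obtain ⟨Q, hQN, ψ, hψ, hQodd, hX⟩ := exists_character (G := bigG M) (L := L) (autN M) hidx
      hNodd hLodd (fun a b => by
        obtain ⟨g, hg, h⟩ := htr a b
        exact ⟨g, hg, h⟩) hfix r (by rw [Nat.card_eq_fintype_card]; exact hrn) ζ hζ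
    have h1 : Odd (Module.finrank (ZMod l) (semiInv L ψ)) := by
      rw [finrank_semiInv]
      exact odd_goodOrb ψ hQodd hX
    exact lemmaP M hsq ψ hψ (fun x a b => hQN x.2 a b) h1
  exact unique_prime (Fintype.card L) hodd hmain p q hp hq hpn hqn

end P994e17
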