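import Pool.Agent.P994e17.Three
import Pool.Agent.P994e17.GT

set_option autoImplicit false

/-! Orders of planes with (E) and (I). -/

namespace P994e17

open Configuration Configuration.ProjectivePlane

theorem card_aff {P L : Type*} [Membership P L] [ProjectivePlane P L] [Fintype P] [Fintype L]
    (l : L) (Z : {x : P // x ∈ l}) [Fintype (Aff l Z)] :
    Fintype.card (Aff l Z) = order P L := by
  classical
  have : Fintype {x : P // x ∈ l} := Fintype.ofFinite _
  have h8 : Fintype.card {x : P // x ∈ l} = order P L + 1 := by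
    rw [← Nat.card_eq_fintype_card, card_pts]
  have h9 : Fintype.card (Aff l Z) = Fintype.card {x : P // x ∈ l} - 1 := by
    rw [← Set.card_ne_eq Z]
    exact Fintype.card_congr (Equiv.refl _)
  omega

/-- The order of a finite projective plane with (E) and (I) is a power of `p` if it is congruent
to 3 modulo 4. -/
theorem pow_of_geo {P L : Type*} [Membership P L] [ProjectivePlane P L] [Fintype P] [Fintype L]
    {p : ℕ} (hp : p.Prime) (hp2 : p ≠ 2) (hE : GeoE P L p) (hI : GeoI P L)
    (hn : order P L % 4 = 3) : ∃ k : ℕ, order P L = p ^ k := by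
  classical
  have hn3 : 3 ≤ order P L := by omega
  have pE : PropE P L := propE_of_geoE (hp.odd_of_ne_two hp2) hE
  have pI : PropI P L := propI_of_geoI hn hI
  have pEta : PropEta P L := propEta_of_geoI pE hn3 hI
  have hdvd := dvd_order_of_geoE hp hE
  obtain ⟨l⟩ : Nonempty L := by
    obtain ⟨_, _, _, l, _⟩ := @ProjectivePlane.exists_config P L _ _
    exact ⟨l⟩
  obtain ⟨Z, hZ⟩ : ∃ V : P, V ∈ l := by
    obtain ⟨V, hV, -⟩ := exists_pt_avoid (P := P) l (∅ : Finset P) (by simp)
    exact ⟨V, hV⟩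
  obtain ⟨M, h1, h2, h3, h4, h5, t, ht⟩ := exists_data pE pI pEta hn3 l ⟨Z, hZ⟩
  have : Fintype (Aff l ⟨Z, hZ⟩) := Fintype.ofFinite _
  have hcard := card_aff (P := P) l ⟨Z, hZ⟩
  have : Nonempty (Aff l ⟨Z, hZ⟩) := by
    rw [← Fintype.card_pos_iff, hcard]
    omega
  refine ⟨_, Nat.eq_prime_pow_of_unique_prime_dvd (p := p) (by omega) ?_⟩
  intro q hq hqn
  exact group_theorem M h1 h2 h3 h4 h5 t ht q p hq hp (by rw [hcard]; exact hqn)
    (by rw [hcard]; exact hdvd)

end P994e17
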