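import Mathlib

/-!
Linear algebra part of the group theorem (module GT of P994e17):
semi-invariant functions of a finite group acting on a finite set, parity of the dimension,
and the determinant argument.
-/

namespace P994e17

open Finset

section SemiInv

variable {L : Type*} {K : Type*} [Field K] {Q : Type*} [Group Q] [MulAction Q L]

/-- The space of functions with `f (x • a) = ψ x * f a`. -/
def semiInv (L : Type*) [MulAction Q L] (ψ : Q →* Kˣ) : Submodule K (L → K) where
  carrier := {f | ∀ (x : Q) (a : L), f (x • a) = (ψ x : K) * f a}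
  add_mem' := by
    intro f g hf hg x a
    simp only [Pi.add_apply, hf x a, hg x a]; ring
  zero_mem' := by intro x a; simp
  smul_mem' := by
    intro c f hf x a
    simp only [Pi.smul_apply, smul_eq_mul, hf x a]; ring

theorem mem_semiInv {ψ : Q →* Kˣ} {f : L → K} :
    f ∈ semiInv L ψ ↔ ∀ (x : Q) (a : L), f (x • a) = (ψ x : K) * f a := Iff.rfl

/-- Points whose stabilizer lies in the kernel of `ψ`. -/
def good (ψ : Q →* Kˣ) (a : L) : Prop := ∀ x : Q, x • a = a → ψ x = 1

theorem good_smul {ψ : Q →* Kˣ} {a : L} (h : good ψ a) (x : Q) : good ψ (x • a) := by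
  intro y hy
  have h1 : (x⁻¹ * y * x) • a = a := by
    rw [mul_smul, mul_smul, hy, inv_smul_smul]
  have h2 := h _ h1
  rw [map_mul, map_mul, map_inv] at h2
  have h3 : (ψ x)⁻¹ * ψ y * ψ x = ψ y := by rw [mul_comm (ψ x)⁻¹, inv_mul_cancel_right]
  rwa [h3] at h2

theorem good_smul_iff {ψ : Q →* Kˣ} {a : L} (x : Q) : good ψ (x • a) ↔ good ψ a := by
  constructor
  · intro h
    have := good_smul h x⁻¹
    rwa [inv_smul_smul] at this
  · intro h; exact good_smul h x

/-- representative of the orbit -/
noncomputable def rep (Q : Type*) [Group Q] [MulAction Q L] (a : L) : L :=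
  (Quotient.mk (MulAction.orbitRel Q L) a).out

theorem rep_rel (a : L) : ∃ c : Q, c • rep Q a = a := by
  have h : (MulAction.orbitRel Q L).r (rep Q a) a := Quotient.exact (Quotient.out_eq _)
  have h2 : rep Q a ∈ MulAction.orbit Q a := h
  obtain ⟨c, hc⟩ := h2
  refine ⟨c⁻¹, ?_⟩
  have hc' : c • a = rep Q a := hc
  rw [← hc', inv_smul_smul]

theorem rep_smul (x : Q) (a : L) : rep Q (x • a) = rep Q a := by
  unfold rep
  congr 1
  apply Quotient.sound
  exact ⟨x, rfl⟩

theorem rep_out (o : MulAction.orbitRel.Quotient Q L) : rep Q o.out = o.out := by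
  unfold rep
  congr 1
  exact Quotient.out_eq o

/-- good orbits -/
def GoodOrb (L : Type*) [MulAction Q L] (ψ : Q →* Kˣ) : Type _ :=
  {o : MulAction.orbitRel.Quotient Q L // good ψ o.out}

/-- evaluation at the representatives of the good orbits -/
noncomputable def evalGood (L : Type*) [MulAction Q L] (ψ : Q →* Kˣ) :
    semiInv L ψ →ₗ[K] (GoodOrb L ψ → K) where
  toFun f := fun o => f.1 o.1.out
  map_add' := by intro f g; rfl
  map_smul' := by intro c f; rfl

theorem evalGood_bijective (ψ : Q →* Kˣ) : Function.Bijective (evalGood L ψ) := by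
  classical
  constructor
  · rw [injective_iff_map_eq_zero]
    intro f hf
    apply Subtype.ext
    funext a
    obtain ⟨c, hc⟩ := rep_rel (Q := Q) a
    have h1 : f.1 a = (ψ c : K) * f.1 (rep Q a) := by
      conv_lhs => rw [← hc]
      exact f.2 c _
    by_cases hg : good ψ (rep Q a)
    · have h2 : f.1 (rep Q a) = 0 := by
        have := congrFun hf ⟨Quotient.mk (MulAction.orbitRel Q L) a, hg⟩
        exact this
      rw [h1, h2, mul_zero]; rfl
    · unfold good at hg
      push Not at hg
      obtain ⟨x, hx, hx1⟩ := hg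
      have h3 := f.2 x (rep Q a)
      rw [hx] at h3
      have h4 : ((ψ x : K) - 1) * f.1 (rep Q a) = 0 := by rw [sub_mul, one_mul, ← h3, sub_self]
      have h5 : f.1 (rep Q a) = 0 := by
        rcases mul_eq_zero.mp h4 with h | h
        · exfalso; apply hx1; apply Units.ext; rw [Units.val_one]; exact sub_eq_zero.mp h
        · exact h
      rw [h1, h5, mul_zero]; rfl
  · intro g
    choose c hc using fun a : L => rep_rel (Q := Q) a
    let f : L → K := fun a => if h : good ψ (rep Q a) then
      (ψ (c a) : K) * g ⟨Quotient.mk (MulAction.orbitRel Q L) a, h⟩ else 0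
    have hf : f ∈ semiInv L ψ := by
      intro x a
      have hr : rep Q (x • a) = rep Q a := rep_smul x a
      have hq : Quotient.mk (MulAction.orbitRel Q L) (x • a) =
          Quotient.mk (MulAction.orbitRel Q L) a := Quotient.sound ⟨x, rfl⟩
      by_cases hg : good ψ (rep Q a)
      · have hg' : good ψ (rep Q (x • a)) := by rw [hr]; exact hg
        simp only [f, dif_pos hg, dif_pos hg']
        have e1 : g ⟨Quotient.mk (MulAction.orbitRel Q L) (x • a), hg'⟩ =
            g ⟨Quotient.mk (MulAction.orbitRel Q L) a, hg⟩ := by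
          congr 1
          exact Subtype.ext hq
        rw [e1]
        have h1 : ((c (x • a))⁻¹ * (x * c a)) • rep Q a = rep Q a := by
          rw [mul_smul, mul_smul, hc a, inv_smul_eq_iff]
          have := hc (x • a)
          rw [hr] at this
          exact this.symm
        have h2 := hg _ h1
        rw [map_mul, map_inv, inv_mul_eq_one, map_mul] at h2
        rw [h2, Units.val_mul]; ring
      · have hg' : ¬ good ψ (rep Q (x • a)) := by rw [hr]; exact hg
        simp only [f, dif_neg hg, dif_neg hg', mul_zero]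
    refine ⟨⟨f, hf⟩, ?_⟩
    funext o
    change f o.1.out = g o
    have hr : rep Q o.1.out = o.1.out := rep_out o.1
    have hg : good ψ (rep Q o.1.out) := by rw [hr]; exact o.2
    simp only [f, dif_pos hg]
    have e1 : g ⟨Quotient.mk (MulAction.orbitRel Q L) o.1.out, hg⟩ = g o := by
      congr 1
      exact Subtype.ext (Quotient.out_eq o.1)
    rw [e1]
    have h1 : c o.1.out • o.1.out = o.1.out := by
      have := hc o.1.out
      rwa [hr] at this
    have h2 := o.2 _ h1
    rw [h2, Units.val_one, one_mul]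

theorem finrank_semiInv [Finite L] (ψ : Q →* Kˣ) :
    Module.finrank K (semiInv L ψ) = Nat.card (GoodOrb L ψ) := by
  classical
  have := Fintype.ofFinite L
  have : Finite (MulAction.orbitRel.Quotient Q L) := Quotient.finite _
  have : Finite (GoodOrb L ψ) := Subtype.finite
  have := Fintype.ofFinite (GoodOrb L ψ)
  rw [(LinearEquiv.ofBijective (evalGood L ψ) (evalGood_bijective ψ)).finrank_eq,
    Module.finrank_fintype_fun_eq_card, Nat.card_eq_fintype_card]

theorem odd_goodOrb [Finite L] [Finite Q] (ψ : Q →* Kˣ) (hQ : Odd (Nat.card Q))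
    (hX : Odd (Nat.card {a : L // good ψ a})) : Odd (Nat.card (GoodOrb L ψ)) := by
  classical
  have := Fintype.ofFinite L
  have := Fintype.ofFinite Q
  have : Finite (MulAction.orbitRel.Quotient Q L) := Quotient.finite _
  have := Fintype.ofFinite (MulAction.orbitRel.Quotient Q L)
  let s : Finset L := univ.filter (good ψ)
  let t : Finset (MulAction.orbitRel.Quotient Q L) := univ.filter (fun o => good ψ o.out)
  let φ : L → MulAction.orbitRel.Quotient Q L := fun a => Quotient.mk (MulAction.orbitRel Q L) a
  have hout : ∀ a : L, ∃ c : Q, c • (φ a).out = a := fun a => rep_rel a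
  have hmap : ∀ a ∈ s, φ a ∈ t := by
    intro a ha
    simp only [s, t, mem_filter, mem_univ, true_and] at ha ⊢
    obtain ⟨c, hc⟩ := hout a
    rw [← hc] at ha
    exact (good_smul_iff c).mp ha
  have hs : s.card = ∑ o ∈ t, #{a ∈ s | φ a = o} := Finset.card_eq_sum_card_fiberwise hmap
  have hfib : ∀ o ∈ t, Odd (#{a ∈ s | φ a = o}) := by
    intro o ho
    simp only [t, mem_filter, mem_univ, true_and] at ho
    have e : {a ∈ s | φ a = o} = (MulAction.orbit Q o.out).toFinset := by
      ext a
      simp only [s, mem_filter, mem_univ, true_and, Set.mem_toFinset]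
      constructor
      · rintro ⟨h1, h2⟩
        obtain ⟨c, hc⟩ := hout a
        rw [h2] at hc
        exact ⟨c, hc⟩
      · rintro ⟨c, hc⟩
        have hc' : c • o.out = a := hc
        refine ⟨?_, ?_⟩
        · rw [← hc']; exact good_smul ho c
        · rw [← hc', ← Quotient.out_eq o]
          apply Quotient.sound
          refine ⟨c, ?_⟩
          simp only [Quotient.out_eq]
    rw [e, Set.toFinset_card]
    have h1 := MulAction.card_orbit_mul_card_stabilizer_eq_card_group Q (o.out : L)
    rw [Nat.card_eq_fintype_card, ← h1] at hQ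
    exact (Nat.odd_mul.mp hQ).1
  have hcX : Nat.card {a : L // good ψ a} = s.card := by
    rw [Nat.card_eq_fintype_card, Fintype.card_subtype]
  have hcO : Nat.card (GoodOrb L ψ) = t.card := by
    unfold GoodOrb
    rw [Nat.card_eq_fintype_card, Fintype.card_subtype]
  rw [hcX, hs, Finset.odd_sum_iff_odd_card_odd] at hX
  rw [hcO]
  have : {o ∈ t | Odd (#{a ∈ s | φ a = o})} = t := Finset.filter_true_of_mem hfib
  rwa [this] at hX

end SemiInv

section Det

variable {L : Type*} [Fintype L] [DecidableEq L] {K : Type*} [Field K] {Q : Type*} [Group Q]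
  [MulAction Q L]

/-- multiplication by the integer matrix `M` -/
def mulM (K : Type*) [Field K] (M : L → L → ℤ) : (L → K) →ₗ[K] (L → K) where
  toFun f := fun a => ∑ b, (M a b : K) * f b
  map_add' := by
    intro f g; funext a
    simp only [Pi.add_apply, mul_add, Finset.sum_add_distrib]
  map_smul' := by
    intro c f; funext a
    simp only [Pi.smul_apply, smul_eq_mul, RingHom.id_apply, Finset.mul_sum]
    apply Finset.sum_congr rfl
    intro b _; ring

omit [DecidableEq L] in
theorem mulM_mem (M : L → L → ℤ) (ψ : Q →* Kˣ) (hinv : ∀ (x : Q) a b, M (x • a) (x • b) = M a b)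
    (f : L → K) (hf : f ∈ semiInv L ψ) : mulM K M f ∈ semiInv L ψ := by
  intro x a
  change ∑ b, (M (x • a) b : K) * f b = (ψ x : K) * ∑ b, (M a b : K) * f b
  rw [← Equiv.sum_comp (MulAction.toPerm x), Finset.mul_sum]
  apply Finset.sum_congr rfl
  intro b _
  have h1 : (MulAction.toPerm x) b = x • b := rfl
  rw [h1, hinv, hf x b]; ring

omit [DecidableEq L] in
theorem sum_semiInv (ψ : Q →* Kˣ) (hψ : ∃ x, ψ x ≠ 1) (f : L → K) (hf : f ∈ semiInv L ψ) :
    ∑ a, f a = 0 := by
  obtain ⟨x, hx⟩ := hψ
  have h1 : ∑ a, f a = (ψ x : K) * ∑ a, f a := by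
    conv_lhs => rw [← Equiv.sum_comp (MulAction.toPerm x)]
    rw [Finset.mul_sum]
    apply Finset.sum_congr rfl
    intro b _
    exact hf x b
  have h4 : ((ψ x : K) - 1) * ∑ a, f a = 0 := by rw [sub_mul, one_mul, ← h1, sub_self]
  rcases mul_eq_zero.mp h4 with h | h
  · exfalso; apply hx; apply Units.ext; rw [Units.val_one]; exact sub_eq_zero.mp h
  · exact h

/-- Lemma P. -/
theorem lemmaP (M : L → L → ℤ)
    (hsq : ∀ a c, ∑ b, M a b * M b c = 1 - (if a = c then (Fintype.card L : ℤ) else 0))
    (ψ : Q →* Kˣ) (hψ : ∃ x, ψ x ≠ 1) (hinv : ∀ (x : Q) a b, M (x • a) (x • b) = M a b)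
    (hodd : Odd (Module.finrank K (semiInv L ψ))) : IsSquare (-(Fintype.card L : K)) := by
  classical
  let T : semiInv L ψ →ₗ[K] semiInv L ψ := (mulM K M).restrict (mulM_mem M ψ hinv)
  have hTT : T * T = (-(Fintype.card L : K)) • (1 : semiInv L ψ →ₗ[K] semiInv L ψ) := by
    apply LinearMap.ext
    intro f
    apply Subtype.ext
    funext a
    change ∑ b, (M a b : K) * ∑ c, (M b c : K) * f.1 c = (-(Fintype.card L : K)) * f.1 a
    have h0 := sum_semiInv ψ hψ f.1 f.2
    have h1 : ∑ b, (M a b : K) * ∑ c, (M b c : K) * f.1 c =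
        ∑ c, ((∑ b, M a b * M b c : ℤ) : K) * f.1 c := by
      simp_rw [Finset.mul_sum]
      rw [Finset.sum_comm]
      apply Finset.sum_congr rfl
      intro c _
      push_cast
      rw [Finset.sum_mul]
      apply Finset.sum_congr rfl
      intro b _; ring
    rw [h1]
    have h2 : ∀ c, ((∑ b, M a b * M b c : ℤ) : K) * f.1 c =
        f.1 c - (if a = c then (Fintype.card L : K) * f.1 c else 0) := by
      intro c
      rw [hsq a c]
      split_ifs <;> push_cast <;> ring
    rw [Finset.sum_congr rfl (fun c _ => h2 c), Finset.sum_sub_distrib, h0,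
      Finset.sum_ite_eq]
    simp
  have hdet : LinearMap.det T * LinearMap.det T =
      (-(Fintype.card L : K)) ^ (Module.finrank K (semiInv L ψ)) := by
    rw [← map_mul, hTT, LinearMap.det_smul, map_one, mul_one]
  obtain ⟨k, hk⟩ := hodd
  rw [hk] at hdet
  by_cases h0 : (-(Fintype.card L : K)) = 0
  · rw [h0]; exact IsSquare.zero
  · refine ⟨LinearMap.det T / (-(Fintype.card L : K)) ^ k, ?_⟩
    have hne : (-(Fintype.card L : K)) ^ k ≠ 0 := pow_ne_zero k h0
    rw [div_mul_div_comm, hdet, eq_div_iff (mul_ne_zero hne hne)]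
    ring

end Det

end P994e17
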