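import Pool.Agent.P994e17.GT1

/-!
Group theory part of module GT of P994e17: Sylow, Frattini and the choice of the character.
-/

namespace P994e17

open Finset

theorem exists_fixed_of_odd {X : Type*} [Finite X] (f : X → X) (hf : ∀ x, f (f x) = x)
    (hodd : Odd (Nat.card X)) : ∃ x, f x = x := by
  classical
  have := Fintype.ofFinite X
  let g : Function.End X := f
  have hg : g ^ 2 ^ 1 = 1 := by
    funext x
    exact hf x
  have h := Equiv.Perm.card_fixedPoints_modEq (p := 2) (n := 1) hg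
  rw [Nat.card_eq_fintype_card] at hodd
  by_contra hne
  push Not at hne
  have h0 : Fintype.card (Function.fixedPoints g) = 0 := by
    rw [Fintype.card_eq_zero_iff]
    exact ⟨fun x => hne x.1 x.2⟩
  rw [h0] at h
  have : 2 ∣ Fintype.card X := (Nat.modEq_zero_iff_dvd).mp h
  obtain ⟨k, hk⟩ := hodd
  omega

theorem odd_of_unique_fixed {X : Type*} [Finite X] (f : X → X) (hf : ∀ x, f (f x) = x)
    (a : X) (ha : f a = a) (huniq : ∀ x, f x = x → x = a) : Odd (Nat.card X) := by
  classical
  have := Fintype.ofFinite X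
  let g : Function.End X := f
  have hg : g ^ 2 ^ 1 = 1 := by
    funext x
    exact hf x
  have h := Equiv.Perm.card_fixedPoints_modEq (p := 2) (n := 1) hg
  rw [Nat.card_eq_fintype_card]
  have h0 : Fintype.card (Function.fixedPoints g) = 1 := by
    rw [Fintype.card_eq_one_iff]
    exact ⟨⟨a, ha⟩, fun x => Subtype.ext (huniq x.1 x.2)⟩
  rw [h0] at h
  rw [Nat.odd_iff]
  exact h

/-- The character: Sylow subgroup normalized by an involution outside `N`. -/
theorem exists_character {G : Type*} [Group G] [Finite G] {L : Type*} [Finite L] [MulAction G L]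
    (N : Subgroup G) (hN2 : N.index = 2) (hNodd : Odd (Nat.card N)) (hL : Odd (Nat.card L))
    (htrans : ∀ a b : L, ∃ g ∈ N, g • a = b)
    (hfix : ∀ g : G, g ∉ N → ∀ a b : L, g • a = a → g • b = b → a = b)
    (q : ℕ) [hqf : Fact q.Prime] (hq : q ∣ Nat.card L) {K : Type*} [Field K] (ζ : Kˣ)
    (hζ : orderOf ζ = q) :
    ∃ (Q : Subgroup G) (_ : Q ≤ N) (ψ : Q →* Kˣ), (∃ x, ψ x ≠ 1) ∧ Odd (Nat.card Q) ∧
      Odd (Nat.card {a : L // good ψ a}) := by
  classical
  have hNn : N.Normal := Subgroup.normal_of_index_eq_two hN2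
  have hqodd : Odd q := hL.of_dvd_nat hq
  -- an element outside N
  have hNtop : N ≠ ⊤ := by
    intro h
    rw [h, Subgroup.index_top] at hN2
    omega
  obtain ⟨t0, ht0⟩ : ∃ t0, t0 ∉ N := by
    by_contra h
    push Not at h
    exact hNtop (by ext x; simp [h x])
  obtain ⟨P⟩ : Nonempty (Sylow q N) := inferInstance
  let QQ : Subgroup G := (P : Subgroup N).map N.subtype
  have hQN : QQ ≤ N := by
    rintro x ⟨y, -, rfl⟩
    exact y.2
  have hfr : Subgroup.normalizer (QQ : Set G) ⊔ N = ⊤ := Sylow.normalizer_sup_eq_top P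
  have hmem : t0 ∈ ((Subgroup.normalizer (QQ : Set G) ⊔ N : Subgroup G) : Set G) := by
    rw [hfr]; trivial
  rw [Subgroup.mul_normal] at hmem
  obtain ⟨a, ha, b, hb, hab⟩ := Set.mem_mul.mp hmem
  have haN : a ∉ N := by
    intro h
    apply ht0
    rw [← hab]
    exact N.mul_mem h hb
  have ha2 : a ^ 2 ∈ N := Subgroup.sq_mem_of_index_two hN2 a
  -- the involution
  let t : G := a ^ (Nat.card N)
  have htn : t ∈ Subgroup.normalizer (QQ : Set G) := Subgroup.pow_mem _ ha _
  have htN : t ∉ N := by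
    intro h
    obtain ⟨k, hk⟩ := hNodd
    have h1 : t = (a ^ 2) ^ k * a := by
      change a ^ (Nat.card N) = _
      rw [hk, pow_succ, pow_mul]
    rw [h1] at h
    exact haN ((Subgroup.mul_mem_cancel_left N (Subgroup.pow_mem _ ha2 k)).mp h)
  have htt : t * t = 1 := by
    have h1 : (⟨a ^ 2, ha2⟩ : N) ^ (Nat.card N) = 1 := pow_card_eq_one'
    have h2 := congrArg Subtype.val h1
    simp only [SubmonoidClass.mk_pow, OneMemClass.coe_one] at h2
    change a ^ (Nat.card N) * a ^ (Nat.card N) = 1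
    rw [← h2, ← pow_mul, two_mul, pow_add]
  have htinv : t⁻¹ = t := inv_eq_of_mul_eq_one_left htt
  -- the fixed point
  obtain ⟨A, hA⟩ : ∃ A : L, t • A = A :=
    exists_fixed_of_odd (fun x => t • x) (fun x => by
      change t • t • x = x
      rw [← mul_smul, htt, one_smul]) hL
  have hAu : ∀ x : L, t • x = x → x = A := fun x hx => hfix t htN x A hx hA
  -- conjugation by t on QQ
  have hcmem : ∀ x ∈ QQ, t * x * t⁻¹ ∈ QQ := by
    intro x hx
    have := (Subgroup.mem_normalizer_iff.mp htn x).mp hx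
    exact this
  let c : QQ →* QQ :=
    { toFun := fun x => ⟨t * x.1 * t⁻¹, hcmem x.1 x.2⟩
      map_one' := by apply Subtype.ext; simp
      map_mul' := by
        intro x y; apply Subtype.ext
        change t * (x.1 * y.1) * t⁻¹ = (t * x.1 * t⁻¹) * (t * y.1 * t⁻¹)
        group }
  have hc : ∀ x : QQ, (c x).1 = t * x.1 * t⁻¹ := fun x => rfl
  have hcc : ∀ x : QQ, c (c x) = x := by
    intro x; apply Subtype.ext
    rw [hc, hc, htinv]
    calc t * (t * x.1 * t) * t = (t * t) * x.1 * (t * t) := by group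
      _ = x.1 := by rw [htt, one_mul, mul_one]
  have hcact : ∀ (x : QQ) (u : L), t • (x • u) = (c x) • (t • u) := by
    intro x u
    change t • (x.1 • u) = (t * x.1 * t⁻¹) • (t • u)
    rw [← mul_smul, ← mul_smul]
    congr 1
    group
  -- stabilizer
  let S : Subgroup QQ := MulAction.stabilizer QQ A
  have hSmem : ∀ x : QQ, x ∈ S ↔ x • A = A := fun x => MulAction.mem_stabilizer_iff
  have hPstab : ¬ (P : Subgroup N) ≤ MulAction.stabilizer N A := by
    intro hle
    have hpre : MulAction.IsPretransitive N L := ⟨fun u v => by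
      obtain ⟨g, hg, hgu⟩ := htrans u v
      exact ⟨⟨g, hg⟩, hgu⟩⟩
    have h1 : (MulAction.stabilizer N A).index = Nat.card L :=
      MulAction.index_stabilizer_of_transitive N A
    have h2 := Subgroup.index_dvd_of_le hle
    rw [h1] at h2
    exact P.not_dvd_index (hq.trans h2)
  have hSne : ∃ x : QQ, x ∉ S := by
    by_contra h
    push Not at h
    apply hPstab
    intro y hy
    have h1 := h ⟨(y : G), ⟨y, hy, rfl⟩⟩
    rw [hSmem] at h1
    exact h1
  have hQp : IsPGroup q QQ := IsPGroup.map P.2 N.subtype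
  obtain ⟨k, hk⟩ := (IsPGroup.iff_card).mp hQp
  have hSp : IsPGroup q S := hQp.to_subgroup S
  obtain ⟨j, hj⟩ := (IsPGroup.iff_card).mp hSp
  have hq1 : 1 < q := hqf.out.one_lt
  have hlt : Nat.card S < Nat.card QQ := by
    rcases lt_or_eq_of_le (Nat.le_of_dvd Nat.card_pos (Subgroup.card_subgroup_dvd_card S)) with h | h
    · exact h
    · exfalso
      obtain ⟨x, hx⟩ := hSne
      have := Subgroup.eq_top_of_card_eq S h
      rw [this] at hx
      exact hx (Subgroup.mem_top x)
  rw [hj, hk] at hlt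
  have hjk : j < k := (Nat.pow_lt_pow_iff_right hq1).mp hlt
  obtain ⟨Y, hYcard, hSY⟩ := Sylow.exists_subgroup_card_pow_prime_le q (n := j) (m := k - 1)
    (by rw [hk]; exact pow_dvd_pow q (Nat.sub_le k 1)) S hj (by omega)
  have hYidx : Y.index = q := by
    have h1 := Y.card_mul_index
    rw [hYcard, hk] at h1
    have h2 : q ^ k = q ^ (k - 1) * q := by
      rw [← pow_succ]; congr 1; omega
    rw [h2] at h1
    exact Nat.eq_of_mul_eq_mul_left (pow_pos hqf.out.pos _) h1
  have hYn : Y.Normal := by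
    apply Subgroup.normal_of_index_eq_minFac_card
    rw [hYidx, hk, Nat.Prime.pow_minFac hqf.out (by omega)]
  have hcq : Nat.card (QQ ⧸ Y) = q := by
    rw [← hYidx]; rfl
  have hcz : Nat.card (Subgroup.zpowers ζ) = q := by
    rw [Nat.card_zpowers, hζ]
  let e : (QQ ⧸ Y) ≃* Subgroup.zpowers ζ := mulEquivOfPrimeCardEq (p := q) hcq hcz
  let ψ0 : QQ →* Kˣ := (Subgroup.zpowers ζ).subtype.comp
    (e.toMonoidHom.comp (QuotientGroup.mk' Y))
  have hψ0 : ∀ x : QQ, ψ0 x = 1 ↔ x ∈ Y := by
    intro x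
    change ((e (QuotientGroup.mk' Y x) : Subgroup.zpowers ζ) : Kˣ) = 1 ↔ _
    rw [OneMemClass.coe_eq_one, map_eq_one_iff e e.injective]
    exact QuotientGroup.eq_one_iff x
  let ψ : QQ →* Kˣ := ψ0 / (ψ0.comp c)
  have hψ : ∀ x, ψ x = ψ0 x / ψ0 (c x) := fun x => rfl
  have hψc : ∀ x, ψ (c x) = (ψ x)⁻¹ := by
    intro x
    rw [hψ, hψ, hcc, inv_div]
  have hnontriv : ∃ x, ψ x ≠ 1 := by
    by_contra hcon
    push Not at hcon
    have hinv : ∀ x, ψ0 (c x) = ψ0 x := by
      intro x
      have := hcon x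
      rw [hψ, div_eq_one] at this
      exact this.symm
    obtain ⟨x0, hx0⟩ : ∃ x0 : QQ, x0 ∉ Y := by
      by_contra h
      push Not at h
      have : Y = ⊤ := by ext x; simp [h x]
      rw [this, Subgroup.index_top] at hYidx
      omega
    let Fib := {y : QQ // ψ0 y = ψ0 x0}
    let eF : Fib ≃ Y :=
      { toFun := fun y => ⟨x0⁻¹ * y.1, by
          rw [← hψ0, map_mul, map_inv, y.2, inv_mul_cancel]⟩
        invFun := fun z => ⟨x0 * z.1, by
          rw [map_mul, (hψ0 z.1).mpr z.2, mul_one]⟩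
        left_inv := by intro y; apply Subtype.ext; simp
        right_inv := by intro z; apply Subtype.ext; simp }
    have hFodd : Odd (Nat.card Fib) := by
      rw [Nat.card_congr eF, hYcard]
      exact hqodd.pow
    obtain ⟨y, hy⟩ := exists_fixed_of_odd (X := Fib)
      (fun y => ⟨c y.1, by rw [hinv]; exact y.2⟩)
      (fun y => Subtype.ext (hcc y.1)) hFodd
    have hy1 : c y.1 = y.1 := congrArg Subtype.val hy
    have h1 : t • (y.1 • A) = y.1 • A := by
      rw [hcact, hy1, hA]
    have h2 : y.1 • A = A := hAu _ h1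
    have h3 : y.1 ∈ Y := hSY ((hSmem _).mpr h2)
    have h4 := (hψ0 _).mpr h3
    rw [y.2, hψ0] at h4
    exact hx0 h4
  refine ⟨QQ, hQN, ψ, hnontriv, ?_, ?_⟩
  · rw [hk]; exact hqodd.pow
  · have hgt : ∀ u : L, good ψ u → good ψ (t • u) := by
      intro u hu x hx
      have h1 : (c x) • u = u := by
        have h2 : t • ((c x) • u) = t • u := by
          rw [hcact, hcc, hx]
        exact smul_left_cancel t h2
      have h3 := hu _ h1
      rw [hψc, inv_eq_one] at h3
      exact h3
    have hgA : good ψ A := by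
      intro x hx
      have h1 : ψ0 x = 1 := (hψ0 x).mpr (hSY ((hSmem x).mpr hx))
      have h2 : (c x) • A = A := by
        have := hcact x A
        rw [hx, hA] at this
        exact this.symm
      have h3 : ψ0 (c x) = 1 := (hψ0 _).mpr (hSY ((hSmem _).mpr h2))
      rw [hψ, h1, h3, div_one]
    exact odd_of_unique_fixed (X := {a : L // good ψ a})
      (fun u => ⟨t • u.1, hgt u.1 u.2⟩)
      (fun u => Subtype.ext (by
        change t • t • u.1 = u.1
        rw [← mul_smul, htt, one_smul]))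
      ⟨A, hgA⟩ (Subtype.ext hA)
      (fun u hu => Subtype.ext (hAu u.1 (congrArg Subtype.val hu)))

end P994e17
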