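import Pool.Agent.P994e17.Data

set_option autoImplicit false

/-! The geometric properties (E) and (I), and their consequences for signs. -/

namespace P994e17

open Configuration Configuration.ProjectivePlane

section defs

/-- the little projectivity `l -> (B) k -> (C) l` -/
noncomputable def tau {P L : Type*} [Membership P L] [ProjectivePlane P L] (B C : P) (l k : L)
    (hBl : B ∉ l) (hBk : B ∉ k) (hCl : C ∉ l) (hCk : C ∉ k) : Equiv.Perm {x : P // x ∈ l} :=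
  (persp B l k hBl hBk).trans (persp C k l hCk hCl)

/-- the harmonic map `a -> (C) b -> (A) c -> (B) a` -/
noncomputable def eta {P L : Type*} [Membership P L] [ProjectivePlane P L] (A B C : P)
    (a b c : L) (hCa : C ∉ a) (hCb : C ∉ b) (hAb : A ∉ b) (hAc : A ∉ c) (hBc : B ∉ c)
    (hBa : B ∉ a) : Equiv.Perm {x : P // x ∈ a} :=
  ((persp C a b hCa hCb).trans (persp A b c hAb hAc)).trans (persp B c a hBc hBa)

/-- (E) -/
def GeoE (P L : Type*) [Membership P L] [ProjectivePlane P L] (p : ℕ) : Prop :=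
  ∀ (B C V : P) (l k j : L) (hBl : B ∉ l) (hBk : B ∉ k) (hCl : C ∉ l) (hCk : C ∉ k),
    B ≠ C → l ≠ k → V ∈ l → V ∈ k → V ∈ j → B ∈ j → C ∈ j →
    tau B C l k hBl hBk hCl hCk ^ p = 1 ∧ ∀ x, tau B C l k hBl hBk hCl hCk x = x → x.1 = V

/-- (I) -/
def GeoI (P L : Type*) [Membership P L] [ProjectivePlane P L] : Prop :=
  ∀ (V A B C : P) (a b c j : L) (hCa : C ∉ a) (hCb : C ∉ b) (hAb : A ∉ b) (hAc : A ∉ c)
    (hBc : B ∉ c) (hBa : B ∉ a),
    V ∈ a → V ∈ b → V ∈ c → V ∉ j → A ∈ a → B ∈ b → C ∈ c → A ∈ j → B ∈ j → C ∈ j →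
    (∀ x, eta A B C a b c hCa hCb hAb hAc hBc hBa (eta A B C a b c hCa hCb hAb hAc hBc hBa x) = x)
    ∧ ∀ x, eta A B C a b c hCa hCb hAb hAc hBc hBa x = x → x.1 = V ∨ x.1 = A

end defs

section cons

variable {P L : Type*} [Membership P L] [ProjectivePlane P L] [Fintype P] [Fintype L]

theorem unit_pow_odd {u : ℤˣ} {p : ℕ} (hp : Odd p) (h : u ^ p = 1) : u = 1 := by
  rcases Int.units_eq_one_or u with h1 | h1
  · exact h1
  · rw [h1, hp.neg_one_pow] at h
    exact absurd h (by decide)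

theorem propE_of_geoE {p : ℕ} (hp : Odd p) (h : GeoE P L p) : PropE P L := by
  classical
  intro B C V l k j hBC hlk hVl hVk hVj hBj hCj hBl hBk hCl hCk
  obtain ⟨h1, -⟩ := h B C V l k j hBl hBk hCl hCk hBC hlk hVl hVk hVj hBj hCj
  have h2 : sg (tau B C l k hBl hBk hCl hCk) = 1 := by
    have : Fintype {x : P // x ∈ l} := Fintype.ofFinite _
    rw [sg_perm]
    apply unit_pow_odd hp
    rw [← map_pow, h1, map_one]
  unfold tau at h2
  rw [sg_trans, ← s_def, ← s_def, s_symm C k l, unit_mul_eq_iff, one_mul] at h2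
  exact h2

omit [Fintype P] [Fintype L] in
theorem eta_fix (V A B C : P) (a b c : L) (hCa : C ∉ a) (hCb : C ∉ b) (hAb : A ∉ b)
    (hAc : A ∉ c) (hBc : B ∉ c) (hBa : B ∉ a)
    (hVa : V ∈ a) (hVb : V ∈ b) (hVc : V ∈ c) :
    eta A B C a b c hCa hCb hAb hAc hBc hBa ⟨V, hVa⟩ = ⟨V, hVa⟩ := by
  unfold eta
  rw [Equiv.trans_apply, Equiv.trans_apply, persp_fix C a b hCa hCb ⟨V, hVa⟩ hVb,
    persp_fix A b c hAb hAc ⟨V, hVb⟩ hVc, persp_fix B c a hBc hBa ⟨V, hVc⟩ hVa]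

omit [Fintype P] [Fintype L] in
theorem eta_fix' (A B C : P) (a b c j : L) (hCa : C ∉ a) (hCb : C ∉ b) (hAb : A ∉ b)
    (hAc : A ∉ c) (hBc : B ∉ c) (hBa : B ∉ a)
    (hAa : A ∈ a) (hBb : B ∈ b) (hCc : C ∈ c) (hAj : A ∈ j) (hBj : B ∈ j) (hCj : C ∈ j) :
    eta A B C a b c hCa hCb hAb hAc hBc hBa ⟨A, hAa⟩ = ⟨A, hAa⟩ := by
  unfold eta
  rw [Equiv.trans_apply, Equiv.trans_apply,
    persp_eq C a b hCa hCb ⟨A, hAa⟩ ⟨B, hBb⟩ j hCj hAj hBj,
    persp_eq A b c hAb hAc ⟨B, hBb⟩ ⟨C, hCc⟩ j hAj hBj hCj,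
    persp_eq B c a hBc hBa ⟨C, hCc⟩ ⟨A, hAa⟩ j hBj hCj hAj]

omit [Fintype P] [Fintype L] in
/-- the six non-incidences in the configuration of (I) -/
theorem config_not {V A B C : P} {a b c j : L}
    (hVa : V ∈ a) (hVb : V ∈ b) (hVc : V ∈ c) (hVj : V ∉ j) (hAa : A ∈ a) (hBb : B ∈ b)
    (hCc : C ∈ c) (hAj : A ∈ j) (hBj : B ∈ j) (hCj : C ∈ j) (hab : a ≠ b) (hbc : b ≠ c)
    (hca : c ≠ a) : C ∉ a ∧ C ∉ b ∧ A ∉ b ∧ A ∉ c ∧ B ∉ c ∧ B ∉ a := by
  have hA : A ≠ V := fun h => hVj (h ▸ hAj)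
  have hB : B ≠ V := fun h => hVj (h ▸ hBj)
  have hC : C ≠ V := fun h => hVj (h ▸ hCj)
  exact ⟨not_mem_of_ne hVc hCc hVa hca.symm hC, not_mem_of_ne hVc hCc hVb hbc hC,
    not_mem_of_ne hVa hAa hVb hab.symm hA, not_mem_of_ne hVa hAa hVc hca hA,
    not_mem_of_ne hVb hBb hVc hbc.symm hB, not_mem_of_ne hVb hBb hVa hab hB⟩

theorem propI_of_geoI (hn : order P L % 4 = 3) (h : GeoI P L) : PropI P L := by
  classical
  intro V A B C a b c j hVa hVb hVc hVj hAa hBb hCc hAj hBj hCj hab hbc hca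
  obtain ⟨hCa, hCb, hAb, hAc, hBc, hBa⟩ :=
    config_not hVa hVb hVc hVj hAa hBb hCc hAj hBj hCj hab hbc hca
  obtain ⟨h1, h2⟩ := h V A B C a b c j hCa hCb hAb hAc hBc hBa hVa hVb hVc hVj hAa hBb hCc
    hAj hBj hCj
  have f1 := eta_fix V A B C a b c hCa hCb hAb hAc hBc hBa hVa hVb hVc
  have f2 := eta_fix' A B C a b c j hCa hCb hAb hAc hBc hBa hAa hBb hCc hAj hBj hCj
  set e := eta A B C a b c hCa hCb hAb hAc hBc hBa with he
  have hVA : V ≠ A := fun h => hVj (h ▸ hAj)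
  have : Fintype {x : P // x ∈ a} := Fintype.ofFinite _
  have h3 : sg e = -1 := by
    rw [sg_perm]
    have h4 : e ^ 2 = 1 := by
      ext x
      rw [pow_two, Equiv.Perm.mul_apply, h1, Equiv.Perm.one_apply]
    rw [Equiv.Perm.sign_of_pow_two_eq_one h4]
    have h5 : Fintype.card (Function.fixedPoints e) = 2 := by
      have h6 : (Function.fixedPoints e) = {⟨V, hVa⟩, ⟨A, hAa⟩} := by
        ext x
        simp only [Function.mem_fixedPoints, Function.IsFixedPt, Set.mem_insert_iff,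
          Set.mem_singleton_iff]
        constructor
        · intro hx
          rcases h2 x hx with h | h
          · left; exact Subtype.ext h
          · right; exact Subtype.ext h
        · rintro (rfl | rfl)
          · exact f1
          · exact f2
      have h7 : Nat.card (Function.fixedPoints e) = 2 := by
        rw [h6, Nat.card_coe_set_eq, Set.ncard_pair]
        intro h
        exact hVA (congrArg Subtype.val h)
      rw [← h7, Nat.card_eq_fintype_card]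
    have h8 : Fintype.card {x : P // x ∈ a} = order P L + 1 := by
      rw [← Nat.card_eq_fintype_card, card_pts]
    rw [h5, h8]
    have h9 : Odd ((order P L + 1 - 2) / 2) := by
      rw [Nat.odd_iff]
      omega
    rw [h9.neg_one_pow]
  rw [he] at h3
  unfold eta at h3
  rw [sg_trans, sg_trans, ← s_def, ← s_def, ← s_def] at h3
  exact h3

theorem propEta_of_geoI (hE : PropE P L) (hn : 3 ≤ order P L) (h : GeoI P L) :
    PropEta P L := by
  classical
  intro l Z A hZA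
  obtain ⟨b, hZb, hbl⟩ := exists_other_line l Z.1
  obtain ⟨c, hZc, hc⟩ := exists_line_avoid (P := P) Z.1 ({l, b} : Finset L)
    (Finset.card_le_two.trans (by omega))
  simp only [Finset.mem_insert, Finset.mem_singleton, not_or] at hc
  obtain ⟨hcl, hcb⟩ := hc
  obtain ⟨j, hAj, hjl⟩ := exists_other_line l A.1
  have hZj : Z.1 ∉ j := not_mem_of_ne A.2 Z.2 hAj hjl (ne_val hZA)
  obtain ⟨B, hBb, hBj⟩ := exists_meet (P := P) b j (fun h => hZj (h ▸ hZb))
  obtain ⟨C, hCc, hCj⟩ := exists_meet (P := P) c j (fun h => hZj (h ▸ hZc))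
  obtain ⟨hCa, hCb, hAb, hAc, hBc, hBa⟩ :=
    config_not Z.2 hZb hZc hZj A.2 hBb hCc hAj hBj hCj hbl.symm (Ne.symm hcb) hcl
  obtain ⟨h1, h2⟩ := h Z.1 A.1 B C l b c j hCa hCb hAb hAc hBc hBa Z.2 hZb hZc hZj A.2 hBb hCc
    hAj hBj hCj
  refine ⟨eta A.1 B C l b c hCa hCb hAb hAc hBc hBa, ?_, ?_, ?_, h1, ?_⟩
  · unfold eta
    exact ((cre_persp hE _ _ _ _ _).trans' (cre_persp hE _ _ _ _ _)).trans'
      (cre_persp hE _ _ _ _ _)
  · exact eta_fix Z.1 A.1 B C l b c hCa hCb hAb hAc hBc hBa Z.2 hZb hZc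
  · exact eta_fix' A.1 B C l b c j hCa hCb hAb hAc hBc hBa A.2 hBb hCc hAj hBj hCj
  · obtain ⟨W, hW⟩ := exists_pts_avoid l ({Z, A} : Finset {x : P // x ∈ l})
      (Finset.card_le_two.trans (by omega))
    simp only [Finset.mem_insert, Finset.mem_singleton, not_or] at hW
    refine ⟨W, fun hf => ?_⟩
    rcases h2 W hf with h | h
    · exact hW.1 (Subtype.ext h)
    · exact hW.2 (Subtype.ext h)

/-- the prime `p` of (E) divides the order -/
theorem dvd_order_of_geoE {p : ℕ} (hp : p.Prime) (h : GeoE P L p) : p ∣ order P L := by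
  classical
  have h1lt := one_lt_order P L
  have := Fact.mk hp
  obtain ⟨l⟩ : Nonempty L := by
    obtain ⟨_, _, _, l, _⟩ := @ProjectivePlane.exists_config P L _ _
    exact ⟨l⟩
  obtain ⟨V, hVl⟩ : ∃ V : P, V ∈ l := by
    obtain ⟨V, hV, -⟩ := exists_pt_avoid (P := P) l (∅ : Finset P) (by simp)
    exact ⟨V, hV⟩
  obtain ⟨k, hVk, hkl⟩ := exists_other_line l V
  obtain ⟨j, hVj, hj⟩ := exists_line_avoid (P := P) V ({l, k} : Finset L)
    (Finset.card_le_two.trans (by omega))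
  simp only [Finset.mem_insert, Finset.mem_singleton, not_or] at hj
  obtain ⟨hjl, hjk⟩ := hj
  obtain ⟨B, hBj, hBV, -⟩ := exists_third j V V
  obtain ⟨C, hCj, hCV, hCB⟩ := exists_third j V B
  have hBl : B ∉ l := not_mem_of_ne hVj hBj hVl (Ne.symm hjl) hBV
  have hBk : B ∉ k := not_mem_of_ne hVj hBj hVk (Ne.symm hjk) hBV
  have hCl : C ∉ l := not_mem_of_ne hVj hCj hVl (Ne.symm hjl) hCV
  have hCk : C ∉ k := not_mem_of_ne hVj hCj hVk (Ne.symm hjk) hCV
  obtain ⟨h1, h2⟩ := h B C V l k j hBl hBk hCl hCk (Ne.symm hCB) hkl.symm hVl hVk hVj hBj hCj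
  have : Fintype {x : P // x ∈ l} := Fintype.ofFinite _
  have h3 : (tau B C l k hBl hBk hCl hCk) ^ p ^ 1 = 1 := by rw [pow_one]; exact h1
  have h4 := Equiv.Perm.card_compl_support_modEq h3
  have h5 : (tau B C l k hBl hBk hCl hCk).supportᶜ = {⟨V, hVl⟩} := by
    ext x
    rw [Finset.mem_compl, Equiv.Perm.mem_support, not_not, Finset.mem_singleton]
    constructor
    · intro hx
      exact Subtype.ext (h2 x hx)
    · rintro rfl
      unfold tau
      rw [Equiv.trans_apply, persp_fix B l k hBl hBk ⟨V, hVl⟩ hVk,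
        persp_fix C k l hCk hCl ⟨V, hVk⟩ hVl]
  have h8 : Fintype.card {x : P // x ∈ l} = order P L + 1 := by
    rw [← Nat.card_eq_fintype_card, card_pts]
  rw [h5, Finset.card_singleton, h8] at h4
  have h6 := (Nat.modEq_iff_dvd' (by omega)).1 h4
  simpa using h6

end cons

end P994e17
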