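import Mathlib

set_option autoImplicit false

/-!
# Lemma P (MP_994e17_co): a semi-invariant space of odd dimension makes `-n` a square
-/

namespace P994e17

namespace LemmaPAux

open Finset


variable {L Γ K : Type*} [Fintype L] [DecidableEq L] [Group Γ] [MulAction Γ L] [Field K]

/-- the `ψ`-homogeneous functions -/
def V (ψ : Γ →* Kˣ) : Submodule K (L → K) where
  carrier := {f | ∀ (x : Γ) (A : L), f (x • A) = (ψ x : K) * f A}
  add_mem' := by
    intro f g hf hg x A
    simp only [Pi.add_apply, hf x A, hg x A, mul_add]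
  zero_mem' := by
    intro x A
    simp
  smul_mem' := by
    intro c f hf x A
    simp only [Pi.smul_apply, smul_eq_mul, hf x A]
    ring

theorem mem_V {ψ : Γ →* Kˣ} {f : L → K} :
    f ∈ V (L := L) ψ ↔ ∀ (x : Γ) (A : L), f (x • A) = (ψ x : K) * f A := Iff.rfl

theorem sum_V {ψ : Γ →* Kˣ} (hψ : ψ ≠ 1) {f : L → K} (hf : f ∈ V (L := L) ψ) : ∑ A, f A = 0 := by
  obtain ⟨x, hx⟩ : ∃ x, ψ x ≠ 1 := by
    by_contra hcon
    push Not at hcon
    exact hψ (MonoidHom.ext hcon)
  have h1 : ∑ A, f A = (ψ x : K) * ∑ A, f A := by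
    rw [Finset.mul_sum]
    conv_lhs => rw [← Equiv.sum_comp (MulAction.toPerm x)]
    exact Finset.sum_congr rfl fun A _ => hf x A
  have h2 : ((ψ x : K) - 1) * ∑ A, f A = 0 := by
    rw [sub_mul, one_mul, ← h1, sub_self]
  rcases mul_eq_zero.mp h2 with h3 | h3
  · exact absurd (Units.ext (by simpa using sub_eq_zero.mp h3)) hx
  · exact h3

/-- the matrix as a linear map -/
def T (K : Type*) [Field K] (M : L → L → ℤ) : (L → K) →ₗ[K] (L → K) where
  toFun f A := ∑ B, (M A B : K) * f B
  map_add' f g := by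
    funext A
    simp only [Pi.add_apply, mul_add, Finset.sum_add_distrib]
  map_smul' c f := by
    funext A
    simp only [Pi.smul_apply, smul_eq_mul, RingHom.id_apply, Finset.mul_sum]
    exact Finset.sum_congr rfl fun B _ => by ring

theorem T_apply (M : L → L → ℤ) (f : L → K) (A : L) : T K M f A = ∑ B, (M A B : K) * f B := rfl

theorem T_mem {M : L → L → ℤ} (hinv : ∀ (x : Γ) A B, M (x • A) (x • B) = M A B)
    {ψ : Γ →* Kˣ} {f : L → K} (hf : f ∈ V (L := L) ψ) : T K M f ∈ V (L := L) ψ := by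
  intro x A
  rw [T_apply, T_apply, Finset.mul_sum, ← Equiv.sum_comp (MulAction.toPerm x)]
  refine Finset.sum_congr rfl fun B _ => ?_
  simp only [MulAction.toPerm_apply]
  rw [hinv, hf x B]
  ring

theorem T_T {M : L → L → ℤ} {n : ℕ}
    (hM2 : ∀ a b, ∑ x, M a x * M x b = if a = b then 1 - (n : ℤ) else 1)
    {ψ : Γ →* Kˣ} (hψ : ψ ≠ 1) {f : L → K}
    (hf : f ∈ V (L := L) ψ) : T K M (T K M f) = (-(n : K)) • f := by
  funext A
  rw [T_apply]
  have h1 : ∀ B, (M A B : K) * T K M f B = ∑ C, ((M A B * M B C : ℤ) : K) * f C := by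
    intro B
    rw [T_apply, Finset.mul_sum]
    refine Finset.sum_congr rfl fun C _ => ?_
    push_cast
    ring
  simp only [h1]
  rw [Finset.sum_comm]
  have h2 : ∀ C, ∑ B, ((M A B * M B C : ℤ) : K) * f C =
      (if C = A then -(n : K) * f A else 0) + f C := by
    intro C
    rw [← Finset.sum_mul, ← Int.cast_sum, hM2 A C]
    by_cases hC : C = A
    · subst hC
      simp only [if_true]
      push_cast
      ring
    · rw [if_neg (Ne.symm hC), if_neg hC]
      simp
  simp only [h2]
  rw [Finset.sum_add_distrib, sum_V hψ hf, Finset.sum_ite_eq' Finset.univ A]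
  simp

/-- the restriction of `T` to `V ψ` -/
def TV (M : L → L → ℤ) (hinv : ∀ (x : Γ) A B, M (x • A) (x • B) = M A B) (ψ : Γ →* Kˣ) :
    V (L := L) ψ →ₗ[K] V (L := L) ψ :=
  (T K M).restrict (fun _ hf => T_mem hinv hf)

theorem sq_of_odd {M : L → L → ℤ} {n : ℕ}
    (hM2 : ∀ a b, ∑ x, M a x * M x b = if a = b then 1 - (n : ℤ) else 1)
    (hinv : ∀ (x : Γ) A B, M (x • A) (x • B) = M A B)
    {ψ : Γ →* Kˣ} (hψ : ψ ≠ 1) (hodd : Odd (Module.finrank K (V (L := L) ψ))) :
    ∃ y : K, y ^ 2 = -(n : K) := by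
  have h1 : TV M hinv ψ ∘ₗ TV M hinv ψ = (-(n : K)) • LinearMap.id := by
    ext f : 1
    apply Subtype.ext
    exact T_T hM2 hψ f.2
  have h2 : LinearMap.det (TV M hinv ψ) * LinearMap.det (TV M hinv ψ) =
      (-(n : K)) ^ Module.finrank K (V (L := L) ψ) := by
    rw [← LinearMap.det_comp, h1, LinearMap.det_smul, LinearMap.det_id, mul_one]
  obtain ⟨k, hk⟩ := hodd
  rw [hk] at h2
  by_cases hn : (-(n : K)) = 0
  · exact ⟨0, by rw [hn]; simp⟩
  · refine ⟨LinearMap.det (TV M hinv ψ) / (-(n : K)) ^ k, ?_⟩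
    rw [div_pow, div_eq_iff (pow_ne_zero _ (pow_ne_zero _ hn)), pow_two (LinearMap.det _), h2]
    ring

/-- orbits whose stabilizers are in the kernel -/
def Good (ψ : Γ →* Kˣ) (ω : MulAction.orbitRel.Quotient Γ L) : Prop :=
  ∀ B : L, (Quotient.mk _ B : MulAction.orbitRel.Quotient Γ L) = ω → ∀ x : Γ, x • B = B → ψ x = 1

theorem good_mk {ψ : Γ →* Kˣ} {B : L} (h : ∀ x : Γ, x • B = B → ψ x = 1) :
    Good ψ (Quotient.mk _ B : MulAction.orbitRel.Quotient Γ L) := by
  intro C hC x hx
  have h1 : C ∈ MulAction.orbit Γ B := Quotient.exact hC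
  obtain ⟨y, rfl⟩ := h1
  have h2 : (y⁻¹ * x * y) • B = B := by
    rw [mul_smul, mul_smul]
    have : x • y • B = y • B := hx
    rw [this, inv_smul_smul]
  have h3 := h _ h2
  rw [map_mul, map_mul, map_inv] at h3
  rw [mul_comm (ψ y)⁻¹, mul_assoc] at h3
  simpa using h3

theorem finrank_V (ψ : Γ →* Kˣ) : Module.finrank K (V (L := L) ψ) =
    Nat.card {ω : MulAction.orbitRel.Quotient Γ L // Good ψ ω} := by
  classical
  have : Finite (MulAction.orbitRel.Quotient Γ L) := Quotient.finite _
  haveI : Fintype {ω : MulAction.orbitRel.Quotient Γ L // Good ψ ω} := Fintype.ofFinite _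
  let Φ : V (L := L) ψ →ₗ[K] ({ω : MulAction.orbitRel.Quotient Γ L // Good ψ ω} → K) :=
    { toFun := fun f ω => f.1 (Quotient.out ω.1)
      map_add' := fun f g => rfl
      map_smul' := fun c f => rfl }
  have hrep : ∀ A : L, ∃ x : Γ,
      x • (Quotient.out (Quotient.mk _ A : MulAction.orbitRel.Quotient Γ L)) = A := by
    intro A
    have h1 : Quotient.out (Quotient.mk _ A : MulAction.orbitRel.Quotient Γ L) ∈
        MulAction.orbit Γ A := Quotient.mk_out (s := MulAction.orbitRel Γ L) A
    obtain ⟨x, hx⟩ := h1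
    exact ⟨x⁻¹, by rw [← hx]; simp⟩
  have hinj : Function.Injective Φ := by
    rw [injective_iff_map_eq_zero]
    intro f hf
    apply Subtype.ext
    funext A
    obtain ⟨x, hx⟩ := hrep A
    by_cases hg : Good ψ (Quotient.mk _ A : MulAction.orbitRel.Quotient Γ L)
    · have h1 := congrFun hf ⟨_, hg⟩
      have h2 := f.2 x (Quotient.out (Quotient.mk _ A : MulAction.orbitRel.Quotient Γ L))
      rw [hx] at h2
      have h3 : f.1 (Quotient.out (Quotient.mk _ A : MulAction.orbitRel.Quotient Γ L)) = 0 := h1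
      rw [h2, h3]
      simp
    · unfold Good at hg
      push Not at hg
      obtain ⟨B, hB, y, hy, hψ⟩ := hg
      have h1 := f.2 y B
      rw [hy] at h1
      have h2 : ((ψ y : K) - 1) * f.1 B = 0 := by
        rw [sub_mul, one_mul, ← h1, sub_self]
      have h3 : f.1 B = 0 := by
        rcases mul_eq_zero.mp h2 with h3 | h3
        · exact absurd (Units.ext (by simpa using sub_eq_zero.mp h3)) hψ
        · exact h3
      have h4 : B ∈ MulAction.orbit Γ A := Quotient.exact hB
      obtain ⟨z, hz⟩ := h4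
      have h5 := f.2 z A
      have h6 : z • A = B := hz
      rw [h6, h3] at h5
      have := mul_eq_zero.mp h5.symm
      rcases this with h7 | h7
      · exact absurd h7 (Units.ne_zero _)
      · exact h7
  have hsurj : Function.Surjective Φ := by
    intro g
    choose x hx using hrep
    refine ⟨⟨fun A => if hA : Good ψ (Quotient.mk _ A : MulAction.orbitRel.Quotient Γ L) then
      (ψ (x A) : K) * g ⟨_, hA⟩ else 0, ?_⟩, ?_⟩
    · intro y A
      have h1 : (Quotient.mk _ (y • A) : MulAction.orbitRel.Quotient Γ L) = Quotient.mk _ A :=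
        Quotient.sound ⟨y, rfl⟩
      by_cases hA : Good ψ (Quotient.mk _ A : MulAction.orbitRel.Quotient Γ L)
      · have hA' : Good ψ (Quotient.mk _ (y • A) : MulAction.orbitRel.Quotient Γ L) := by
          rw [h1]
          exact hA
        simp only [dif_pos hA, dif_pos hA']
        have h2 : ψ (x (y • A)) = ψ y * ψ (x A) := by
          have h3 : ((x (y • A))⁻¹ * (y * x A)) •
              (Quotient.out (Quotient.mk _ A : MulAction.orbitRel.Quotient Γ L)) =
              (Quotient.out (Quotient.mk _ A : MulAction.orbitRel.Quotient Γ L)) := by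
            rw [mul_smul, mul_smul, hx A]
            have h4 := hx (y • A)
            rw [h1] at h4
            rw [inv_smul_eq_iff]
            exact h4.symm
          have h5 := hA _ (Quotient.out_eq _) _ h3
          rw [map_mul, map_inv, map_mul, inv_mul_eq_one] at h5
          exact h5
        rw [h2]
        have h6 : (⟨_, hA'⟩ : {ω : MulAction.orbitRel.Quotient Γ L // Good ψ ω}) = ⟨_, hA⟩ :=
          Subtype.ext h1
        rw [h6]
        push_cast
        ring
      · have hA' : ¬ Good ψ (Quotient.mk _ (y • A) : MulAction.orbitRel.Quotient Γ L) := by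
          rw [h1]
          exact hA
        simp only [dif_neg hA, dif_neg hA', mul_zero]
    · funext ω
      have h1 : (Quotient.mk _ (Quotient.out ω.1) : MulAction.orbitRel.Quotient Γ L) = ω.1 :=
        Quotient.out_eq _
      have hA : Good ψ (Quotient.mk _ (Quotient.out ω.1) : MulAction.orbitRel.Quotient Γ L) := by
        rw [h1]
        exact ω.2
      show (if hA : Good ψ (Quotient.mk _ (Quotient.out ω.1) : MulAction.orbitRel.Quotient Γ L) then
        (ψ (x (Quotient.out ω.1)) : K) * g ⟨_, hA⟩ else 0) = g ω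
      rw [dif_pos hA]
      have h2 : ψ (x (Quotient.out ω.1)) = 1 := by
        refine hA _ rfl _ ?_
        have := hx (Quotient.out ω.1)
        rw [h1] at this
        exact this
      have h6 : (⟨_, hA⟩ : {ω : MulAction.orbitRel.Quotient Γ L // Good ψ ω}) = ω :=
        Subtype.ext h1
      rw [h2, h6]
      simp
  have h1 := (LinearEquiv.ofBijective Φ ⟨hinj, hsurj⟩).finrank_eq
  rw [h1, Module.finrank_pi, Nat.card_eq_fintype_card]

end LemmaPAux

/-- **Lemma P** -/
theorem lemmaP {L K Q : Type*} [Fintype L] [DecidableEq L] [Field K] [Group Q] [MulAction Q L]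
    (M : L → L → ℤ) (n : ℕ) (hM : ∀ (x : Q) (a b : L), M (x • a) (x • b) = M a b)
    (hM2 : ∀ a b, ∑ x, M a x * M x b = if a = b then 1 - (n : ℤ) else 1)
    (ψ : Q →* Kˣ) (hψ : ∃ x, ψ x ≠ 1)
    (hodd : Odd (Nat.card {O : MulAction.orbitRel.Quotient Q L //
      ∀ a : L, (Quotient.mk'' a : MulAction.orbitRel.Quotient Q L) = O →
        ∀ x : Q, x • a = a → ψ x = 1})) : IsSquare (-(n : K)) := by
  have hψ' : ψ ≠ 1 := by
    rintro rfl
    obtain ⟨x, hx⟩ := hψ
    exact hx rfl
  have h1 : Odd (Module.finrank K (LemmaPAux.V (L := L) ψ)) := by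
    rw [LemmaPAux.finrank_V]
    exact hodd
  obtain ⟨y, hy⟩ := LemmaPAux.sq_of_odd (M := M) hM2 hM hψ' h1
  exact ⟨y, by rw [← hy, pow_two]⟩

end P994e17
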