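import Pool.Agent.P994e17.Cross

set_option autoImplicit false

/-! The skew matrix of signs on the points of a line minus one point. -/

namespace P994e17

open Configuration Configuration.ProjectivePlane

/-- Property (I) on the level of signs. -/
def PropI (P L : Type*) [Membership P L] [ProjectivePlane P L] [Fintype P] [Fintype L] : Prop :=
  ∀ (V A B C : P) (a b c j : L), V ∈ a → V ∈ b → V ∈ c → V ∉ j → A ∈ a → B ∈ b → C ∈ c →
    A ∈ j → B ∈ j → C ∈ j → a ≠ b → b ≠ c → c ≠ a → s C a b * s A b c * s B c a = -1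

/-- Existence of involutions with two prescribed fixed points which preserve the cross ratio. -/
def PropEta (P L : Type*) [Membership P L] [ProjectivePlane P L] [Fintype P] [Fintype L] : Prop :=
  ∀ (l : L) (Z A : {x : P // x ∈ l}), Z ≠ A → ∃ g : Equiv.Perm {x : P // x ∈ l},
    CRE l l g ∧ g Z = Z ∧ g A = A ∧ (∀ x, g (g x) = x) ∧ ∃ x, g x ≠ x

section mu

variable {P L : Type*} [Membership P L] [ProjectivePlane P L] [Fintype P] [Fintype L]

/-- the matrix entry -/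
noncomputable def mu (l b0 m0 : L) (Z A B : {x : P // x ∈ l}) : ℤˣ :=
  s Z.1 b0 (oth l B.1) * s A.1 (oth l B.1) m0

variable {l b0 m0 : L} {Z : {x : P // x ∈ l}}

theorem mu_eq (hE : PropE P L) (hb : Z.1 ∉ b0) (hm0 : Z.1 ∈ m0) (hm0l : m0 ≠ l)
    {A B : {x : P // x ∈ l}} (hAB : A ≠ B) (hAZ : A ≠ Z) (hBZ : B ≠ Z) {m : L} (hBm : B.1 ∈ m)
    (hm : m ≠ l) : mu l b0 m0 Z A B = s Z.1 b0 m * s A.1 m m0 := by
  have z1 : Z.1 ∉ oth l B.1 := not_mem_of_ne B.2 Z.2 (mem_oth _ _) (oth_ne _ _) (ne_val hBZ).symm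
  have z2 : Z.1 ∉ m := not_mem_of_ne B.2 Z.2 hBm hm (ne_val hBZ).symm
  have a1 : A.1 ∉ oth l B.1 := not_mem_of_ne B.2 A.2 (mem_oth _ _) (oth_ne _ _) (ne_val hAB)
  have a2 : A.1 ∉ m := not_mem_of_ne B.2 A.2 hBm hm (ne_val hAB)
  have a3 : A.1 ∉ m0 := not_mem_of_ne Z.2 A.2 hm0 hm0l (ne_val hAZ)
  unfold mu
  rw [← s_trans Z.1 b0 (oth l B.1) m hb z1 z2, ← s_trans A.1 (oth l B.1) m m0 a1 a2 a3,
    s_change hE (mem_oth l B.1) hBm B.2 Z.2 A.2 z1 z2 a1 a2]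
  ac_rfl

theorem mu_skew (hE : PropE P L) (hI : PropI P L) (hb : Z.1 ∉ b0) (hm0 : Z.1 ∈ m0)
    (hm0l : m0 ≠ l) {A B : {x : P // x ∈ l}} (hAB : A ≠ B) (hAZ : A ≠ Z) (hBZ : B ≠ Z) :
    mu l b0 m0 Z A B * mu l b0 m0 Z B A = -1 := by
  obtain ⟨V, hV, hVZ, -⟩ := exists_third m0 Z.1 Z.1
  have hVl : V ∉ l := not_mem_of_ne hm0 hV Z.2 hm0l.symm hVZ
  obtain ⟨a, Va, Aa⟩ := exists_line_two (L := L) V A.1 (ne_of_mem_not A.2 hVl)
  obtain ⟨b, Vb, Bb⟩ := exists_line_two (L := L) V B.1 (ne_of_mem_not B.2 hVl)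
  have hal : a ≠ l := fun h => hVl (h ▸ Va)
  have hbl : b ≠ l := fun h => hVl (h ▸ Vb)
  have hab : a ≠ b := fun h => (ne_val hAB) (point_unique hal Aa (h ▸ Bb) A.2 B.2)
  have hbm : b ≠ m0 := fun h => (ne_val hBZ) (point_unique hbl Bb (h ▸ hm0) B.2 Z.2)
  have ham : m0 ≠ a := fun h => (ne_val hAZ) (point_unique hal Aa (h ▸ hm0) A.2 Z.2)
  have z1 : Z.1 ∉ a := not_mem_of_ne A.2 Z.2 Aa hal (ne_val hAZ).symm
  have z2 : Z.1 ∉ b := not_mem_of_ne B.2 Z.2 Bb hbl (ne_val hBZ).symm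
  have key := hI V A.1 B.1 Z.1 a b m0 l Va Vb hV hVl Aa Bb hm0 A.2 B.2 Z.2 hab hbm ham
  rw [mu_eq hE hb hm0 hm0l hAB hAZ hBZ Bb hbl, mu_eq hE hb hm0 hm0l hAB.symm hBZ hAZ Aa hal]
  rw [← key, ← s_trans Z.1 a b0 b z1 hb z2, s_symm Z.1 a b0, s_symm B.1 m0 a]
  ac_rfl

theorem mu_row (hE : PropE P L) (hm0 : Z.1 ∈ m0)
    (hm0l : m0 ≠ l) {A B X : {x : P // x ∈ l}} (hAX : A ≠ X) (hBX : B ≠ X)
    (hAZ : A ≠ Z) (hBZ : B ≠ Z) :
    mu l b0 m0 Z A X * mu l b0 m0 Z B X = cr l A B X Z := by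
  rw [cr_eq hE hAX.symm hBX.symm hAZ.symm hBZ.symm (mem_oth l X.1) (oth_ne l X.1) hm0 hm0l]
  unfold mu
  have h := Int.units_mul_self (s Z.1 b0 (oth l X.1))
  calc s Z.1 b0 (oth l X.1) * s A.1 (oth l X.1) m0 * (s Z.1 b0 (oth l X.1) * s B.1 (oth l X.1) m0)
      = (s Z.1 b0 (oth l X.1) * s Z.1 b0 (oth l X.1)) *
          (s A.1 (oth l X.1) m0 * s B.1 (oth l X.1) m0) := by ac_rfl
    _ = _ := by rw [h, one_mul]

theorem unit_mul_eq_iff {a b c : ℤˣ} : a * b = c ↔ a = c * b := by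
  constructor
  · intro h
    rw [← h, mul_assoc, Int.units_mul_self, mul_one]
  · intro h
    rw [h, mul_assoc, Int.units_mul_self, mul_one]

/-- a cross ratio preserving permutation fixing `Z` preserves `mu` up to a global sign -/
theorem mu_eps (hE : PropE P L) (hI : PropI P L) (hb : Z.1 ∉ b0) (hm0 : Z.1 ∈ m0)
    (hm0l : m0 ≠ l) (g : Equiv.Perm {x : P // x ∈ l}) (hg : CRE l l g) (hgZ : g Z = Z) :
    ∃ e : ℤˣ, ∀ A B : {x : P // x ∈ l}, A ≠ B → A ≠ Z → B ≠ Z →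
      mu l b0 m0 Z (g A) (g B) = e * mu l b0 m0 Z A B := by
  set E : {x : P // x ∈ l} → {x : P // x ∈ l} → ℤˣ := fun A B =>
    mu l b0 m0 Z (g A) (g B) * mu l b0 m0 Z A B with hEdef
  have gZ : ∀ {A}, A ≠ Z → g A ≠ Z := fun h h' => h (g.injective (h'.trans hgZ.symm))
  have gN : ∀ {A B}, A ≠ B → g A ≠ g B := fun h h' => h (g.injective h')
  have h1 : ∀ A B X : {x : P // x ∈ l}, A ≠ X → B ≠ X → A ≠ Z → B ≠ Z → X ≠ Z →
      E A X = E B X := by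
    intro A B X hAX hBX hAZ hBZ hXZ
    have e1 := mu_row (b0 := b0) hE hm0 hm0l hAX hBX hAZ hBZ
    have e2 := mu_row (b0 := b0) hE hm0 hm0l (gN hAX) (gN hBX) (gZ hAZ) (gZ hBZ)
    have e3 := hg A B X Z hAX.symm hBX.symm hAZ.symm hBZ.symm
    rw [hgZ] at e3
    rw [e3, ← e1] at e2
    simp only [hEdef]
    have u1 := Int.units_mul_self (mu l b0 m0 Z A X)
    have u2 := Int.units_mul_self (mu l b0 m0 Z (g B) (g X))
    calc mu l b0 m0 Z (g A) (g X) * mu l b0 m0 Z A X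
        = (mu l b0 m0 Z (g A) (g X) * mu l b0 m0 Z (g B) (g X)) * mu l b0 m0 Z A X *
          mu l b0 m0 Z (g B) (g X) := by
          calc _ = mu l b0 m0 Z (g A) (g X) * mu l b0 m0 Z A X *
                (mu l b0 m0 Z (g B) (g X) * mu l b0 m0 Z (g B) (g X)) := by rw [u2, mul_one]
            _ = _ := by ac_rfl
      _ = (mu l b0 m0 Z A X * mu l b0 m0 Z A X) * (mu l b0 m0 Z (g B) (g X) *
          mu l b0 m0 Z B X) := by rw [e2]; ac_rfl
      _ = _ := by rw [u1, one_mul]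
  have h2 : ∀ A X : {x : P // x ∈ l}, A ≠ X → A ≠ Z → X ≠ Z → E A X = E X A := by
    intro A X hAX hAZ hXZ
    have e1 := mu_skew hE hI hb hm0 hm0l hAX hAZ hXZ
    have e2 := mu_skew hE hI hb hm0 hm0l (gN hAX) (gZ hAZ) (gZ hXZ)
    rw [unit_mul_eq_iff] at e1 e2
    simp only [hEdef]
    rw [e1, e2]
    calc _ = ((-1 : ℤˣ) * (-1)) * (mu l b0 m0 Z (g X) (g A) * mu l b0 m0 Z X A) := by ac_rfl
      _ = _ := by simp
  by_cases hex : ∃ A B : {x : P // x ∈ l}, A ≠ B ∧ A ≠ Z ∧ B ≠ Z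
  · obtain ⟨A0, B0, h0, hA0, hB0⟩ := hex
    refine ⟨E A0 B0, ?_⟩
    intro A B hAB hAZ hBZ
    have h3 : E A B = E A0 B0 := by
      by_cases hBB : B = B0
      · subst hBB
        exact h1 A A0 B hAB h0 hAZ hA0 hB0
      · calc E A B = E B0 B := h1 A B0 B hAB (fun h => hBB h.symm) hAZ hB0 hBZ
          _ = E B B0 := h2 B0 B (fun h => hBB h.symm) hB0 hBZ
          _ = E A0 B0 := h1 B A0 B0 hBB h0 hBZ hA0 hB0
    rw [← h3]
    simp only [hEdef]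
    rw [mul_assoc, Int.units_mul_self, mul_one]
  · refine ⟨1, ?_⟩
    intro A B hAB hAZ hBZ
    exact absurd ⟨A, B, hAB, hAZ, hBZ⟩ hex

end mu

section triv

variable {P L : Type*} [Membership P L] [ProjectivePlane P L] [Fintype P] [Fintype L]
variable {l b0 m0 : L} {Z : {x : P // x ∈ l}}

theorem exists_pts_avoid (l : L) (S : Finset {x : P // x ∈ l}) (hS : S.card ≤ order P L) :
    ∃ x : {x : P // x ∈ l}, x ∉ S := by
  classical
  obtain ⟨x, h1, h2⟩ := exists_pt_avoid (P := P) l (S.image Subtype.val)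
    (Finset.card_image_le.trans hS)
  refine ⟨⟨x, h1⟩, fun h => h2 ?_⟩
  exact Finset.mem_image.2 ⟨_, h, rfl⟩

/-- if the cross ratio is trivial for one pair then for all pairs -/
theorem triv_change (hE : PropE P L) (hn : 3 ≤ order P L) {A A' B : {x : P // x ∈ l}}
    (hAB : A ≠ B) (hA'B : A' ≠ B)
    (h : ∀ X Y : {x : P // x ∈ l}, X ≠ A → X ≠ B → Y ≠ A → Y ≠ B → cr l A B X Y = 1) :
    ∀ X Y : {x : P // x ∈ l}, X ≠ A' → X ≠ B → Y ≠ A' → Y ≠ B → cr l A' B X Y = 1 := by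
  classical
  obtain ⟨W, hW⟩ := exists_pts_avoid l ({A, A', B} : Finset {x : P // x ∈ l})
    (Finset.card_le_three.trans hn)
  simp only [Finset.mem_insert, Finset.mem_singleton, not_or] at hW
  obtain ⟨hWA, hWA', hWB⟩ := hW
  obtain ⟨g, hg, gB, gW, gA⟩ := exists_proj hE l B W A A' hAB (Ne.symm hWA) hA'B
    (Ne.symm hWA')
  intro X Y hXA hXB hYA hYB
  have e := hg A B (g.symm X) (g.symm Y) ?_ ?_ ?_ ?_
  · rw [gA, gB, Equiv.apply_symm_apply, Equiv.apply_symm_apply] at e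
    rw [e]
    apply h
    · intro h'; apply hXA; rw [← gA, ← h', Equiv.apply_symm_apply]
    · intro h'; apply hXB; rw [← gB, ← h', Equiv.apply_symm_apply]
    · intro h'; apply hYA; rw [← gA, ← h', Equiv.apply_symm_apply]
    · intro h'; apply hYB; rw [← gB, ← h', Equiv.apply_symm_apply]
  · intro h'; apply hXA; rw [← gA, ← h', Equiv.apply_symm_apply]
  · intro h'; apply hXB; rw [← gB, ← h', Equiv.apply_symm_apply]
  · intro h'; apply hYA; rw [← gA, ← h', Equiv.apply_symm_apply]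
  · intro h'; apply hYB; rw [← gB, ← h', Equiv.apply_symm_apply]

/-- the cross ratio is not trivial -/
theorem cr_nontriv (hE : PropE P L) (hI : PropI P L) (hn : 3 ≤ order P L)
    (hb : Z.1 ∉ b0) (hm0 : Z.1 ∈ m0) (hm0l : m0 ≠ l) {A B : {x : P // x ∈ l}}
    (hAB : A ≠ B) : ∃ X Y : {x : P // x ∈ l}, X ≠ A ∧ X ≠ B ∧ Y ≠ A ∧ Y ≠ B ∧
      cr l A B X Y ≠ 1 := by
  classical
  by_contra hcon
  push Not at hcon
  have h0 : ∀ X Y : {x : P // x ∈ l}, X ≠ A → X ≠ B → Y ≠ A → Y ≠ B → cr l A B X Y = 1 :=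
    fun X Y h1 h2 h3 h4 => hcon X Y h1 h2 h3 h4
  have swap : ∀ {A B : {x : P // x ∈ l}},
      (∀ X Y : {x : P // x ∈ l}, X ≠ A → X ≠ B → Y ≠ A → Y ≠ B → cr l A B X Y = 1) →
      (∀ X Y : {x : P // x ∈ l}, X ≠ B → X ≠ A → Y ≠ B → Y ≠ A → cr l B A X Y = 1) := by
    intro A B h X Y h1 h2 h3 h4
    rw [cr_swap]
    exact h X Y h2 h1 h4 h3
  -- all pairs are trivial
  have hall : ∀ {C D : {x : P // x ∈ l}}, C ≠ D →
      ∀ X Y : {x : P // x ∈ l}, X ≠ C → X ≠ D → Y ≠ C → Y ≠ D → cr l C D X Y = 1 := by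
    intro C D hCD
    by_cases hCB : C = B
    · subst hCB
      exact swap (triv_change hE hn hAB hCD.symm h0)
    · have h1 := triv_change hE hn hAB hCB h0
      have h2 := swap h1
      exact swap (triv_change hE hn (Ne.symm hCB) (Ne.symm hCD) h2)
  -- three points different from `Z`
  obtain ⟨C, hC⟩ := exists_pts_avoid l ({Z} : Finset {x : P // x ∈ l}) (by simp; omega)
  obtain ⟨D, hD⟩ := exists_pts_avoid l ({Z, C} : Finset {x : P // x ∈ l})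
    (Finset.card_le_two.trans (by omega))
  obtain ⟨F, hF⟩ := exists_pts_avoid l ({Z, C, D} : Finset {x : P // x ∈ l})
    (Finset.card_le_three.trans hn)
  simp only [Finset.mem_insert, Finset.mem_singleton, not_or] at hC hD hF
  obtain ⟨hDZ, hDC⟩ := hD
  obtain ⟨hFZ, hFC, hFD⟩ := hF
  have key : ∀ {A B X : {x : P // x ∈ l}}, A ≠ B → A ≠ X → B ≠ X → A ≠ Z → B ≠ Z → X ≠ Z →
      mu l b0 m0 Z A X = mu l b0 m0 Z B X := by
    intro A B X hAB hAX hBX hAZ hBZ hXZ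
    have e := mu_row (b0 := b0) hE hm0 hm0l hAX hBX hAZ hBZ
    rw [hall hAB X Z hAX.symm hBX.symm hAZ.symm hBZ.symm, unit_mul_eq_iff, one_mul] at e
    exact e
  have sk : ∀ {A B : {x : P // x ∈ l}}, A ≠ B → A ≠ Z → B ≠ Z →
      mu l b0 m0 Z A B = - mu l b0 m0 Z B A := by
    intro A B hAB hAZ hBZ
    have e := mu_skew hE hI hb hm0 hm0l hAB hAZ hBZ
    rw [unit_mul_eq_iff] at e
    rw [e, neg_one_mul]
  have : mu l b0 m0 Z C D = - mu l b0 m0 Z C D := by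
    calc mu l b0 m0 Z C D = mu l b0 m0 Z F D := key (Ne.symm hFC) (Ne.symm hDC) hFD hC hFZ hDZ
      _ = - mu l b0 m0 Z D F := sk hFD hFZ hDZ
      _ = - mu l b0 m0 Z C F := by rw [key hDC (Ne.symm hFD) (Ne.symm hFC) hDZ hC hFZ]
      _ = mu l b0 m0 Z F C := by rw [sk (Ne.symm hFC) hC hFZ, neg_neg]
      _ = mu l b0 m0 Z D C := key hFD hFC hDC hFZ hDZ hC
      _ = - mu l b0 m0 Z C D := sk hDC hDZ hC
  exact (units_ne_neg_self _ this)

end triv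

end P994e17
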