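import Pool.Agent.P994e17.Three

set_option autoImplicit false

/-! Properties (E) and (I) for planes in which every quadrangle generates a subplane isomorphic to
`PG(2, p)`, `p` an odd prime. -/

namespace P994e17

open Configuration Configuration.ProjectivePlane Matrix
open scoped LinearAlgebra.Projectivization

section vec

variable {K : Type*} [Field K]

/-- the determinant of three vectors -/
def dt (u v w : Fin 3 → K) : K := u ⬝ᵥ crossProduct v w

theorem dt_formula (u v w : Fin 3 → K) : dt u v w =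
    u 0 * (v 1 * w 2 - v 2 * w 1) + u 1 * (v 2 * w 0 - v 0 * w 2) +
      u 2 * (v 0 * w 1 - v 1 * w 0) := by
  unfold dt
  rw [cross_apply, dotProduct, Fin.sum_univ_three]
  simp

theorem cramer (z c x y : Fin 3 → K) :
    dt z c x • y = dt y c x • z + dt z y x • c + dt z c y • x := by
  ext i
  simp only [Pi.smul_apply, Pi.add_apply, smul_eq_mul, dt_formula]
  fin_cases i <;> simp <;> ring

theorem dt_comb (z c x : Fin 3 → K) (a b d : K) (h : a • z + b • c + d • x = 0) :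
    a * dt z c x = 0 ∧ b * dt z c x = 0 ∧ d * dt z c x = 0 := by
  have h0 : a * z 0 + b * c 0 + d * x 0 = 0 := by simpa using congrFun h 0
  have h1 : a * z 1 + b * c 1 + d * x 1 = 0 := by simpa using congrFun h 1
  have h2 : a * z 2 + b * c 2 + d * x 2 = 0 := by simpa using congrFun h 2
  simp only [dt_formula]
  refine ⟨?_, ?_, ?_⟩
  · linear_combination (c 1 * x 2 - c 2 * x 1) * h0 + (c 2 * x 0 - c 0 * x 2) * h1 +
      (c 0 * x 1 - c 1 * x 0) * h2
  · linear_combination (x 1 * z 2 - x 2 * z 1) * h0 + (x 2 * z 0 - x 0 * z 2) * h1 +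
      (x 0 * z 1 - x 1 * z 0) * h2
  · linear_combination (z 1 * c 2 - z 2 * c 1) * h0 + (z 2 * c 0 - z 0 * c 2) * h1 +
      (z 0 * c 1 - z 1 * c 0) * h2

end vec

section coord

variable {K : Type*} [Field K] {P L : Type*} [Membership P L] [ProjectivePlane P L]

/-- coordinates: `f` maps points and `g` lines of `PG(2,K)` into the plane -/
structure Coord (f : ℙ K (Fin 3 → K) → P) (g : ℙ K (Fin 3 → K) → L) : Prop where
  inc : ∀ u w, f u ∈ g w ↔ u.orthogonal w

open Classical in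
/-- the point with coordinate vector `v` -/
noncomputable def pt (f : ℙ K (Fin 3 → K) → P) (v : Fin 3 → K) : P :=
  if h : v = 0 then f (Projectivization.mk K (fun _ => 1)
    (fun h => one_ne_zero (congrFun h 0))) else f (Projectivization.mk K v h)

theorem pt_def (f : ℙ K (Fin 3 → K) → P) {v : Fin 3 → K} (hv : v ≠ 0) :
    pt f v = f (Projectivization.mk K v hv) := by
  unfold pt
  rw [dif_neg hv]

theorem exists_pt (f : ℙ K (Fin 3 → K) → P) {a : P} (h : a ∈ Set.range f) :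
    ∃ v : Fin 3 → K, v ≠ 0 ∧ pt f v = a := by
  obtain ⟨u, rfl⟩ := h
  refine ⟨u.rep, u.rep_nonzero, ?_⟩
  rw [pt_def f u.rep_nonzero, Projectivization.mk_rep]

theorem pt_smul (f : ℙ K (Fin 3 → K) → P) {v : Fin 3 → K} {a : K} (hv : v ≠ 0) (ha : a ≠ 0) :
    pt f (a • v) = pt f v := by
  have h : a • v ≠ 0 := smul_ne_zero ha hv
  rw [pt_def f hv, pt_def f h]
  congr 1
  rw [Projectivization.mk_eq_mk_iff']
  exact ⟨a, rfl⟩

variable {f : ℙ K (Fin 3 → K) → P} {g : ℙ K (Fin 3 → K) → L}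

theorem pt_cross {u v : Fin 3 → K} (hu : u ≠ 0) (hv : v ≠ 0) (h : crossProduct u v = 0) :
    pt f u = pt f v := by
  rw [pt_def f hu, pt_def f hv]
  congr 1
  exact (Projectivization.mk_eq_mk_iff_crossProduct_eq_zero hu hv).2 h

theorem exists_line_one (a : P) : ∃ l : L, a ∈ l := by
  by_contra hcon
  push Not at hcon
  obtain ⟨l, -⟩ := Nondegenerate.exists_line (L := L) a
  by_cases h : ∃ b : P, b ≠ a
  · obtain ⟨b, hb⟩ := h
    obtain ⟨m, -, hm⟩ := exists_line_two (L := L) b a hb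
    exact hcon m hm
  · push Not at h
    obtain ⟨p1, p2, p3, l1, l2, l3, h12, h13, h21, h22, -⟩ :=
      @ProjectivePlane.exists_config P L _ _
    exact h12 (by rw [h p1, ← h p2]; exact h22)

/-- linear dependence gives collinearity -/
theorem col (hf : Coord f g) {u v w : Fin 3 → K} (hu : u ≠ 0) (hv : v ≠ 0) (hw : w ≠ 0)
    (h : dt u v w = 0) : ∃ l : L, pt f u ∈ l ∧ pt f v ∈ l ∧ pt f w ∈ l := by
  by_cases hc : crossProduct u v = 0
  · have h1 : pt f u = pt f v := pt_cross hu hv hc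
    by_cases hd : pt f v = pt f w
    · obtain ⟨l, hl⟩ := exists_line_one (L := L) (pt f u)
      refine ⟨l, hl, h1 ▸ hl, ?_⟩
      rw [← hd, ← h1]
      exact hl
    · obtain ⟨l, h2, h3⟩ := exists_line_two (L := L) _ _ hd
      exact ⟨l, h1 ▸ h2, h2, h3⟩
  · refine ⟨g (Projectivization.mk K _ hc), ?_, ?_, ?_⟩
    · rw [pt_def f hu, hf.inc, Projectivization.orthogonal_mk, dot_self_cross]
    · rw [pt_def f hv, hf.inc, Projectivization.orthogonal_mk, dot_cross_self]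
    · rw [pt_def f hw, hf.inc, Projectivization.orthogonal_mk,
        triple_product_permutation]
      exact h

theorem dt_of_comb (u v : Fin 3 → K) (a b : K) : dt u v (a • u + b • v) = 0 := by
  rw [dt_formula]
  simp only [Pi.add_apply, Pi.smul_apply, smul_eq_mul]
  ring

/-- non-collinear points have independent vectors -/
theorem dt_ne (hf : Coord f g) {u v w : Fin 3 → K} (hu : u ≠ 0) (hv : v ≠ 0) (hw : w ≠ 0)
    (h : ∀ l : L, ¬ (pt f u ∈ l ∧ pt f v ∈ l ∧ pt f w ∈ l)) : dt u v w ≠ 0 := by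
  intro h0
  obtain ⟨l, hl⟩ := col hf hu hv hw h0
  exact h l hl

omit [ProjectivePlane P L] in
/-- equal points have proportional vectors -/
theorem cross_of_pt_eq (hf : Coord f g) {u v : Fin 3 → K} (hu : u ≠ 0) (hv : v ≠ 0)
    (h : pt f u = pt f v) : crossProduct u v = 0 := by
  by_contra hc
  -- for each `e` with `u × e ≠ 0`, `v · (u × e) = 0`
  have key : ∀ e : Fin 3 → K, e ⬝ᵥ crossProduct v u = 0 := by
    intro e
    by_cases he : crossProduct u e = 0
    · rw [triple_product_permutation, he, dotProduct_zero]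
    · have h1 : pt f u ∈ g (Projectivization.mk K _ he) := by
        rw [pt_def f hu, hf.inc, Projectivization.orthogonal_mk, dot_self_cross]
      rw [h, pt_def f hv, hf.inc, Projectivization.orthogonal_mk] at h1
      rw [triple_product_permutation]
      exact h1
  have h2 : crossProduct v u = 0 := by
    rw [← dotProduct_eq_zero_iff]
    intro w
    rw [dotProduct_comm]
    exact key w
  rw [← cross_anticomm, h2, neg_zero] at hc
  exact hc rfl

/-- a normalized frame of a quadrangle -/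
theorem frame (hf : Coord f g) {A B C D : P} (hA : A ∈ Set.range f) (hB : B ∈ Set.range f)
    (hC : C ∈ Set.range f) (hD : D ∈ Set.range f) (hQ : Quadrangle L A B C D) :
    ∃ z c x : Fin 3 → K, dt z c x ≠ 0 ∧ pt f z = A ∧ pt f c = B ∧ pt f x = C ∧
      pt f (z + c + x) = D := by
  obtain ⟨z, hz, rfl⟩ := exists_pt f hA
  obtain ⟨c, hc, rfl⟩ := exists_pt f hB
  obtain ⟨x, hx, rfl⟩ := exists_pt f hC
  obtain ⟨y, hy, rfl⟩ := exists_pt f hD
  have h0 : dt z c x ≠ 0 := dt_ne hf hz hc hx (fun l => (hQ l).1)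
  have h1 : dt y c x ≠ 0 := dt_ne hf hy hc hx (fun l h => (hQ l).2.2.2 ⟨h.2.1, h.2.2, h.1⟩)
  have h2 : dt z y x ≠ 0 := dt_ne hf hz hy hx (fun l h => (hQ l).2.2.1 ⟨h.1, h.2.2, h.2.1⟩)
  have h3 : dt z c y ≠ 0 := dt_ne hf hz hc hy (fun l h => (hQ l).2.1 h)
  refine ⟨dt y c x • z, dt z y x • c, dt z c y • x, ?_, pt_smul f hz h1, pt_smul f hc h2,
    pt_smul f hx h3, ?_⟩
  · have : dt (dt y c x • z) (dt z y x • c) (dt z c y • x) =
        dt y c x * dt z y x * dt z c y * dt z c x := by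
      rw [dt_formula (dt y c x • z)]
      simp only [Pi.smul_apply, smul_eq_mul]
      rw [dt_formula z c x]
      ring
    rw [this]
    exact mul_ne_zero (mul_ne_zero (mul_ne_zero h1 h2) h3) h0
  · rw [← cramer, pt_smul f hy h0]

theorem comb_ne {z c x : Fin 3 → K} (h : dt z c x ≠ 0) {a b d : K}
    (h' : a ≠ 0 ∨ b ≠ 0 ∨ d ≠ 0) : a • z + b • c + d • x ≠ 0 := by
  intro h0
  obtain ⟨h1, h2, h3⟩ := dt_comb z c x a b d h0
  rcases h' with h' | h' | h'
  · exact (mul_ne_zero h' h) h1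
  · exact (mul_ne_zero h' h) h2
  · exact (mul_ne_zero h' h) h3

theorem dt_self_comb (z c x : Fin 3 → K) (a1 b1 d1 a2 b2 d2 s1 s2 : K) :
    dt (a1 • z + b1 • c + d1 • x) (a2 • z + b2 • c + d2 • x)
      ((s1 * a1 + s2 * a2) • z + (s1 * b1 + s2 * b2) • c + (s1 * d1 + s2 * d2) • x) = 0 := by
  rw [← dt_of_comb (a1 • z + b1 • c + d1 • x) (a2 • z + b2 • c + d2 • x) s1 s2]
  congr 1
  module

end coord

section pg

variable {K : Type*} [Field K] {P L : Type*} [Membership P L] [ProjectivePlane P L]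
variable {f : ℙ K (Fin 3 → K) → P} {g : ℙ K (Fin 3 → K) → L}

/-- the point with coordinates `(a, b, d)` with respect to the frame `z, c, x` -/
noncomputable def q (f : ℙ K (Fin 3 → K) → P) (z c x : Fin 3 → K) (a b d : K) : P :=
  pt f (a • z + b • c + d • x)

/-- collinearity in frame coordinates -/
theorem q_col (hf : Coord f g) {z c x : Fin 3 → K} (h : dt z c x ≠ 0)
    {a1 b1 d1 a2 b2 d2 a3 b3 d3 : K} (s1 s2 : K)
    (h1 : a1 ≠ 0 ∨ b1 ≠ 0 ∨ d1 ≠ 0) (h2 : a2 ≠ 0 ∨ b2 ≠ 0 ∨ d2 ≠ 0)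
    (h3 : a3 ≠ 0 ∨ b3 ≠ 0 ∨ d3 ≠ 0)
    (e1 : a3 = s1 * a1 + s2 * a2) (e2 : b3 = s1 * b1 + s2 * b2)
    (e3 : d3 = s1 * d1 + s2 * d2) :
    ∃ l : L, q f z c x a1 b1 d1 ∈ l ∧ q f z c x a2 b2 d2 ∈ l ∧ q f z c x a3 b3 d3 ∈ l := by
  unfold q
  refine col hf (comb_ne h h1) (comb_ne h h2) (comb_ne h h3) ?_
  rw [e1, e2, e3]
  exact dt_self_comb z c x a1 b1 d1 a2 b2 d2 s1 s2

theorem q_inj (hf : Coord f g) {z c x : Fin 3 → K} (h : dt z c x ≠ 0)
    {a1 b1 d1 a2 b2 d2 : K} (h1 : a1 ≠ 0 ∨ b1 ≠ 0 ∨ d1 ≠ 0) (h2 : a2 ≠ 0 ∨ b2 ≠ 0 ∨ d2 ≠ 0)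
    (e : q f z c x a1 b1 d1 = q f z c x a2 b2 d2) : ∃ s : K, s * a1 = a2 ∧ s * b1 = b2 ∧
      s * d1 = d2 := by
  have hc := cross_of_pt_eq hf (comb_ne h h1) (comb_ne h h2) e
  have h3 : (Projectivization.mk K _ (comb_ne h h2)) = Projectivization.mk K _ (comb_ne h h1) :=
    ((Projectivization.mk_eq_mk_iff_crossProduct_eq_zero (comb_ne h h1) (comb_ne h h2)).2 hc).symm
  rw [Projectivization.mk_eq_mk_iff'] at h3
  obtain ⟨s, hs⟩ := h3
  refine ⟨s, ?_⟩
  have h4 : (s * a1 - a2) • z + (s * b1 - b2) • c + (s * d1 - d2) • x = 0 := by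
    have : (s * a1 - a2) • z + (s * b1 - b2) • c + (s * d1 - d2) • x =
        s • (a1 • z + b1 • c + d1 • x) - (a2 • z + b2 • c + d2 • x) := by module
    rw [this, hs, sub_self]
  obtain ⟨k1, k2, k3⟩ := dt_comb z c x _ _ _ h4
  refine ⟨?_, ?_, ?_⟩
  · exact sub_eq_zero.1 ((mul_eq_zero.1 k1).resolve_right h)
  · exact sub_eq_zero.1 ((mul_eq_zero.1 k2).resolve_right h)
  · exact sub_eq_zero.1 ((mul_eq_zero.1 k3).resolve_right h)

theorem q_z (z c x : Fin 3 → K) : q f z c x 1 0 0 = pt f z := by unfold q; simp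

theorem q_c (z c x : Fin 3 → K) : q f z c x 0 1 0 = pt f c := by unfold q; simp

theorem q_x (z c x : Fin 3 → K) : q f z c x 0 0 1 = pt f x := by unfold q; simp

theorem q_y (z c x : Fin 3 → K) : q f z c x 1 1 1 = pt f (z + c + x) := by unfold q; simp

end pg

section main

/-- the prime field -/
abbrev K' (p : ℕ) : Type := ZMod p

variable {P L : Type*} [Membership P L] [ProjectivePlane P L]

theorem geoE_pg (p : ℕ) [Fact p.Prime]
    (h : ∀ a b c d : P, Quadrangle L a b c d → ∃ (S : Set P) (T : Set L),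
      IsGeneratedBy S T a b c d ∧ IsPG S T p) : GeoE P L p := by
  intro B C V l k j hBl hBk hCl hCk hBC hlk hVl hVk hVj hBj hCj
  have hfix := tau_fix_only hBl hBk hCl hCk hBC hlk hVl hVk hVj hBj hCj
  have hVV : tau B C l k hBl hBk hCl hCk ⟨V, hVl⟩ = ⟨V, hVl⟩ := by
    unfold tau
    rw [Equiv.trans_apply, persp_fix B l k hBl hBk ⟨V, hVl⟩ hVk,
      persp_fix C k l hCk hCl ⟨V, hVk⟩ hVl]
  refine ⟨?_, hfix⟩
  apply Equiv.ext
  intro x
  rw [Equiv.Perm.one_apply]
  by_cases hxV : x.1 = V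
  · have hx : x = ⟨V, hVl⟩ := Subtype.ext hxV
    rw [hx]
    exact Equiv.Perm.pow_apply_eq_self_of_apply_eq_self hVV p
  obtain ⟨m, m1, m2, m3, hQ⟩ := tau_quad hBl hBk hCl hCk hBC hlk hVl hVk hVj hBj hCj x hxV
  set y := persp B l k hBl hBk x with hy
  obtain ⟨S, T, ⟨hS, ⟨hVS, hCS, hxS, hyS⟩, -⟩, f, g, hfS, hgT, hinc⟩ := h V C x.1 y.1 hQ
  have hf : Coord f g := ⟨hinc⟩
  rw [← hfS] at hVS hCS hxS hyS
  obtain ⟨zz, cc, xx, hdt, ez, ec, ex, ey⟩ := frame hf hVS hCS hxS hyS hQ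
  rw [← q_z zz cc xx] at ez
  rw [← q_c zz cc xx] at ec
  rw [← q_x zz cc xx] at ex
  rw [← q_y zz cc xx] at ey
  have hCV : C ≠ V := fun h => hCl (h ▸ hVl)
  have hmj : m ≠ j := by
    intro h'
    exact (hQ j).1 ⟨hVj, hCj, h' ▸ m2⟩
  have hxy : x.1 ≠ y.1 := by
    intro h'
    have hyk := y.2
    rw [← h'] at hyk
    exact hxV (point_unique hlk x.2 hVl hyk hVk)
  have hyV : y.1 ≠ V := by
    intro h'
    obtain ⟨r, r1, r2⟩ := exists_line_two (L := L) y.1 C (fun h => hCk (h ▸ y.2))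
    exact (hQ r).2.1 ⟨h' ▸ r1, r2, r1⟩
  -- the point `B`
  have eB : q f zz cc xx 1 1 0 = B := by
    obtain ⟨r, r1, r2, r3⟩ := q_col (L := L) hf hdt (a1 := 1) (b1 := 0) (d1 := 0) (a2 := 0)
      (b2 := 1) (d2 := 0) (a3 := 1) (b3 := 1) (d3 := 0) 1 1 (by simp) (by simp) (by simp)
      (by simp) (by simp) (by simp)
    obtain ⟨r', r1', r2', r3'⟩ := q_col (L := L) hf hdt (a1 := 1) (b1 := 1) (d1 := 1) (a2 := 0)
      (b2 := 0) (d2 := 1) (a3 := 1) (b3 := 1) (d3 := 0) 1 (-1) (by simp) (by simp) (by simp)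
      (by simp) (by simp) (by simp)
    rw [ez] at r1
    rw [ec] at r2
    rw [ey] at r1'
    rw [ex] at r2'
    have hr : r = j := line_unique hCV r2 r1 hCj hVj
    have hr' : r' = m := line_unique hxy r2' r1' m2 m3
    rw [hr] at r3
    rw [hr'] at r3'
    exact point_unique hmj r3' m1 r3 hBj
  -- the points of `l` and `k`
  have eX : ∀ a : K' p, q f zz cc xx a 0 1 ∈ l := by
    intro a
    obtain ⟨r, r1, r2, r3⟩ := q_col (L := L) hf hdt (a1 := 1) (b1 := 0) (d1 := 0) (a2 := 0)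
      (b2 := 0) (d2 := 1) (a3 := a) (b3 := 0) (d3 := 1) a 1 (by simp) (by simp) (by simp)
      (by simp) (by simp) (by simp)
    rw [ez] at r1
    rw [ex] at r2
    rwa [line_unique (Ne.symm hxV) r1 r2 hVl x.2] at r3
  have eY : ∀ a : K' p, q f zz cc xx (a + 1) 1 1 ∈ k := by
    intro a
    obtain ⟨r, r1, r2, r3⟩ := q_col (L := L) hf hdt (a1 := 1) (b1 := 0) (d1 := 0) (a2 := 1)
      (b2 := 1) (d2 := 1) (a3 := a + 1) (b3 := 1) (d3 := 1) a 1 (by simp) (by simp) (by simp)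
      (by simp) (by simp) (by simp)
    rw [ez] at r1
    rw [ey] at r2
    rwa [line_unique (Ne.symm hyV) r1 r2 hVk y.2] at r3
  have step : ∀ a : K' p, tau B C l k hBl hBk hCl hCk ⟨q f zz cc xx a 0 1, eX a⟩ =
      ⟨q f zz cc xx (a + 1) 0 1, eX (a + 1)⟩ := by
    intro a
    unfold tau
    rw [Equiv.trans_apply]
    have s1 : persp B l k hBl hBk ⟨q f zz cc xx a 0 1, eX a⟩ =
        ⟨q f zz cc xx (a + 1) 1 1, eY a⟩ := by
      obtain ⟨r, r1, r2, r3⟩ := q_col (L := L) hf hdt (a1 := 1) (b1 := 1) (d1 := 0) (a2 := a)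
        (b2 := 0) (d2 := 1) (a3 := a + 1) (b3 := 1) (d3 := 1) 1 1 (by simp) (by simp) (by simp)
        (by ring) (by ring) (by ring)
      rw [eB] at r1
      exact persp_eq B l k hBl hBk _ _ r r1 r2 r3
    rw [s1]
    obtain ⟨r, r1, r2, r3⟩ := q_col (L := L) hf hdt (a1 := 0) (b1 := 1) (d1 := 0) (a2 := a + 1)
      (b2 := 1) (d2 := 1) (a3 := a + 1) (b3 := 0) (d3 := 1) (-1) 1 (by simp) (by simp) (by simp)
      (by ring) (by ring) (by ring)
    rw [ec] at r1
    exact persp_eq C k l hCk hCl _ _ r r1 r2 r3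
  have iter : ∀ i : ℕ, (tau B C l k hBl hBk hCl hCk ^ i) x =
      ⟨q f zz cc xx (i : K' p) 0 1, eX i⟩ := by
    intro i
    induction i with
    | zero =>
      rw [pow_zero, Equiv.Perm.one_apply]
      apply Subtype.ext
      change x.1 = q f zz cc xx ((0 : ℕ) : K' p) 0 1
      rw [Nat.cast_zero, ex]
    | succ i ih =>
      rw [pow_succ', Equiv.Perm.mul_apply, ih, step]
      apply Subtype.ext
      change q f zz cc xx ((i : K' p) + 1) 0 1 = q f zz cc xx ((i + 1 : ℕ) : K' p) 0 1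
      rw [Nat.cast_succ]
  rw [iter p]
  apply Subtype.ext
  change q f zz cc xx ((p : ℕ) : K' p) 0 1 = x.1
  rw [← ex]
  congr 1
  exact ZMod.natCast_self p

theorem geoI_pg (p : ℕ) [Fact p.Prime] (hp : p ≠ 2)
    (h : ∀ a b c d : P, Quadrangle L a b c d → ∃ (S : Set P) (T : Set L),
      IsGeneratedBy S T a b c d ∧ IsPG S T p) : GeoI P L := by
  intro V A B C a b c j hCa hCb hAb hAc hBc hBa hVa hVb hVc hVj hAa hBb hCc hAj hBj hCj
  have f1 := eta_fix V A B C a b c hCa hCb hAb hAc hBc hBa hVa hVb hVc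
  have f2 := eta_fix' A B C a b c j hCa hCb hAb hAc hBc hBa hAa hBb hCc hAj hBj hCj
  have hVA : V ≠ A := fun h => hVj (h ▸ hAj)
  have hVC : V ≠ C := fun h => hVj (h ▸ hCj)
  have hVB : V ≠ B := fun h => hVj (h ▸ hBj)
  have hAC : A ≠ C := fun h => hCa (h ▸ hAa)
  have hjb : j ≠ b := fun h => hVj (h ▸ hVb)
  have main : ∀ x : {x : P // x ∈ a}, x.1 ≠ V → x.1 ≠ A →
      eta A B C a b c hCa hCb hAb hAc hBc hBa (eta A B C a b c hCa hCb hAb hAc hBc hBa x) = x ∧
      eta A B C a b c hCa hCb hAb hAc hBc hBa x ≠ x := by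
    intro x hxV hxA
    obtain ⟨m, m1, m2, m3, hQ⟩ := eta_quad hCa hCb hAb hAc hBc hBa hVa hVb hVc hVj hAa hBb hCc
      hAj hBj hCj x hxV hxA
    set D := persp C a b hCa hCb x with hD
    obtain ⟨S, T, ⟨hS, ⟨hVS, hAS, hCS, hDS⟩, -⟩, f, g, hfS, hgT, hinc⟩ := h V A C D.1 hQ
    have hf : Coord f g := ⟨hinc⟩
    rw [← hfS] at hVS hAS hCS hDS
    obtain ⟨zz, cc, xx, hdt, ez, ec, ex, ey⟩ := frame hf hVS hAS hCS hDS hQ
    rw [← q_z zz cc xx] at ez
    rw [← q_c zz cc xx] at ec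
    rw [← q_x zz cc xx] at ex
    rw [← q_y zz cc xx] at ey
    have hDV : V ≠ D.1 := by
      intro h'
      obtain ⟨r, r1, r2⟩ := exists_line_two (L := L) V A hVA
      exact (hQ r).2.1 ⟨r1, r2, h' ▸ r1⟩
    have hCD : C ≠ D.1 := fun h => hCb (h ▸ D.2)
    have hma : m ≠ a := fun h => hCa (h ▸ m1)
    have two : (2 : ZMod p) ≠ 0 := by
      intro h2
      have h3 : ((2 : ℕ) : ZMod p) = 0 := by exact_mod_cast h2
      rw [ZMod.natCast_eq_zero_iff] at h3
      exact hp ((Nat.prime_dvd_prime_iff_eq (Fact.out) Nat.prime_two).1 h3)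
    -- the point `B`
    have eB : q f zz cc xx 0 1 1 = B := by
      obtain ⟨r, r1, r2, r3⟩ := q_col (L := L) hf hdt (a1 := 0) (b1 := 1) (d1 := 0) (a2 := 0)
        (b2 := 0) (d2 := 1) (a3 := 0) (b3 := 1) (d3 := 1) 1 1 (by simp) (by simp) (by simp)
        (by simp) (by simp) (by simp)
      obtain ⟨r', r1', r2', r3'⟩ := q_col (L := L) hf hdt (a1 := 1) (b1 := 0) (d1 := 0)
        (a2 := 1) (b2 := 1) (d2 := 1) (a3 := 0) (b3 := 1) (d3 := 1) (-1) 1 (by simp) (by simp)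
        (by simp) (by simp) (by simp) (by simp)
      rw [ec] at r1
      rw [ex] at r2
      rw [ez] at r1'
      rw [ey] at r2'
      rw [line_unique hAC r1 r2 hAj hCj] at r3
      rw [line_unique hDV r1' r2' hVb D.2] at r3'
      exact point_unique hjb r3 hBj r3' hBb
    have eX : ∀ t : K' p, q f zz cc xx 1 t 0 ∈ a := by
      intro t
      obtain ⟨r, r1, r2, r3⟩ := q_col (L := L) hf hdt (a1 := 1) (b1 := 0) (d1 := 0) (a2 := 0)
        (b2 := 1) (d2 := 0) (a3 := 1) (b3 := t) (d3 := 0) 1 t (by simp) (by simp) (by simp)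
        (by simp) (by simp) (by simp)
      rw [ez] at r1
      rw [ec] at r2
      rwa [line_unique hVA r1 r2 hVa hAa] at r3
    have eD : ∀ t : K' p, q f zz cc xx 1 t t ∈ b := by
      intro t
      obtain ⟨r, r1, r2, r3⟩ := q_col (L := L) hf hdt (a1 := 1) (b1 := 0) (d1 := 0) (a2 := 0)
        (b2 := 1) (d2 := 1) (a3 := 1) (b3 := t) (d3 := t) 1 t (by simp) (by simp) (by simp)
        (by simp) (by simp) (by simp)
      rw [ez] at r1
      rw [eB] at r2
      rwa [line_unique hVB r1 r2 hVb hBb] at r3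
    have eF : ∀ t : K' p, q f zz cc xx 1 0 t ∈ c := by
      intro t
      obtain ⟨r, r1, r2, r3⟩ := q_col (L := L) hf hdt (a1 := 1) (b1 := 0) (d1 := 0) (a2 := 0)
        (b2 := 0) (d2 := 1) (a3 := 1) (b3 := 0) (d3 := t) 1 t (by simp) (by simp) (by simp)
        (by simp) (by simp) (by simp)
      rw [ez] at r1
      rw [ex] at r2
      rwa [line_unique hVC r1 r2 hVc hCc] at r3
    have step : ∀ t : K' p, eta A B C a b c hCa hCb hAb hAc hBc hBa
        ⟨q f zz cc xx 1 t 0, eX t⟩ = ⟨q f zz cc xx 1 (-t) 0, eX (-t)⟩ := by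
      intro t
      unfold eta
      rw [Equiv.trans_apply, Equiv.trans_apply]
      have s1 : persp C a b hCa hCb ⟨q f zz cc xx 1 t 0, eX t⟩ =
          ⟨q f zz cc xx 1 t t, eD t⟩ := by
        obtain ⟨r, r1, r2, r3⟩ := q_col (L := L) hf hdt (a1 := 0) (b1 := 0) (d1 := 1) (a2 := 1)
          (b2 := t) (d2 := 0) (a3 := 1) (b3 := t) (d3 := t) t 1 (by simp) (by simp) (by simp)
          (by ring) (by ring) (by ring)
        rw [ex] at r1
        exact persp_eq C a b hCa hCb _ _ r r1 r2 r3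
      have s2 : persp A b c hAb hAc ⟨q f zz cc xx 1 t t, eD t⟩ =
          ⟨q f zz cc xx 1 0 t, eF t⟩ := by
        obtain ⟨r, r1, r2, r3⟩ := q_col (L := L) hf hdt (a1 := 0) (b1 := 1) (d1 := 0) (a2 := 1)
          (b2 := t) (d2 := t) (a3 := 1) (b3 := 0) (d3 := t) (-t) 1 (by simp) (by simp) (by simp)
          (by ring) (by ring) (by ring)
        rw [ec] at r1
        exact persp_eq A b c hAb hAc _ _ r r1 r2 r3
      have s3 : persp B c a hBc hBa ⟨q f zz cc xx 1 0 t, eF t⟩ =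
          ⟨q f zz cc xx 1 (-t) 0, eX (-t)⟩ := by
        obtain ⟨r, r1, r2, r3⟩ := q_col (L := L) hf hdt (a1 := 0) (b1 := 1) (d1 := 1) (a2 := 1)
          (b2 := 0) (d2 := t) (a3 := 1) (b3 := -t) (d3 := 0) (-t) 1 (by simp) (by simp)
          (by simp) (by ring) (by ring) (by ring)
        rw [eB] at r1
        exact persp_eq B c a hBc hBa _ _ r r1 r2 r3
      rw [s1, s2, s3]
    -- `x` has parameter `1`
    have hx : x = ⟨q f zz cc xx 1 1 0, eX 1⟩ := by
      apply Subtype.ext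
      obtain ⟨r, r1, r2, r3⟩ := q_col (L := L) hf hdt (a1 := 0) (b1 := 0) (d1 := 1) (a2 := 1)
        (b2 := 1) (d2 := 1) (a3 := 1) (b3 := 1) (d3 := 0) (-1) 1 (by simp) (by simp) (by simp)
        (by ring) (by ring) (by ring)
      rw [ex] at r1
      rw [ey] at r2
      rw [line_unique hCD r1 r2 m1 m3] at r3
      exact point_unique hma m2 r3 x.2 (eX 1)
    constructor
    · rw [hx, step, step]
      apply Subtype.ext
      change q f zz cc xx 1 (- -1) 0 = q f zz cc xx 1 1 0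
      rw [neg_neg]
    · rw [hx, step]
      intro h'
      have h2 : q f zz cc xx 1 (-1) 0 = q f zz cc xx 1 1 0 := congrArg Subtype.val h'
      obtain ⟨s, hs1, hs2, -⟩ := q_inj hf hdt (by simp) (by simp) h2
      rw [mul_one] at hs1
      rw [hs1, one_mul] at hs2
      apply two
      linear_combination -hs2
  refine ⟨?_, ?_⟩
  · intro x
    by_cases hxV : x.1 = V
    · have : x = ⟨V, hVa⟩ := Subtype.ext hxV
      rw [this, f1, f1]
    by_cases hxA : x.1 = A
    · have : x = ⟨A, hAa⟩ := Subtype.ext hxA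
      rw [this, f2, f2]
    exact (main x hxV hxA).1
  · intro x hx
    by_contra hcon
    push Not at hcon
    exact (main x hcon.1 hcon.2).2 hx

end main

end P994e17
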