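import Mathlib

set_option autoImplicit false

/-! Perspectivities of a finite projective plane and their signs. -/

namespace P994e17

open Configuration Configuration.ProjectivePlane

section basic

variable {P L : Type*} [Membership P L]

theorem line_unique [Nondegenerate P L] {a b : P} {l k : L} (hab : a ≠ b) (h1 : a ∈ l)
    (h2 : b ∈ l) (h3 : a ∈ k) (h4 : b ∈ k) : l = k := by
  rcases Nondegenerate.eq_or_eq h1 h2 h3 h4 with h | h
  · exact absurd h hab
  · exact h

theorem point_unique [Nondegenerate P L] {a b : P} {l k : L} (hlk : l ≠ k) (h1 : a ∈ l)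
    (h2 : b ∈ l) (h3 : a ∈ k) (h4 : b ∈ k) : a = b := by
  rcases Nondegenerate.eq_or_eq h1 h2 h3 h4 with h | h
  · exact h
  · exact absurd h hlk

variable [ProjectivePlane P L]

theorem exists_line_two (a b : P) (hab : a ≠ b) : ∃ l : L, a ∈ l ∧ b ∈ l :=
  ⟨HasLines.mkLine hab, HasLines.mkLine_ax hab⟩

theorem exists_meet (l k : L) (h : l ≠ k) : ∃ a : P, a ∈ l ∧ a ∈ k :=
  ⟨HasPoints.mkPoint h, HasPoints.mkPoint_ax h⟩

omit [ProjectivePlane P L] in
theorem ne_of_mem_not {a b : P} {l : L} (ha : a ∈ l) (hb : b ∉ l) : b ≠ a :=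
  fun h => hb (h ▸ ha)

theorem persp_ex (B : P) (l k : L) (hl : B ∉ l) (x : {x : P // x ∈ l}) (hk : B ∉ k) :
    ∃ y : {y : P // y ∈ k}, ∃ m : L, B ∈ m ∧ x.1 ∈ m ∧ y.1 ∈ m := by
  obtain ⟨m, hB, hx⟩ := exists_line_two (L := L) B x.1 (ne_of_mem_not x.2 hl)
  obtain ⟨y, hy1, hy2⟩ := exists_meet (P := P) m k (fun h => hk (h ▸ hB))
  exact ⟨⟨y, hy2⟩, m, hB, hx, hy1⟩

theorem persp_uniq (B : P) (l k : L) (hl : B ∉ l) (hk : B ∉ k) (x : {x : P // x ∈ l})
    (y y' : {y : P // y ∈ k}) (h : ∃ m : L, B ∈ m ∧ x.1 ∈ m ∧ y.1 ∈ m)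
    (h' : ∃ m : L, B ∈ m ∧ x.1 ∈ m ∧ y'.1 ∈ m) : y = y' := by
  obtain ⟨m, h1, h2, h3⟩ := h
  obtain ⟨m', h1', h2', h3'⟩ := h'
  have hm : m = m' := line_unique (ne_of_mem_not x.2 hl) h1 h2 h1' h2'
  subst hm
  exact Subtype.ext (point_unique (l := m) (k := k) (fun h => hk (h ▸ h1)) h3 h3' y.2 y'.2)

/-- the perspectivity with centre `B` from the line `l` to the line `k` -/
noncomputable def persp (B : P) (l k : L) (hl : B ∉ l) (hk : B ∉ k) :
    {x : P // x ∈ l} ≃ {x : P // x ∈ k} where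
  toFun x := (persp_ex B l k hl x hk).choose
  invFun y := (persp_ex B k l hk y hl).choose
  left_inv x := by
    have h1 := (persp_ex B l k hl x hk).choose_spec
    have h2 := (persp_ex B k l hk (persp_ex B l k hl x hk).choose hl).choose_spec
    refine persp_uniq B k l hk hl _ _ _ h2 ?_
    obtain ⟨m, a, b, c⟩ := h1
    exact ⟨m, a, c, b⟩
  right_inv x := by
    have h1 := (persp_ex B k l hk x hl).choose_spec
    have h2 := (persp_ex B l k hl (persp_ex B k l hk x hl).choose hk).choose_spec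
    refine persp_uniq B l k hl hk _ _ _ h2 ?_
    obtain ⟨m, a, b, c⟩ := h1
    exact ⟨m, a, c, b⟩

theorem persp_spec (B : P) (l k : L) (hl : B ∉ l) (hk : B ∉ k) (x : {x : P // x ∈ l}) :
    ∃ m : L, B ∈ m ∧ x.1 ∈ m ∧ (persp B l k hl hk x).1 ∈ m :=
  (persp_ex B l k hl x hk).choose_spec

theorem persp_iff (B : P) (l k : L) (hl : B ∉ l) (hk : B ∉ k) (x : {x : P // x ∈ l})
    (y : {y : P // y ∈ k}) :
    persp B l k hl hk x = y ↔ ∃ m : L, B ∈ m ∧ x.1 ∈ m ∧ y.1 ∈ m := by
  constructor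
  · rintro rfl
    exact persp_spec B l k hl hk x
  · intro h
    exact persp_uniq B l k hl hk x _ _ (persp_spec B l k hl hk x) h

theorem persp_eq (B : P) (l k : L) (hl : B ∉ l) (hk : B ∉ k) (x : {x : P // x ∈ l})
    (y : {y : P // y ∈ k}) (m : L) (h1 : B ∈ m) (h2 : x.1 ∈ m) (h3 : y.1 ∈ m) :
    persp B l k hl hk x = y := (persp_iff B l k hl hk x y).2 ⟨m, h1, h2, h3⟩

theorem persp_symm (B : P) (l k : L) (hl : B ∉ l) (hk : B ∉ k) :
    (persp B l k hl hk).symm = persp B k l hk hl := by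
  ext x
  have := persp_spec B k l hk hl x
  obtain ⟨m, h1, h2, h3⟩ := this
  have h4 : persp B l k hl hk (persp B k l hk hl x) = x :=
    persp_eq B l k hl hk _ _ m h1 h3 h2
  rw [Equiv.symm_apply_eq _ |>.2 h4.symm]

theorem persp_trans (B : P) (l k j : L) (hl : B ∉ l) (hk : B ∉ k) (hj : B ∉ j) :
    (persp B l k hl hk).trans (persp B k j hk hj) = persp B l j hl hj := by
  ext x
  congr 1
  symm
  rw [Equiv.trans_apply]
  obtain ⟨m, h1, h2, h3⟩ := persp_spec B l k hl hk x
  obtain ⟨m', h1', h2', h3'⟩ := persp_spec B k j hk hj (persp B l k hl hk x)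
  have hm : m = m' := line_unique (ne_of_mem_not (persp B l k hl hk x).2 hk) h1 h3 h1' h2'
  subst hm
  exact persp_eq B l j hl hj _ _ m h1 h2 h3'

theorem persp_refl (B : P) (l : L) (hl hl' : B ∉ l) :
    persp B l l hl hl' = Equiv.refl _ := by
  ext x
  congr 1
  obtain ⟨m, h1, h2⟩ := exists_line_two (L := L) B x.1 (ne_of_mem_not x.2 hl)
  exact persp_eq B l l hl hl' _ _ m h1 h2 h2

/-- a common point of the two lines is fixed -/
theorem persp_fix (B : P) (l k : L) (hl : B ∉ l) (hk : B ∉ k) (x : {x : P // x ∈ l})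
    (hx : x.1 ∈ k) : persp B l k hl hk x = ⟨x.1, hx⟩ := by
  obtain ⟨m, h1, h2⟩ := exists_line_two (L := L) B x.1 (ne_of_mem_not x.2 hl)
  exact persp_eq B l k hl hk _ _ m h1 h2 h2

end basic

section sign

variable {P L : Type*} [Membership P L] [ProjectivePlane P L] [Fintype P] [Fintype L]

theorem card_pts (l : L) : Nat.card {x : P // x ∈ l} = order P L + 1 := by
  rw [← pointCount_eq P l, pointCount]

/-- a numbering of the points of a line -/
noncomputable def om (l : L) : {x : P // x ∈ l} ≃ Fin (order P L + 1) :=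
  Finite.equivFinOfCardEq (card_pts l)

/-- the sign of a bijection between two lines, with respect to the fixed numberings -/
noncomputable def sg {l k : L} (e : {x : P // x ∈ l} ≃ {x : P // x ∈ k}) : ℤˣ :=
  Equiv.Perm.sign (((om l).symm.trans e).trans (om k))

theorem sg_trans {l k j : L} (e : {x : P // x ∈ l} ≃ {x : P // x ∈ k})
    (f : {x : P // x ∈ k} ≃ {x : P // x ∈ j}) : sg (e.trans f) = sg e * sg f := by
  unfold sg
  rw [mul_comm, ← Equiv.Perm.sign_mul]
  congr 1
  ext x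
  simp

theorem sg_perm {l : L} [DecidableEq {x : P // x ∈ l}] [Fintype {x : P // x ∈ l}]
    (e : Equiv.Perm {x : P // x ∈ l}) : sg e = Equiv.Perm.sign e := by
  unfold sg
  rw [Equiv.Perm.sign_symm_trans_trans]

theorem sg_refl (l : L) : sg (Equiv.refl {x : P // x ∈ l}) = 1 := by
  classical
  rw [sg_perm]
  simp

open Classical in
/-- the sign of the perspectivity with centre `B` from `l` to `k` -/
noncomputable def s (B : P) (l k : L) : ℤˣ :=
  if h : B ∉ l ∧ B ∉ k then sg (persp B l k h.1 h.2) else 1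

theorem s_def (B : P) (l k : L) (hl : B ∉ l) (hk : B ∉ k) :
    s B l k = sg (persp B l k hl hk) := by
  unfold s
  rw [dif_pos ⟨hl, hk⟩]

theorem s_trans (B : P) (l k j : L) (hl : B ∉ l) (hk : B ∉ k) (hj : B ∉ j) :
    s B l k * s B k j = s B l j := by
  rw [s_def B l k hl hk, s_def B k j hk hj, s_def B l j hl hj, ← sg_trans, persp_trans]

theorem s_self (B : P) (l : L) : s B l l = 1 := by
  unfold s
  split_ifs with h
  · rw [persp_refl, sg_refl]
  · rfl

theorem s_symm (B : P) (l k : L) : s B l k = s B k l := by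
  by_cases h : B ∉ l ∧ B ∉ k
  · have h1 := s_trans B l k l h.1 h.2 h.1
    rw [s_self] at h1
    have h2 : s B l k = (s B k l)⁻¹ := eq_inv_of_mul_eq_one_left h1
    rw [h2, Int.units_inv_eq_self]
  · unfold s
    rw [dif_neg h, dif_neg (fun h' => h ⟨h'.2, h'.1⟩)]

end sign

end P994e17
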