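import Pool.Agent.P994e17.Geo

set_option autoImplicit false

/-! Quadrangles and subplanes. -/

namespace P994e17

open Configuration Configuration.ProjectivePlane

/-- Four points, no three of them on a common line. -/
def Quadrangle {P : Type*} (L : Type*) [Membership P L] (a b c d : P) : Prop :=
  ∀ l : L, ¬ (a ∈ l ∧ b ∈ l ∧ c ∈ l) ∧ ¬ (a ∈ l ∧ b ∈ l ∧ d ∈ l) ∧
    ¬ (a ∈ l ∧ c ∈ l ∧ d ∈ l) ∧ ¬ (b ∈ l ∧ c ∈ l ∧ d ∈ l)

/-- A set `S` of points and a set `T` of lines which form a projective plane under the inherited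
incidence. -/
structure IsSubplane {P L : Type*} [Membership P L] (S : Set P) (T : Set L) : Prop where
  join : ∀ a ∈ S, ∀ b ∈ S, a ≠ b → ∃ l ∈ T, a ∈ l ∧ b ∈ l
  meet : ∀ l ∈ T, ∀ k ∈ T, l ≠ k → ∃ a ∈ S, a ∈ l ∧ a ∈ k
  quad : ∃ a ∈ S, ∃ b ∈ S, ∃ c ∈ S, ∃ d ∈ S, Quadrangle L a b c d

/-- `(S, T)` is the smallest subplane containing the four points `a, b, c, d`. -/
def IsGeneratedBy {P L : Type*} [Membership P L] (S : Set P) (T : Set L) (a b c d : P) : Prop :=
  IsSubplane S T ∧ (a ∈ S ∧ b ∈ S ∧ c ∈ S ∧ d ∈ S) ∧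
    ∀ (S' : Set P) (T' : Set L), IsSubplane S' T' → a ∈ S' → b ∈ S' → c ∈ S' → d ∈ S' →
      S ⊆ S' ∧ T ⊆ T'

/-- every line of the subplane `(S, T)` carries exactly `m + 1` of its points. -/
def HasOrder {P L : Type*} [Membership P L] (S : Set P) (T : Set L) (m : ℕ) : Prop :=
  ∀ l ∈ T, {x | x ∈ S ∧ x ∈ l}.ncard = m + 1

open scoped LinearAlgebra.Projectivization in
/-- the subplane `(S, T)` is isomorphic to `PG(2, p)`: points and lines of the latter are the
one-dimensional subspaces of `F_p ^ 3`, a point is on a line if they are orthogonal. -/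
def IsPG {P L : Type*} [Membership P L] (S : Set P) (T : Set L) (p : ℕ) [Fact p.Prime] : Prop :=
  ∃ (f : ℙ (ZMod p) (Fin 3 → ZMod p) → P) (g : ℙ (ZMod p) (Fin 3 → ZMod p) → L),
    Set.range f = S ∧ Set.range g = T ∧ ∀ u w, f u ∈ g w ↔ u.orthogonal w

end P994e17
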