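import Pool.Agent.P994e17.Sub

set_option autoImplicit false

/-! Properties (E) and (I) for planes in which every quadrangle generates a subplane of order 3. -/

namespace P994e17

open Configuration Configuration.ProjectivePlane

theorem no_five {α : Type*} {W : Set α} (hW : W.ncard = 4) {a b c d e : α} (ha : a ∈ W)
    (hb : b ∈ W) (hc : c ∈ W) (hd : d ∈ W) (he : e ∈ W) (hab : a ≠ b) (hac : a ≠ c)
    (had : a ≠ d) (hae : a ≠ e) (hbc : b ≠ c) (hbd : b ≠ d) (hbe : b ≠ e) (hcd : c ≠ d)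
    (hce : c ≠ e) (hde : d ≠ e) : False := by
  classical
  have hfin : W.Finite := Set.finite_of_ncard_ne_zero (by rw [hW]; norm_num)
  have h1 : (({a, b, c, d, e} : Finset α) : Set α) ⊆ W := by
    intro x hx
    simp only [Finset.coe_insert, Finset.coe_singleton, Set.mem_insert_iff,
      Set.mem_singleton_iff] at hx
    rcases hx with rfl | rfl | rfl | rfl | rfl <;> assumption
  have h2 := Set.ncard_le_ncard h1 hfin
  rw [Set.ncard_coe_finset, hW] at h2
  have h3 : ({a, b, c, d, e} : Finset α).card = 5 := by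
    rw [Finset.card_insert_of_notMem, Finset.card_insert_of_notMem,
      Finset.card_insert_of_notMem, Finset.card_pair hde]
    · simp [hcd, hce]
    · simp [hbc, hbd, hbe]
    · simp [hab, hac, had, hae]
  omega

theorem exists_fourth {α : Type*} {W : Set α} (hW : W.ncard = 4) (a b c : α) :
    ∃ d ∈ W, d ≠ a ∧ d ≠ b ∧ d ≠ c := by
  classical
  by_contra hcon
  push Not at hcon
  have h1 : W ⊆ (({a, b, c} : Finset α) : Set α) := by
    intro x hx
    simp only [Finset.coe_insert, Finset.coe_singleton, Set.mem_insert_iff,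
      Set.mem_singleton_iff]
    by_cases h1 : x = a
    · exact Or.inl h1
    by_cases h2 : x = b
    · exact Or.inr (Or.inl h2)
    · exact Or.inr (Or.inr (hcon x hx h1 h2))
  have h2 := Set.ncard_le_ncard h1 (Finset.finite_toSet _)
  rw [Set.ncard_coe_finset, hW] at h2
  have h3 := Finset.card_le_three (a := a) (b := b) (c := c)
  omega

/-- a permutation of a set of 4 elements with a single fixed point is a 3-cycle -/
theorem three_cycle {α : Type*} {W : Set α} (hW : W.ncard = 4) (F : Equiv.Perm α)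
    (hF : ∀ x ∈ W, F x ∈ W) {z : α} (hz : z ∈ W) (hFz : F z = z)
    (hfix : ∀ x ∈ W, F x = x → x = z) {x : α} (hx : x ∈ W) : F (F (F x)) = x := by
  by_cases hxz : x = z
  · subst hxz
    rw [hFz, hFz, hFz]
  have n1 : F x ≠ x := fun h => hxz (hfix x hx h)
  have hz' : ∀ {y}, y ≠ z → F y ≠ z := fun h h' => h (F.injective (h'.trans hFz.symm))
  have i' : ∀ {y w}, y ≠ w → F y ≠ F w := fun h h' => h (F.injective h')
  have n2 : F (F x) ≠ x := by
    intro h
    obtain ⟨w, hw, w1, w2, w3⟩ := exists_fourth hW z x (F x)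
    have hw' : F w ≠ w := fun h => w1 (hfix w hw h)
    refine no_five hW hz hx (hF x hx) hw (hF w hw) (Ne.symm hxz) (hz' hxz).symm w1.symm
      (hz' w1).symm n1.symm w2.symm ?_ w3.symm (i' w2).symm hw'.symm
    intro h'
    exact w3 (F.injective (h'.symm.trans h.symm))
  by_contra n3
  exact no_five hW hz hx (hF x hx) (hF _ (hF x hx)) (hF _ (hF _ (hF x hx))) (Ne.symm hxz)
    (hz' hxz).symm (hz' (hz' hxz)).symm (hz' (hz' (hz' hxz))).symm n1.symm n2.symm
    (Ne.symm n3) (i' n1).symm (i' n2).symm (i' (i' n1)).symm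

section sub

variable {P L : Type*} [Membership P L] [ProjectivePlane P L] {S : Set P} {T : Set L}

theorem mem_T (hS : IsSubplane S T) {a b : P} {l : L} (ha : a ∈ S) (hb : b ∈ S) (hab : a ≠ b)
    (hal : a ∈ l) (hbl : b ∈ l) : l ∈ T := by
  obtain ⟨k, hk, h1, h2⟩ := hS.join a ha b hb hab
  rwa [line_unique hab hal hbl h1 h2]

theorem mem_S (hS : IsSubplane S T) {a : P} {l k : L} (hl : l ∈ T) (hk : k ∈ T) (hlk : l ≠ k)
    (hal : a ∈ l) (hak : a ∈ k) : a ∈ S := by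
  obtain ⟨b, hb, h1, h2⟩ := hS.meet l hl k hk hlk
  rwa [point_unique hlk hal h1 hak h2]

theorem persp_mem (hS : IsSubplane S T) {B : P} {l k : L} (hB : B ∈ S) (hk : k ∈ T)
    (hBl : B ∉ l) (hBk : B ∉ k) {x : {x : P // x ∈ l}} (hx : x.1 ∈ S) :
    (persp B l k hBl hBk x).1 ∈ S := by
  obtain ⟨m, h1, h2, h3⟩ := persp_spec B l k hBl hBk x
  exact mem_S hS (mem_T hS hB hx (ne_of_mem_not x.2 hBl) h1 h2) hk
    (fun h => hBk (h ▸ h1)) h3 (persp B l k hBl hBk x).2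

omit [ProjectivePlane P L] in
theorem ncard_line {m : ℕ} (hO : HasOrder S T m) {l : L} (hl : l ∈ T) :
    {x : {x : P // x ∈ l} | x.1 ∈ S}.ncard = m + 1 := by
  rw [← hO l hl]
  have : {x : P | x ∈ S ∧ x ∈ l} = Subtype.val '' {x : {x : P // x ∈ l} | x.1 ∈ S} := by
    ext x
    simp only [Set.mem_ofPred_eq, Set.mem_image, Subtype.exists, exists_and_right,
      exists_eq_right]
    constructor
    · rintro ⟨h1, h2⟩
      exact ⟨h2, h1⟩
    · rintro ⟨h1, h2⟩
      exact ⟨h2, h1⟩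
  rw [this, Set.ncard_image_of_injective _ Subtype.val_injective]

/-- the map of (E) fixes only `V` -/
theorem tau_fix_only {B C V : P} {l k j : L} (hBl : B ∉ l) (hBk : B ∉ k) (hCl : C ∉ l)
    (hCk : C ∉ k) (hBC : B ≠ C) (hlk : l ≠ k) (hVl : V ∈ l) (hVk : V ∈ k) (hVj : V ∈ j)
    (hBj : B ∈ j) (hCj : C ∈ j) :
    ∀ x, tau B C l k hBl hBk hCl hCk x = x → x.1 = V := by
  intro x hx
  have hjl : j ≠ l := fun h => hBl (h ▸ hBj)
  by_contra hxV
  obtain ⟨m, m1, m2, m3⟩ := persp_spec B l k hBl hBk x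
  obtain ⟨r, r1, r2, r3⟩ := persp_spec C k l hCk hCl (persp B l k hBl hBk x)
  have hx' : persp C k l hCk hCl (persp B l k hBl hBk x) = x := hx
  rw [hx'] at r3
  have hxk : x.1 ∉ k := not_mem_of_ne hVl x.2 hVk hlk.symm hxV
  have hne : x.1 ≠ (persp B l k hBl hBk x).1 :=
    fun h => hxk (h ▸ (persp B l k hBl hBk x).2)
  have hmr : m = r := line_unique hne m2 m3 r3 r2
  subst hmr
  have hmj : m = j := line_unique hBC m1 r1 hBj hCj
  subst hmj
  exact hxV (point_unique hjl m2 hVj x.2 hVl)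

/-- the quadrangle `V, C, X, Y` of (E) -/
theorem tau_quad {B C V : P} {l k j : L} (hBl : B ∉ l) (hBk : B ∉ k) (hCl : C ∉ l)
    (_ : C ∉ k) (hBC : B ≠ C) (hlk : l ≠ k) (hVl : V ∈ l) (hVk : V ∈ k) (hVj : V ∈ j)
    (hBj : B ∈ j) (hCj : C ∈ j) (x : {x : P // x ∈ l}) (hxV : x.1 ≠ V) :
    ∃ m : L, B ∈ m ∧ x.1 ∈ m ∧ (persp B l k hBl hBk x).1 ∈ m ∧
      Quadrangle L V C x.1 (persp B l k hBl hBk x).1 := by
  have hCV : C ≠ V := fun h => hCl (h ▸ hVl)
  have hjl : j ≠ l := fun h => hBl (h ▸ hBj)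
  have hjk : j ≠ k := fun h => hBk (h ▸ hBj)
  obtain ⟨m, m1, m2, m3⟩ := persp_spec B l k hBl hBk x
  refine ⟨m, m1, m2, m3, ?_⟩
  set y := persp B l k hBl hBk x with hy
  have hxk : x.1 ∉ k := not_mem_of_ne hVl x.2 hVk hlk.symm hxV
  have hxy : x.1 ≠ y.1 := fun h => hxk (h ▸ y.2)
  have hyV : y.1 ≠ V := by
    intro h
    have h1 : y = ⟨V, hVk⟩ := Subtype.ext h
    rw [← persp_fix B l k hBl hBk ⟨V, hVl⟩ hVk, hy] at h1
    exact hxV (congrArg Subtype.val ((persp B l k hBl hBk).injective h1))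
  have hyl : y.1 ∉ l := not_mem_of_ne hVk y.2 hVl hlk hyV
  have hxj : x.1 ∉ j := not_mem_of_ne hVl x.2 hVj hjl hxV
  have hyj : y.1 ∉ j := not_mem_of_ne hVk y.2 hVj hjk hyV
  have hmj : m ≠ j := fun h => hxj (h ▸ m2)
  have hCm : C ∉ m := not_mem_of_ne hBj hCj m1 hmj (Ne.symm hBC)
  intro r
  refine ⟨?_, ?_, ?_, ?_⟩
  · rintro ⟨h1, h2, h3⟩
    exact hxj (line_unique hCV h2 h1 hCj hVj ▸ h3)
  · rintro ⟨h1, h2, h3⟩
    exact hyj (line_unique hCV h2 h1 hCj hVj ▸ h3)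
  · rintro ⟨h1, h2, h3⟩
    exact hyl (line_unique hxV h2 h1 x.2 hVl ▸ h3)
  · rintro ⟨h1, h2, h3⟩
    exact hCm (line_unique hxy h2 h3 m2 m3 ▸ h1)

/-- the quadrangle `V, A, C, D` of (I) -/
theorem eta_quad {V A B C : P} {a b c j : L} (hCa : C ∉ a) (hCb : C ∉ b) (hAb : A ∉ b)
    (_ : A ∉ c) (hBc : B ∉ c) (_ : B ∉ a) (hVa : V ∈ a) (hVb : V ∈ b) (hVc : V ∈ c)
    (hVj : V ∉ j) (hAa : A ∈ a) (hBb : B ∈ b) (hCc : C ∈ c) (hAj : A ∈ j) (hBj : B ∈ j)
    (hCj : C ∈ j) (x : {x : P // x ∈ a}) (hxV : x.1 ≠ V) (hxA : x.1 ≠ A) :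
    ∃ m : L, C ∈ m ∧ x.1 ∈ m ∧ (persp C a b hCa hCb x).1 ∈ m ∧
      Quadrangle L V A C (persp C a b hCa hCb x).1 := by
  have hab : a ≠ b := fun h => hAb (h ▸ hAa)
  have hbc : b ≠ c := fun h => hBc (h ▸ hBb)
  have hVA : V ≠ A := fun h => hVj (h ▸ hAj)
  have hVC : V ≠ C := fun h => hVj (h ▸ hCj)
  have hAC : A ≠ C := fun h => hCa (h ▸ hAa)
  have hjb : j ≠ b := fun h => hVj (h ▸ hVb)
  obtain ⟨m, m1, m2, m3⟩ := persp_spec C a b hCa hCb x
  refine ⟨m, m1, m2, m3, ?_⟩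
  set D := persp C a b hCa hCb x with hD
  have hDV : D.1 ≠ V := by
    intro h
    have h1 : D = ⟨V, hVb⟩ := Subtype.ext h
    rw [← persp_fix C a b hCa hCb ⟨V, hVa⟩ hVb, hD] at h1
    exact hxV (congrArg Subtype.val ((persp C a b hCa hCb).injective h1))
  have hDB : D.1 ≠ B := by
    intro h
    have h1 : D = ⟨B, hBb⟩ := Subtype.ext h
    rw [← persp_eq C a b hCa hCb ⟨A, hAa⟩ ⟨B, hBb⟩ j hCj hAj hBj, hD] at h1
    exact hxA (congrArg Subtype.val ((persp C a b hCa hCb).injective h1))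
  have hDa : D.1 ∉ a := not_mem_of_ne hVb D.2 hVa hab hDV
  have hDc : D.1 ∉ c := not_mem_of_ne hVb D.2 hVc hbc.symm hDV
  have hDj : D.1 ∉ j := not_mem_of_ne hBb D.2 hBj hjb hDB
  intro r
  refine ⟨?_, ?_, ?_, ?_⟩
  · rintro ⟨h1, h2, h3⟩
    exact hCa (line_unique hVA h1 h2 hVa hAa ▸ h3)
  · rintro ⟨h1, h2, h3⟩
    exact hDa (line_unique hVA h1 h2 hVa hAa ▸ h3)
  · rintro ⟨h1, h2, h3⟩
    exact hDc (line_unique hVC h1 h2 hVc hCc ▸ h3)
  · rintro ⟨h1, h2, h3⟩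
    exact hDj (line_unique hAC h1 h2 hAj hCj ▸ h3)

theorem geoE_three (h : ∀ a b c d : P, Quadrangle L a b c d → ∃ (S : Set P) (T : Set L),
    IsGeneratedBy S T a b c d ∧ HasOrder S T 3) : GeoE P L 3 := by
  intro B C V l k j hBl hBk hCl hCk hBC hlk hVl hVk hVj hBj hCj
  have hBV : B ≠ V := fun h => hBl (h ▸ hVl)
  have hCV : C ≠ V := fun h => hCl (h ▸ hVl)
  have hjl : j ≠ l := fun h => hBl (h ▸ hBj)
  have hjk : j ≠ k := fun h => hBk (h ▸ hBj)
  -- fixed points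
  have hfix : ∀ x, tau B C l k hBl hBk hCl hCk x = x → x.1 = V := by
    intro x hx
    by_contra hxV
    obtain ⟨m, m1, m2, m3⟩ := persp_spec B l k hBl hBk x
    obtain ⟨r, r1, r2, r3⟩ := persp_spec C k l hCk hCl (persp B l k hBl hBk x)
    have hx' : persp C k l hCk hCl (persp B l k hBl hBk x) = x := hx
    rw [hx'] at r3
    have hxk : x.1 ∉ k := not_mem_of_ne hVl x.2 hVk hlk.symm hxV
    have hne : x.1 ≠ (persp B l k hBl hBk x).1 :=
      fun h => hxk (h ▸ (persp B l k hBl hBk x).2)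
    have hmr : m = r := line_unique hne m2 m3 r3 r2
    subst hmr
    have hmj : m = j := line_unique hBC m1 r1 hBj hCj
    subst hmj
    exact hxV (point_unique hjl m2 hVj x.2 hVl)
  have hVV : tau B C l k hBl hBk hCl hCk ⟨V, hVl⟩ = ⟨V, hVl⟩ := by
    unfold tau
    rw [Equiv.trans_apply, persp_fix B l k hBl hBk ⟨V, hVl⟩ hVk,
      persp_fix C k l hCk hCl ⟨V, hVk⟩ hVl]
  refine ⟨?_, hfix⟩
  apply Equiv.ext
  intro x
  rw [Equiv.Perm.one_apply, pow_succ, pow_two, Equiv.Perm.mul_apply, Equiv.Perm.mul_apply]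
  by_cases hxV : x.1 = V
  · have : x = ⟨V, hVl⟩ := Subtype.ext hxV
    rw [this, hVV, hVV, hVV]
  -- the quadrangle `V, C, X, Y`
  obtain ⟨m, m1, m2, m3⟩ := persp_spec B l k hBl hBk x
  set y := persp B l k hBl hBk x with hy
  have hxk : x.1 ∉ k := not_mem_of_ne hVl x.2 hVk hlk.symm hxV
  have hxy : x.1 ≠ y.1 := fun h => hxk (h ▸ y.2)
  have hyV : y.1 ≠ V := by
    intro h
    have h1 : y = ⟨V, hVk⟩ := Subtype.ext h
    rw [← persp_fix B l k hBl hBk ⟨V, hVl⟩ hVk, hy] at h1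
    exact hxV (congrArg Subtype.val ((persp B l k hBl hBk).injective h1))
  have hyl : y.1 ∉ l := not_mem_of_ne hVk y.2 hVl hlk hyV
  have hxj : x.1 ∉ j := not_mem_of_ne hVl x.2 hVj hjl hxV
  have hyj : y.1 ∉ j := not_mem_of_ne hVk y.2 hVj hjk hyV
  have hmj : m ≠ j := fun h => hxj (h ▸ m2)
  have hCm : C ∉ m := not_mem_of_ne hBj hCj m1 hmj (Ne.symm hBC)
  have hQ : Quadrangle L V C x.1 y.1 := by
    intro r
    refine ⟨?_, ?_, ?_, ?_⟩
    · rintro ⟨h1, h2, h3⟩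
      exact hxj (line_unique hCV h2 h1 hCj hVj ▸ h3)
    · rintro ⟨h1, h2, h3⟩
      exact hyj (line_unique hCV h2 h1 hCj hVj ▸ h3)
    · rintro ⟨h1, h2, h3⟩
      exact hyl (line_unique hxV h2 h1 x.2 hVl ▸ h3)
    · rintro ⟨h1, h2, h3⟩
      exact hCm (line_unique hxy h2 h3 m2 m3 ▸ h1)
  obtain ⟨S, T, ⟨hS, ⟨hVS, hCS, hxS, hyS⟩, -⟩, hO⟩ := h V C x.1 y.1 hQ
  have hlT : l ∈ T := mem_T hS hVS hxS (Ne.symm hxV) hVl x.2
  have hkT : k ∈ T := mem_T hS hVS hyS (Ne.symm hyV) hVk y.2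
  have hjT : j ∈ T := mem_T hS hVS hCS hCV.symm hVj hCj
  have hmT : m ∈ T := mem_T hS hxS hyS hxy m2 m3
  have hBS : B ∈ S := mem_S hS hmT hjT hmj m1 hBj
  exact three_cycle (ncard_line hO hlT) (tau B C l k hBl hBk hCl hCk)
    (fun w hw => persp_mem hS hCS hlT hCk hCl (persp_mem hS hBS hkT hBl hBk hw))
    (z := ⟨V, hVl⟩) hVS hVV (fun w _ hw => Subtype.ext (hfix w hw)) hxS

theorem geoI_three (h : ∀ a b c d : P, Quadrangle L a b c d → ∃ (S : Set P) (T : Set L),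
    IsGeneratedBy S T a b c d ∧ HasOrder S T 3) : GeoI P L := by
  intro V A B C a b c j hCa hCb hAb hAc hBc hBa hVa hVb hVc hVj hAa hBb hCc hAj hBj hCj
  have f1 := eta_fix V A B C a b c hCa hCb hAb hAc hBc hBa hVa hVb hVc
  have f2 := eta_fix' A B C a b c j hCa hCb hAb hAc hBc hBa hAa hBb hCc hAj hBj hCj
  have hab : a ≠ b := fun h => hAb (h ▸ hAa)
  have hbc : b ≠ c := fun h => hBc (h ▸ hBb)
  have hca : c ≠ a := fun h => hCa (h ▸ hCc)
  have hVA : V ≠ A := fun h => hVj (h ▸ hAj)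
  have hVC : V ≠ C := fun h => hVj (h ▸ hCj)
  have hAC : A ≠ C := fun h => hCa (h ▸ hAa)
  have hjb : j ≠ b := fun h => hVj (h ▸ hVb)
  have hjc : j ≠ c := fun h => hVj (h ▸ hVc)
  -- the main claim
  have main : ∀ x : {x : P // x ∈ a}, x.1 ≠ V → x.1 ≠ A →
      eta A B C a b c hCa hCb hAb hAc hBc hBa (eta A B C a b c hCa hCb hAb hAc hBc hBa x) = x ∧
      eta A B C a b c hCa hCb hAb hAc hBc hBa x ≠ x := by
    intro x hxV hxA
    obtain ⟨m, m1, m2, m3⟩ := persp_spec C a b hCa hCb x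
    set D := persp C a b hCa hCb x with hD
    have hDV : D.1 ≠ V := by
      intro h
      have h1 : D = ⟨V, hVb⟩ := Subtype.ext h
      rw [← persp_fix C a b hCa hCb ⟨V, hVa⟩ hVb, hD] at h1
      exact hxV (congrArg Subtype.val ((persp C a b hCa hCb).injective h1))
    have hDB : D.1 ≠ B := by
      intro h
      have h1 : D = ⟨B, hBb⟩ := Subtype.ext h
      rw [← persp_eq C a b hCa hCb ⟨A, hAa⟩ ⟨B, hBb⟩ j hCj hAj hBj, hD] at h1
      exact hxA (congrArg Subtype.val ((persp C a b hCa hCb).injective h1))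
    have hDa : D.1 ∉ a := not_mem_of_ne hVb D.2 hVa hab hDV
    have hDc : D.1 ∉ c := not_mem_of_ne hVb D.2 hVc hbc.symm hDV
    have hDj : D.1 ∉ j := not_mem_of_ne hBb D.2 hBj hjb hDB
    have hQ : Quadrangle L V A C D.1 := by
      intro r
      refine ⟨?_, ?_, ?_, ?_⟩
      · rintro ⟨h1, h2, h3⟩
        exact hCa (line_unique hVA h1 h2 hVa hAa ▸ h3)
      · rintro ⟨h1, h2, h3⟩
        exact hDa (line_unique hVA h1 h2 hVa hAa ▸ h3)
      · rintro ⟨h1, h2, h3⟩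
        exact hDc (line_unique hVC h1 h2 hVc hCc ▸ h3)
      · rintro ⟨h1, h2, h3⟩
        exact hDj (line_unique hAC h1 h2 hAj hCj ▸ h3)
    obtain ⟨S, T, ⟨hS, ⟨hVS, hAS, hCS, hDS⟩, -⟩, hO⟩ := h V A C D.1 hQ
    have haT : a ∈ T := mem_T hS hVS hAS hVA hVa hAa
    have hcT : c ∈ T := mem_T hS hVS hCS hVC hVc hCc
    have hjT : j ∈ T := mem_T hS hAS hCS hAC hAj hCj
    have hbT : b ∈ T := mem_T hS hVS hDS hDV.symm hVb D.2
    have hBS : B ∈ S := mem_S hS hbT hjT hjb.symm hBb hBj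
    have hCD : C ≠ D.1 := fun h => hCb (h ▸ D.2)
    have hAD : A ≠ D.1 := fun h => hAb (h ▸ D.2)
    have hmT : m ∈ T := mem_T hS hCS hDS hCD m1 m3
    have hma : m ≠ a := fun h => hCa (h ▸ m1)
    have hxS : x.1 ∈ S := mem_S hS hmT haT hma m2 x.2
    -- the point F
    obtain ⟨n, n1, n2, n3⟩ := persp_spec A b c hAb hAc D
    set F := persp A b c hAb hAc D with hF
    obtain ⟨q, q1, q2, q3⟩ := persp_spec B c a hBc hBa F
    have hnT : n ∈ T := mem_T hS hAS hDS hAD n1 n2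
    have hnc : n ≠ c := fun h => hAc (h ▸ n1)
    have hFS : F.1 ∈ S := mem_S hS hnT hcT hnc n3 F.2
    have heta : eta A B C a b c hCa hCb hAb hAc hBc hBa x = persp B c a hBc hBa F := rfl
    have hBF : B ≠ F.1 := fun h => hBc (h ▸ F.2)
    have hqT : q ∈ T := mem_T hS hBS hFS hBF q1 q2
    have hAm : A ∉ m := by
      intro h
      exact hxA (point_unique hma m2 h x.2 hAa)
    have hne : eta A B C a b c hCa hCb hAb hAc hBc hBa x ≠ x := by
      intro hx
      rw [heta] at hx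
      rw [hx] at q3
      -- `q` contains `B, F, x`
      have hqa : q ≠ a := fun h => hBa (h ▸ q1)
      have hVq : V ∉ q := fun h => hxV (point_unique hqa q3 h x.2 hVa)
      have hqb : q ≠ b := fun h => hVq (h ▸ hVb)
      have hqc : q ≠ c := fun h => hVq (h ▸ hVc)
      have hBn : B ∉ n := by
        intro h
        have hnj : n ≠ j := fun h' => hDj (h' ▸ n2)
        have h2 := point_unique hnj h n1 hBj hAj
        exact hAb (h2 ▸ hBb)
      have hBm : B ∉ m := by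
        intro h
        have hmj : m ≠ j := fun h' => hDj (h' ▸ m3)
        have h2 := point_unique hmj h m1 hBj hCj
        exact hCb (h2 ▸ hBb)
      have hqn : q ≠ n := fun h => hBn (h ▸ q1)
      have hqm : q ≠ m := fun h => hBm (h ▸ q1)
      have hFj : F.1 ∉ j := by
        intro h
        have h2 := point_unique hjc h hCj F.2 hCc
        have hnj : n ≠ j := fun h' => hDj (h' ▸ n2)
        have h3 := point_unique hnj n3 n1 h hAj
        exact hAc (h3 ▸ F.2)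
      have hqj : q ≠ j := fun h => hFj (h ▸ q2)
      have h4 := ncard_line hO hqT
      obtain ⟨R, hRS, hR1, hR2, hR3⟩ := exists_fourth h4 ⟨B, q1⟩ ⟨F.1, q2⟩ ⟨x.1, q3⟩
      have hRB : R.1 ≠ B := fun h => hR1 (Subtype.ext h)
      have hRF : R.1 ≠ F.1 := fun h => hR2 (Subtype.ext h)
      have hRx : R.1 ≠ x.1 := fun h => hR3 (Subtype.ext h)
      have hRV : V ≠ R.1 := fun h => hVq (h ▸ R.2)
      obtain ⟨r, r1, r2⟩ := exists_line_two (L := L) V R.1 hRV
      have hrT : r ∈ T := mem_T hS hVS hRS hRV r1 r2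
      have hra : r ≠ a := fun h => hRx (point_unique hqa R.2 q3 (h ▸ r2) x.2)
      have hrb : r ≠ b := fun h => hRB (point_unique hqb R.2 q1 (h ▸ r2) hBb)
      have hrc : r ≠ c := fun h => hRF (point_unique hqc R.2 q2 (h ▸ r2) F.2)
      have hrj : r ≠ j := fun h => hVj (h ▸ r1)
      have hVn : V ∉ n := by
        intro h
        have h2 : n = a := line_unique hVA h n1 hVa hAa
        exact hDa (h2 ▸ n2)
      have hVm : V ∉ m := by
        intro h
        have h2 : m = c := line_unique hVC h m1 hVc hCc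
        exact hDc (h2 ▸ m3)
      have hrn : r ≠ n := fun h => hVn (h ▸ r1)
      have hrm : r ≠ m := fun h => hVm (h ▸ r1)
      obtain ⟨U1, u1, u1'⟩ := exists_meet (P := P) r j hrj
      obtain ⟨U2, u2, u2'⟩ := exists_meet (P := P) r n hrn
      obtain ⟨U3, u3, u3'⟩ := exists_meet (P := P) r m hrm
      have s1 : U1 ∈ S := mem_S hS hrT hjT hrj u1 u1'
      have s2 : U2 ∈ S := mem_S hS hrT hnT hrn u2 u2'
      have s3 : U3 ∈ S := mem_S hS hrT hmT hrm u3 u3'
      have hnj : n ≠ j := fun h' => hDj (h' ▸ n2)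
      have hmj : m ≠ j := fun h' => hDj (h' ▸ m3)
      have hnm : n ≠ m := fun h' => hAm (h' ▸ n1)
      have e12 : U1 ≠ U2 := by
        intro h
        have h2 : U2 = A := point_unique hnj u2' n1 (h ▸ u1') hAj
        exact hra (line_unique hVA r1 (h2 ▸ u2) hVa hAa)
      have e13 : U1 ≠ U3 := by
        intro h
        have h2 : U3 = C := point_unique hmj u3' m1 (h ▸ u1') hCj
        exact hrc (line_unique hVC r1 (h2 ▸ u3) hVc hCc)
      have e23 : U2 ≠ U3 := by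
        intro h
        have h2 : U3 = D.1 := point_unique hnm (h ▸ u2') n2 u3' m3
        exact hrb (line_unique hDV.symm r1 (h2 ▸ u3) hVb D.2)
      have v1 : V ≠ U1 := fun h => hVj (h ▸ u1')
      have v2 : V ≠ U2 := fun h => hVn (h ▸ u2')
      have v3 : V ≠ U3 := fun h => hVm (h ▸ u3')
      have w1 : R.1 ≠ U1 := fun h => hRB (point_unique hqj R.2 q1 (h ▸ u1') hBj)
      have w2 : R.1 ≠ U2 := fun h => hRF (point_unique hqn R.2 q2 (h ▸ u2') n3)
      have w3 : R.1 ≠ U3 := fun h => hRx (point_unique hqm R.2 q3 (h ▸ u3') m2)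
      exact no_five (hO r hrT) (a := V) (b := R.1) (c := U1) (d := U2) (e := U3)
        ⟨hVS, r1⟩ ⟨hRS, r2⟩ ⟨s1, u1⟩ ⟨s2, u2⟩ ⟨s3, u3⟩ hRV v1 v2 v3 w1 w2 w3 e12 e13 e23
    refine ⟨?_, hne⟩
    set E := eta A B C a b c hCa hCb hAb hAc hBc hBa with hE
    have hW := ncard_line hO haT
    have hES : ∀ w : {x : P // x ∈ a}, w.1 ∈ S → (E w).1 ∈ S := by
      intro w hw
      exact persp_mem hS hBS haT hBc hBa (persp_mem hS hAS hcT hAb hAc
        (persp_mem hS hCS hbT hCa hCb hw))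
    have xV : x ≠ ⟨V, hVa⟩ := fun h => hxV (congrArg Subtype.val h)
    have xA : x ≠ ⟨A, hAa⟩ := fun h => hxA (congrArg Subtype.val h)
    have gV : ∀ {w}, w ≠ ⟨V, hVa⟩ → E w ≠ ⟨V, hVa⟩ :=
      fun h h' => h (E.injective (h'.trans f1.symm))
    have gA : ∀ {w}, w ≠ ⟨A, hAa⟩ → E w ≠ ⟨A, hAa⟩ :=
      fun h h' => h (E.injective (h'.trans f2.symm))
    by_contra hcon
    refine no_five hW (a := ⟨V, hVa⟩) (b := ⟨A, hAa⟩) (c := x) (d := E x) (e := E (E x))
      hVS hAS hxS (hES x hxS) (hES _ (hES x hxS)) ?_ xV.symm (gV xV).symm (gV (gV xV)).symm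
      xA.symm (gA xA).symm (gA (gA xA)).symm hne.symm (Ne.symm hcon) ?_
    · intro h
      exact hVA (congrArg Subtype.val h)
    · intro h
      exact hne (E.injective h.symm)
  refine ⟨?_, ?_⟩
  · intro x
    by_cases hxV : x.1 = V
    · have : x = ⟨V, hVa⟩ := Subtype.ext hxV
      rw [this, f1, f1]
    by_cases hxA : x.1 = A
    · have : x = ⟨A, hAa⟩ := Subtype.ext hxA
      rw [this, f2, f2]
    exact (main x hxV hxA).1
  · intro x hx
    by_contra hcon
    push Not at hcon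
    exact (main x hcon.1 hcon.2).2 hx

end sub

end P994e17
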